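import Pool.Agent.H82.ST.ModP

/-!
# Local points of `(A(x)² - m)(y^{2b} - n) = k`
-/

set_option autoImplicit false

namespace Pool.Agent.H82.ST

open Polynomial Filter

/-- the value of an integral polynomial -/
noncomputable def ev {K : Type} [Field K] (A : ℤ[X]) (x : K) : K := aeval x A

theorem ev_eq {K : Type} [Field K] (A : ℤ[X]) (x : K) : ev A x = (A.map (algebraMap ℤ K)).eval x := by
  unfold ev
  rw [eval_map_algebraMap]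

/-- `(A(x)² - m)(y^{2b} - n) = k` has a solution with `y ≠ 0` -/
def Sol (A : ℤ[X]) (b : ℕ) (m n k : ℤ) (K : Type) [Field K] : Prop :=
  ∃ x y : K, y ≠ 0 ∧ (ev A x ^ 2 - (m : K)) * (y ^ (2 * b) - (n : K)) = (k : K)

/-- Hensel for `z ^ N = Y` -/
theorem root_of_close {p : ℕ} [hp : Fact p.Prime] {N : ℕ} (Y a : ℤ_[p]) (ha : ‖a‖ = 1)
    (h : ‖a ^ N - Y‖ < ‖((N : ℕ) : ℤ_[p])‖ ^ 2) : ∃ z : ℤ_[p], z ^ N = Y := by
  have h1 : ‖(X ^ N - C Y : ℤ_[p][X]).aeval a‖ < ‖(derivative (X ^ N - C Y : ℤ_[p][X])).aeval a‖ ^ 2 := by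
    have e1 : (X ^ N - C Y : ℤ_[p][X]).aeval a = a ^ N - Y := by simp
    have e2 : (derivative (X ^ N - C Y : ℤ_[p][X])).aeval a = (N : ℤ_[p]) * a ^ (N - 1) := by
      rw [derivative_sub, derivative_C, sub_zero, derivative_X_pow]
      simp
    rw [e1, e2, norm_mul, norm_pow, ha, one_pow, mul_one]
    exact h
  obtain ⟨z, hz, -⟩ := hensels_lemma h1
  refine ⟨z, ?_⟩
  have e1 : (X ^ N - C Y : ℤ_[p][X]).aeval z = z ^ N - Y := by simp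
  rw [e1] at hz
  exact sub_eq_zero.1 hz

theorem root_of_close' {p : ℕ} [hp : Fact p.Prime] {N : ℕ} (Y a : ℚ_[p]) (ha : ‖a‖ = 1)
    (h : ‖a ^ N - Y‖ < ‖((N : ℕ) : ℚ_[p])‖ ^ 2) : ∃ z : ℚ_[p], z ^ N = Y := by
  have hN : ‖((N : ℕ) : ℚ_[p])‖ ≤ 1 := by
    have := Padic.norm_int_le_one (p := p) (N : ℤ)
    simpa using this
  have hN2 : ‖((N : ℕ) : ℚ_[p])‖ ^ 2 ≤ 1 := pow_le_one₀ (norm_nonneg _) hN
  have hY : ‖Y‖ ≤ 1 := by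
    have e : Y = a ^ N + (-(a ^ N - Y)) := by ring
    rw [e]
    refine (Padic.nonarchimedean _ _).trans (max_le ?_ ?_)
    · rw [norm_pow, ha, one_pow]
    · rw [norm_neg]
      linarith
  obtain ⟨Y', hY'⟩ : ∃ Y' : ℤ_[p], (Y' : ℚ_[p]) = Y := ⟨⟨Y, hY⟩, rfl⟩
  obtain ⟨a', ha'⟩ : ∃ a' : ℤ_[p], (a' : ℚ_[p]) = a := ⟨⟨a, ha.le⟩, rfl⟩
  obtain ⟨z, hz⟩ := root_of_close (p := p) (N := N) Y' a' (by rw [PadicInt.norm_def, ha']; exact ha)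
    (by
      rw [PadicInt.norm_def, PadicInt.norm_def]
      push_cast
      rw [hY', ha']
      exact h)
  refine ⟨z, ?_⟩
  have := congrArg (fun w : ℤ_[p] => (w : ℚ_[p])) hz
  rw [← hY']
  simpa using this

/-- the solution from a value of `y ^ (2 b)` -/
theorem sol_of {A : ℤ[X]} {b : ℕ} {m n k : ℤ} {K : Type} [Field K] {x y : K} (hb : 1 ≤ b)
    (hx : ev A x ^ 2 - (m : K) ≠ 0) (hY : (n : K) + k / (ev A x ^ 2 - (m : K)) ≠ 0)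
    (hy : y ^ (2 * b) = (n : K) + k / (ev A x ^ 2 - (m : K))) : Sol A b m n k K := by
  refine ⟨x, y, ?_, ?_⟩
  · rintro rfl
    apply hY
    rw [← hy, zero_pow (by omega)]
  · rw [hy, add_sub_cancel_left, mul_div_cancel₀ _ hx]

/-- the value at a point near infinity -/
theorem exists_large {p : ℕ} [hp : Fact p.Prime] {A : ℤ[X]} (hA : 1 ≤ A.natDegree) (m k : ℤ) {ε : ℝ} (hε : 0 < ε) :
    ∃ x : ℚ_[p], ev A x ^ 2 - (m : ℚ_[p]) ≠ 0 ∧ ‖(k : ℚ_[p]) / (ev A x ^ 2 - (m : ℚ_[p]))‖ < ε := by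
  have hdeg : 0 < (A.map (algebraMap ℤ ℚ_[p])).degree := by
    rw [degree_map_eq_of_injective (RingHom.injective_int (algebraMap ℤ ℚ_[p]))]
    exact natDegree_pos_iff_degree_pos.1 (by omega)
  have h1 : Tendsto (fun j : ℕ => ‖((p : ℚ_[p])⁻¹) ^ j‖) atTop atTop := by
    have h2 : (fun j : ℕ => ‖((p : ℚ_[p])⁻¹) ^ j‖) = fun j : ℕ => (p : ℝ) ^ j := by
      funext j
      rw [norm_pow, norm_inv, Padic.norm_p, inv_inv]
    rw [h2]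
    exact tendsto_pow_atTop_atTop_of_one_lt (by exact_mod_cast hp.out.one_lt)
  have h2 := tendsto_norm_atTop (A.map (algebraMap ℤ ℚ_[p])) hdeg h1
  obtain ⟨j, hj⟩ := (h2.eventually_ge_atTop (2 + ‖(k : ℚ_[p])‖ / ε + 1)).exists
  refine ⟨((p : ℚ_[p])⁻¹) ^ j, ?_⟩
  rw [← ev_eq] at hj
  set v := ev A (((p : ℚ_[p])⁻¹) ^ j) with hv
  have hk0 : 0 ≤ ‖(k : ℚ_[p])‖ / ε := by positivity
  have hv1 : 2 ≤ ‖v‖ := by linarith
  have hm : ‖(m : ℚ_[p])‖ ≤ 1 := Padic.norm_int_le_one m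
  have h3 : ‖v‖ ≤ ‖v ^ 2 - (m : ℚ_[p])‖ := by
    have h4 : ‖v ^ 2‖ ≤ max ‖v ^ 2 - (m : ℚ_[p])‖ ‖(m : ℚ_[p])‖ := by
      have e : v ^ 2 = (v ^ 2 - (m : ℚ_[p])) + m := by ring
      calc ‖v ^ 2‖ = ‖(v ^ 2 - (m : ℚ_[p])) + m‖ := by rw [← e]
        _ ≤ _ := Padic.nonarchimedean _ _
    rw [norm_pow] at h4
    have h5 : ‖v‖ ≤ ‖v‖ ^ 2 := by nlinarith
    rcases le_max_iff.1 h4 with h6 | h6
    · linarith
    · exfalso
      linarith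
  have h4 : 0 < ‖v ^ 2 - (m : ℚ_[p])‖ := by linarith
  refine ⟨norm_pos_iff.1 h4, ?_⟩
  rw [norm_div, div_lt_iff₀ h4]
  have h5 : ‖(k : ℚ_[p])‖ / ε < ‖v ^ 2 - (m : ℚ_[p])‖ := by linarith
  rw [div_lt_iff₀ hε] at h5
  linarith

/-- small primes -/
theorem sol_small {p : ℕ} [hp : Fact p.Prime] {A : ℤ[X]} (hA : 1 ≤ A.natDegree) {b : ℕ} (hb : 1 ≤ b) {m n k : ℤ}
    (hn : ((2 * b) ^ 2 * p : ℤ) ∣ n - 1) : Sol A b m n k ℚ_[p] := by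
  set N := 2 * b with hN
  have hN0 : ((N : ℕ) : ℚ_[p]) ≠ 0 := by exact_mod_cast (by omega : N ≠ 0)
  have hε : 0 < ‖((N : ℕ) : ℚ_[p])‖ ^ 2 := by positivity
  obtain ⟨x, hx, hlt⟩ := exists_large (p := p) hA m k hε
  have hN1 : ‖((N : ℕ) : ℚ_[p])‖ ≤ 1 := by
    have := Padic.norm_int_le_one (p := p) (N : ℤ)
    simpa using this
  have h1 : ‖(n : ℚ_[p]) - 1‖ < ‖((N : ℕ) : ℚ_[p])‖ ^ 2 := by
    obtain ⟨c, hc⟩ := hn
    have e : (n : ℚ_[p]) - 1 = ((N : ℕ) : ℚ_[p]) ^ 2 * p * c := by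
      have := congrArg (fun w : ℤ => (w : ℚ_[p])) hc
      push_cast at this
      rw [this, hN]
      push_cast
      ring
    rw [e, norm_mul, norm_mul, norm_pow, Padic.norm_p, mul_assoc]
    have hc1 : ‖(c : ℚ_[p])‖ ≤ 1 := Padic.norm_int_le_one c
    have hp1 : ((p : ℝ))⁻¹ < 1 := inv_lt_one_of_one_lt₀ (by exact_mod_cast hp.out.one_lt)
    have hp0 : (0 : ℝ) ≤ (p : ℝ)⁻¹ := by positivity
    have h5 : ((p : ℝ))⁻¹ * ‖(c : ℚ_[p])‖ < 1 := by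
      calc ((p : ℝ))⁻¹ * ‖(c : ℚ_[p])‖ ≤ ((p : ℝ))⁻¹ * 1 := mul_le_mul_of_nonneg_left hc1 hp0
        _ < 1 := by rw [mul_one]; exact hp1
    calc ‖((N : ℕ) : ℚ_[p])‖ ^ 2 * (((p : ℝ))⁻¹ * ‖(c : ℚ_[p])‖) < ‖((N : ℕ) : ℚ_[p])‖ ^ 2 * 1 :=
          mul_lt_mul_of_pos_left h5 hε
      _ = _ := mul_one _
  have h2 : ‖(1 : ℚ_[p]) ^ N - ((n : ℚ_[p]) + k / (ev A x ^ 2 - (m : ℚ_[p])))‖ < ‖((N : ℕ) : ℚ_[p])‖ ^ 2 := by
    have e : (1 : ℚ_[p]) ^ N - ((n : ℚ_[p]) + k / (ev A x ^ 2 - (m : ℚ_[p]))) =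
        -((n : ℚ_[p]) - 1) + -(k / (ev A x ^ 2 - (m : ℚ_[p]))) := by
      rw [one_pow]
      ring
    rw [e]
    refine lt_of_le_of_lt (Padic.nonarchimedean _ _) ?_
    rw [norm_neg, norm_neg]
    exact max_lt h1 hlt
  obtain ⟨y, hy⟩ := root_of_close' _ (1 : ℚ_[p]) (norm_one) h2
  refine sol_of hb hx ?_ hy
  intro h0
  rw [h0, sub_zero, one_pow, norm_one] at h2
  have : ‖((N : ℕ) : ℚ_[p])‖ ^ 2 ≤ 1 := pow_le_one₀ (norm_nonneg _) hN1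
  linarith

/-- large primes -/
theorem sol_large {p : ℕ} [hp : Fact p.Prime] {A : ℤ[X]} {b : ℕ} (hb : 1 ≤ b) {m n k : ℤ} (hpb : ¬ p ∣ 2 * b)
    (hpt : ∃ x y : ZMod p, y ≠ 0 ∧ (A.map (Int.castRingHom (ZMod p))).eval x ^ 2 - (m : ZMod p) ≠ 0 ∧
        ((A.map (Int.castRingHom (ZMod p))).eval x ^ 2 - m) * (y ^ (2 * b) - n) = (k : ZMod p)) :
    Sol A b m n k ℚ_[p] := by
  obtain ⟨x0, y0, hy0, hx0, he⟩ := hpt
  obtain ⟨x, rfl⟩ : ∃ x : ℤ, (x : ZMod p) = x0 := ⟨x0.val, by simp⟩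
  obtain ⟨y, rfl⟩ : ∃ y : ℤ, (y : ZMod p) = y0 := ⟨y0.val, by simp⟩
  set N := 2 * b with hN
  have hev : (A.map (Int.castRingHom (ZMod p))).eval (x : ZMod p) = ((A.eval x : ℤ) : ZMod p) := by
    rw [eval_intCast_map]
    rfl
  rw [hev] at hx0 he
  have hw : ¬ (p : ℤ) ∣ A.eval x ^ 2 - m := by
    rw [← ZMod.intCast_zmod_eq_zero_iff_dvd]
    push_cast
    exact hx0
  have hy : ¬ (p : ℤ) ∣ y := by
    rw [← ZMod.intCast_zmod_eq_zero_iff_dvd]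
    exact hy0
  have hnorm : ∀ z : ℤ, ¬ (p : ℤ) ∣ z → ‖(z : ℚ_[p])‖ = 1 := by
    intro z hz
    refine le_antisymm (Padic.norm_int_le_one z) (not_lt.1 fun h => hz ?_)
    refine (PadicInt.norm_int_lt_one_iff_dvd z).1 ?_
    rw [PadicInt.norm_def]
    push_cast
    exact h
  have hevQ : ev A ((x : ℤ) : ℚ_[p]) = ((A.eval x : ℤ) : ℚ_[p]) := by
    rw [ev_eq, eval_intCast_map]
    rfl
  have hwQ : ‖ev A ((x : ℤ) : ℚ_[p]) ^ 2 - (m : ℚ_[p])‖ = 1 := by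
    rw [hevQ]
    have := hnorm _ hw
    push_cast at this
    exact this
  have hwQ0 : ev A ((x : ℤ) : ℚ_[p]) ^ 2 - (m : ℚ_[p]) ≠ 0 := by
    intro h
    rw [h, norm_zero] at hwQ
    exact zero_ne_one hwQ
  have hNn : ‖((N : ℕ) : ℚ_[p])‖ = 1 := by
    have := hnorm (N : ℤ) (by exact_mod_cast hpb)
    simpa using this
  have hdvd : (p : ℤ) ∣ (A.eval x ^ 2 - m) * (y ^ N - n) - k := by
    rw [← ZMod.intCast_zmod_eq_zero_iff_dvd]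
    push_cast
    rw [he, sub_self]
  have h2 : ‖((y : ℤ) : ℚ_[p]) ^ N - ((n : ℚ_[p]) + k / (ev A ((x : ℤ) : ℚ_[p]) ^ 2 - (m : ℚ_[p])))‖ <
      ‖((N : ℕ) : ℚ_[p])‖ ^ 2 := by
    have e : ((y : ℤ) : ℚ_[p]) ^ N - ((n : ℚ_[p]) + k / (ev A ((x : ℤ) : ℚ_[p]) ^ 2 - (m : ℚ_[p]))) =
        (((A.eval x ^ 2 - m) * (y ^ N - n) - k : ℤ) : ℚ_[p]) / (ev A ((x : ℤ) : ℚ_[p]) ^ 2 - (m : ℚ_[p])) := by
      rw [eq_div_iff hwQ0, sub_mul, add_mul, div_mul_cancel₀ _ hwQ0, hevQ]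
      push_cast
      ring
    rw [e, norm_div, hwQ, div_one, hNn, one_pow]
    have := (PadicInt.norm_int_lt_one_iff_dvd _).2 hdvd
    rw [PadicInt.norm_def] at this
    exact_mod_cast this
  obtain ⟨z, hz⟩ := root_of_close' _ ((y : ℤ) : ℚ_[p]) (hnorm y hy) h2
  refine sol_of hb hwQ0 ?_ hz
  intro h0
  rw [h0, sub_zero, norm_pow, hnorm y hy, one_pow, hNn, one_pow] at h2
  exact lt_irrefl _ h2

/-- the real place -/
theorem sol_real {A : ℤ[X]} (hA : 1 ≤ A.natDegree) {b : ℕ} (hb : 1 ≤ b) {m n k : ℤ} (hn : 0 < n) :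
    Sol A b m n k ℝ := by
  have hdeg : 0 < (A.map (algebraMap ℤ ℝ)).degree := by
    rw [degree_map_eq_of_injective (RingHom.injective_int (algebraMap ℤ ℝ))]
    exact natDegree_pos_iff_degree_pos.1 (by omega)
  have h1 : Tendsto (fun x : ℝ => ‖x‖) atTop atTop := tendsto_norm_atTop_atTop
  have h2 := tendsto_norm_atTop (A.map (algebraMap ℤ ℝ)) hdeg h1
  obtain ⟨x, hx⟩ := (h2.eventually_ge_atTop (1 + |(m : ℝ)| + |(k : ℝ)|)).exists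
  rw [← ev_eq, Real.norm_eq_abs] at hx
  set v := ev A x with hv
  have hk0 := abs_nonneg (k : ℝ)
  have hm0 := abs_nonneg (m : ℝ)
  have hv1 : 1 ≤ |v| := by linarith
  have h3 : |v| ≤ v ^ 2 := by
    rw [← sq_abs]
    nlinarith
  have h4 : |(k : ℝ)| < v ^ 2 - m := by
    have := le_abs_self (m : ℝ)
    linarith
  have h5 : 0 < v ^ 2 - (m : ℝ) := by linarith
  have h6 : 0 < (n : ℝ) + k / (v ^ 2 - (m : ℝ)) := by
    have h7 : |(k : ℝ) / (v ^ 2 - (m : ℝ))| < 1 := by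
      rw [abs_div, abs_of_pos h5, div_lt_one h5]
      exact h4
    have h8 : (1 : ℝ) ≤ n := by exact_mod_cast hn
    have := (abs_lt.1 h7).1
    linarith
  refine sol_of (x := x) (y := ((n : ℝ) + k / (v ^ 2 - (m : ℝ))) ^ (((2 * b : ℕ) : ℝ)⁻¹)) hb h5.ne' h6.ne' ?_
  exact Real.rpow_inv_natCast_pow h6.le (by omega)

end Pool.Agent.H82.ST
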