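import Pool.Agent.H82.ST.Loc
import Pool.Agent.H82.ST.Local

/-!
# The binary forms of `A(x)² - m B(x)` and their local behaviour
-/

set_option autoImplicit false

namespace Pool.Agent.H82.ST

open Polynomial PadicInt

/-- the form `w ^ a A(x / w)`, `a = deg A` -/
def fm {R : Type} [CommRing R] (A : ℤ[X]) (x w : R) : R :=
  ∑ i ∈ Finset.range (A.natDegree + 1), (A.coeff i : R) * x ^ i * w ^ (A.natDegree - i)

/-- the form of `A² - m B` -/
def FF {R : Type} [CommRing R] (A B : ℤ[X]) (m : ℤ) (x w : R) : R :=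
  fm A x w ^ 2 - m * w ^ (2 * A.natDegree - B.natDegree) * fm B x w

theorem fm_map {R S : Type} [CommRing R] [CommRing S] (φ : R →+* S) (A : ℤ[X]) (x w : R) :
    φ (fm A x w) = fm A (φ x) (φ w) := by
  unfold fm
  rw [map_sum]
  refine Finset.sum_congr rfl fun i _ => ?_
  rw [map_mul, map_mul, map_pow, map_pow, map_intCast]

theorem FF_map {R S : Type} [CommRing R] [CommRing S] (φ : R →+* S) (A B : ℤ[X]) (m : ℤ) (x w : R) :
    φ (FF A B m x w) = FF A B m (φ x) (φ w) := by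
  unfold FF
  rw [map_sub, map_pow, map_mul, map_mul, map_pow, map_intCast, fm_map, fm_map]

theorem fm_zero {R : Type} [CommRing R] (A : ℤ[X]) (x : R) :
    fm A x 0 = (A.leadingCoeff : R) * x ^ A.natDegree := by
  unfold fm
  rw [Finset.sum_range_succ, Finset.sum_eq_zero, zero_add, Nat.sub_self, pow_zero, mul_one]
  · rfl
  · intro i hi
    rw [Finset.mem_range] at hi
    rw [zero_pow (by omega), mul_zero]

theorem fm_scale {R : Type} [CommRing R] (A : ℤ[X]) (c x w : R) :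
    fm A (c * x) (c * w) = c ^ A.natDegree * fm A x w := by
  unfold fm
  rw [Finset.mul_sum]
  refine Finset.sum_congr rfl fun i hi => ?_
  rw [Finset.mem_range] at hi
  rw [mul_pow, mul_pow]
  have h : c ^ A.natDegree = c ^ i * c ^ (A.natDegree - i) := by
    rw [← pow_add]
    congr 1
    omega
  rw [h]
  ring

theorem FF_scale {R : Type} [CommRing R] {A B : ℤ[X]} (hb : B.natDegree ≤ 2 * A.natDegree) (m : ℤ) (c x w : R) :
    FF A B m (c * x) (c * w) = c ^ (2 * A.natDegree) * FF A B m x w := by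
  unfold FF
  rw [fm_scale, fm_scale, mul_pow c w]
  have h : c ^ (2 * A.natDegree) = c ^ (2 * A.natDegree - B.natDegree) * c ^ B.natDegree := by
    rw [← pow_add]
    congr 1
    omega
  have h2 : (c ^ A.natDegree * fm A x w) ^ 2 = c ^ (2 * A.natDegree) * fm A x w ^ 2 := by
    rw [mul_pow, ← pow_mul, mul_comm A.natDegree 2]
  rw [h2, mul_sub, h]
  ring

theorem fm_eval {K : Type} [Field K] (A : ℤ[X]) (x : K) {w : K} (hw : w ≠ 0) :
    fm A x w = w ^ A.natDegree * aeval (x / w) A := by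
  unfold fm
  rw [aeval_eq_sum_range, Finset.mul_sum]
  refine Finset.sum_congr rfl fun i hi => ?_
  rw [Finset.mem_range] at hi
  have h : w ^ A.natDegree = w ^ i * w ^ (A.natDegree - i) := by
    rw [← pow_add]
    congr 1
    omega
  rw [h, div_pow, zsmul_eq_mul]
  field_simp

variable {q : ℕ} [hq : Fact q.Prime]

theorem norm_of_red {x : ℤ_[q]} (h : toZMod x ≠ 0) : ‖x‖ = 1 := (red_ne_zero x).1 h

theorem intCast_ne {l : ℤ} (hl : ¬ (q : ℤ) ∣ l) : (l : ZMod q) ≠ 0 := by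
  rw [ne_eq, ZMod.intCast_zmod_eq_zero_iff_dvd]
  exact hl

theorem fm_red_inf {A : ℤ[X]} (hl : ¬ (q : ℤ) ∣ A.leadingCoeff) {x w : ℤ_[q]}
    (hxw : toZMod x ≠ 0 ∨ toZMod w ≠ 0) (hw : toZMod w = 0) : toZMod (fm A x w) ≠ 0 := by
  have hx : toZMod x ≠ 0 := by
    rcases hxw with h | h
    · exact h
    · exact absurd hw h
  rw [fm_map, hw, fm_zero]
  exact mul_ne_zero (intCast_ne hl) (pow_ne_zero _ hx)

theorem FF_red_inf {A B : ℤ[X]} (hb : B.natDegree < 2 * A.natDegree) (m : ℤ) {x w : ℤ_[q]} (hw : toZMod w = 0) :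
    toZMod (FF A B m x w) = toZMod (fm A x w) ^ 2 := by
  unfold FF
  rw [map_sub, map_mul, map_mul, map_pow, map_pow, hw, zero_pow (by omega), mul_zero, zero_mul, sub_zero]

/-- the first alternative -/
theorem factor_local {A B : ℤ[X]} (hb : B.natDegree < 2 * A.natDegree) (m : ℤ)
    (hl : ¬ (q : ℤ) ∣ A.leadingCoeff) {x w : ℤ_[q]} (hxw : toZMod x ≠ 0 ∨ toZMod w ≠ 0) :
    ‖w ^ A.natDegree‖ = 1 ∨ ‖FF A B m x w‖ = 1 := by
  by_cases hw : toZMod w = 0
  · right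
    refine norm_of_red ?_
    rw [FF_red_inf hb m hw]
    exact pow_ne_zero _ (fm_red_inf hl hxw hw)
  · left
    rw [norm_pow, norm_of_red hw, one_pow]

/-- a unit congruent to a square is a square -/
theorem sq_of_red (hq2 : q ≠ 2) {u e : ℤ_[q]} (he : toZMod e ≠ 0) (h : toZMod u = toZMod e ^ 2) :
    ∃ e' : ℤ_[q], ‖e'‖ = 1 ∧ u = e' ^ 2 := by
  have h2 : ‖((2 : ℕ) : ℤ_[q])‖ = 1 := by
    refine norm_of_red ?_
    rw [map_natCast]
    intro h0
    rw [ZMod.natCast_eq_zero_iff] at h0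
    exact hq2 ((Nat.prime_dvd_prime_iff_eq hq.out Nat.prime_two).1 h0)
  have h3 : ‖e ^ 2 - u‖ < ‖((2 : ℕ) : ℤ_[q])‖ ^ 2 := by
    rw [h2, one_pow, ← red_eq_zero, map_sub, map_pow, h, sub_self]
  obtain ⟨z, hz⟩ := root_of_close u e (norm_of_red he) h3
  refine ⟨z, ?_, hz.symm⟩
  have hu : ‖u‖ = 1 := by
    refine norm_of_red ?_
    rw [h]
    exact pow_ne_zero _ he
  rw [← hz, norm_pow] at hu
  exact (pow_eq_one_iff_of_nonneg (norm_nonneg z) two_ne_zero).1 hu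

/-- at a prime which divides `m` exactly once -/
theorem factor_ram (hq2 : q ≠ 2) {A B : ℤ[X]} (hb : B.natDegree < 2 * A.natDegree) {m : ℤ}
    (hl : ¬ (q : ℤ) ∣ A.leadingCoeff) (hm : (q : ℤ) ∣ m) (hm2 : ¬ (q : ℤ) ^ 2 ∣ m)
    (hcop : ∀ t : ZMod q, aeval t A = 0 → aeval t B ≠ 0) {x w : ℤ_[q]} (hxw : toZMod x ≠ 0 ∨ toZMod w ≠ 0) :
    (∃ e : ℤ_[q], ‖e‖ = 1 ∧ FF A B m x w = e ^ 2) ∨ (‖w ^ A.natDegree‖ = 1 ∧ ‖FF A B m x w‖ = (q : ℝ)⁻¹) := by
  by_cases hw : toZMod w = 0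
  · left
    exact sq_of_red hq2 (fm_red_inf hl hxw hw) (FF_red_inf hb m hw)
  · have hm0 : ((m : ℤ) : ZMod q) = 0 := (ZMod.intCast_zmod_eq_zero_iff_dvd m q).2 hm
    by_cases hA : toZMod (fm A x w) = 0
    · right
      refine ⟨by rw [norm_pow, norm_of_red hw, one_pow], ?_⟩
      have hB : toZMod (fm B x w) ≠ 0 := by
        rw [fm_map, fm_eval _ _ hw] at hA ⊢
        have h1 := (mul_eq_zero.1 hA).resolve_left (pow_ne_zero _ hw)
        exact mul_ne_zero (pow_ne_zero _ hw) (hcop _ h1)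
      obtain ⟨m', rfl⟩ := hm
      have hm' : ¬ (q : ℤ) ∣ m' := by
        rintro ⟨j, rfl⟩
        exact hm2 ⟨j, by ring⟩
      have hqn : ‖((q : ℕ) : ℤ_[q])‖ = (q : ℝ)⁻¹ := by
        rw [PadicInt.norm_p]
      have hm'n : ‖((m' : ℤ) : ℤ_[q])‖ = 1 := by
        refine norm_of_red ?_
        rw [map_intCast]
        exact intCast_ne hm'
      have hA' : ‖fm A x w‖ ≤ (q : ℝ)⁻¹ := by
        have h1 : ‖fm A x w‖ < 1 := (red_eq_zero _).1 hA
        have h2 := (PadicInt.norm_lt_one_iff_dvd (fm A x w)).1 h1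
        obtain ⟨c, hc⟩ := h2
        rw [hc, norm_mul, hqn]
        calc (q : ℝ)⁻¹ * ‖c‖ ≤ (q : ℝ)⁻¹ * 1 := mul_le_mul_of_nonneg_left (norm_le_one c) (by positivity)
          _ = (q : ℝ)⁻¹ := mul_one _
      have hq1 : (1 : ℝ) < q := by exact_mod_cast hq.out.one_lt
      have hqi : (q : ℝ)⁻¹ < 1 := inv_lt_one_of_one_lt₀ hq1
      have hqi0 : 0 < (q : ℝ)⁻¹ := by positivity
      have h3 : ‖fm A x w ^ 2‖ < (q : ℝ)⁻¹ := by
        rw [norm_pow]
        nlinarith [norm_nonneg (fm A x w)]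
      have h4 : ‖(((q : ℤ) * m' : ℤ) : ℤ_[q]) * w ^ (2 * A.natDegree - B.natDegree) * fm B x w‖ = (q : ℝ)⁻¹ := by
        push_cast
        rw [norm_mul, norm_mul, norm_mul, norm_pow, norm_of_red hw, norm_of_red hB, hm'n, hqn, one_pow]
        ring
      unfold FF
      have h5 : ‖fm A x w ^ 2‖ ≠ ‖-((((q : ℤ) * m' : ℤ) : ℤ_[q]) * w ^ (2 * A.natDegree - B.natDegree) * fm B x w)‖ := by
        rw [norm_neg, h4]
        exact h3.ne
      rw [sub_eq_add_neg, PadicInt.norm_add_eq_max_of_ne h5, norm_neg, h4]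
      exact max_eq_right h3.le
    · left
      refine sq_of_red hq2 hA ?_
      unfold FF
      rw [map_sub, map_mul, map_mul, map_intCast, hm0, zero_mul, zero_mul, sub_zero, map_pow]

end Pool.Agent.H82.ST
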