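import Pool.Agent.H14Q.Desc

/-!
# Local analysis of `(r² - m s²)(u² - n v²) = k s² v²`
-/

set_option autoImplicit false

namespace Pool.Agent.H82.ST

open Pool.Agent.H14Q PadicInt

variable {q : ℕ} [hq : Fact q.Prime]

theorem red_eq_zero (x : ℤ_[q]) : toZMod x = 0 ↔ ‖x‖ < 1 := by
  rw [← RingHom.mem_ker, ker_toZMod, IsLocalRing.mem_maximalIdeal, mem_nonunits]

theorem red_ne_zero (x : ℤ_[q]) : toZMod x ≠ 0 ↔ ‖x‖ = 1 := by
  rw [ne_eq, red_eq_zero, not_lt]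
  exact ⟨fun h => le_antisymm (norm_le_one x) h, fun h => h.ge⟩

/-- primitive coordinates -/
theorem prim (r s : ℚ_[q]) (h : r ≠ 0 ∨ s ≠ 0) : ∃ (c : ℚ_[q]) (r' s' : ℤ_[q]), c ≠ 0 ∧ r = c * r' ∧
    s = c * s' ∧ (toZMod r' ≠ 0 ∨ toZMod s' ≠ 0) := by
  rcases le_total ‖r‖ ‖s‖ with hle | hle
  · have hs : s ≠ 0 := by
      rintro rfl
      rcases h with h | h
      · rw [norm_zero] at hle
        exact h (norm_le_zero_iff.1 hle)
      · exact h rfl
    have hs' : ‖s‖ ≠ 0 := norm_ne_zero_iff.2 hs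
    have h1 : ‖r / s‖ ≤ 1 := by
      rw [norm_div]
      exact div_le_one_of_le₀ hle (norm_nonneg _)
    refine ⟨s, ⟨r / s, h1⟩, 1, hs, ?_, by simp, Or.inr (by simp)⟩
    change r = s * (r / s)
    field_simp
  · have hr : r ≠ 0 := by
      rintro rfl
      rcases h with h | h
      · exact h rfl
      · rw [norm_zero] at hle
        exact h (norm_le_zero_iff.1 hle)
    have h1 : ‖s / r‖ ≤ 1 := by
      rw [norm_div]
      exact div_le_one_of_le₀ hle (norm_nonneg _)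
    refine ⟨r, 1, ⟨s / r, h1⟩, hr, by simp, ?_, Or.inl (by simp)⟩
    change s = r * (s / r)
    field_simp

/-- reduction of a square -/
theorem sq_red {x : ℤ_[q]} {d : ℤ} {y c : ℚ_[q]} (hy : y ≠ 0)
    (h : (x : ℚ_[q]) * y ^ 2 * d = c ^ 2) : IsSquare (toZMod x * (d : ZMod q)) := by
  have h1 : ((x * (d : ℤ_[q]) : ℤ_[q]) : ℚ_[q]) = (c / y) ^ 2 := by
    rw [div_pow, eq_div_iff (pow_ne_zero 2 hy), ← h]
    push_cast
    ring
  have h2 : ‖c / y‖ ≤ 1 := by
    have h3 : ‖c / y‖ ^ 2 ≤ 1 := by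
      rw [← norm_pow, ← h1]
      exact norm_le_one _
    nlinarith [norm_nonneg (c / y)]
  obtain ⟨X, hX⟩ : ∃ X : ℤ_[q], (X : ℚ_[q]) = c / y := ⟨⟨c / y, h2⟩, rfl⟩
  have h3 : x * (d : ℤ_[q]) = X ^ 2 := by
    apply Subtype.ext
    rw [h1, ← hX]
    push_cast
    rfl
  have h4 := congrArg (toZMod (p := q)) h3
  rw [map_mul, map_pow, map_intCast] at h4
  exact ⟨toZMod X, by rw [h4]; ring⟩

/-- the value -/
noncomputable def val {F : Type} [Field F] (m n k : ℤ) (r s u v : F) : F := by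
  classical
  exact if r ^ 2 - m * s ^ 2 ≠ 0 then r ^ 2 - m * s ^ 2 else k * (u ^ 2 - n * v ^ 2)

theorem val_pos {F : Type} [Field F] {m n k : ℤ} {r s u v : F} (h : r ^ 2 - m * s ^ 2 ≠ 0) :
    val m n k r s u v = r ^ 2 - m * s ^ 2 := by
  unfold val
  rw [if_pos h]

theorem val_neg {F : Type} [Field F] {m n k : ℤ} {r s u v : F} (h : r ^ 2 - m * s ^ 2 = 0) :
    val m n k r s u v = k * (u ^ 2 - n * v ^ 2) := by
  unfold val
  rw [if_neg (not_not.2 h)]

/-- scaling of the value -/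
theorem val_scale {F : Type} [Field F] {m n k : ℤ} {r s u v c e : F} (hc : c ≠ 0) (he : e ≠ 0) :
    ∃ y : F, y ≠ 0 ∧ val m n k (c * r) (c * s) (e * u) (e * v) = val m n k r s u v * y ^ 2 := by
  by_cases h : r ^ 2 - m * s ^ 2 = 0
  · refine ⟨e, he, ?_⟩
    rw [val_neg h, val_neg (by linear_combination c ^ 2 * h)]
    ring
  · refine ⟨c, hc, ?_⟩
    have h1 : (c * r) ^ 2 - m * (c * s) ^ 2 = c ^ 2 * (r ^ 2 - m * s ^ 2) := by ring
    rw [val_pos h, val_pos (by rw [h1]; exact mul_ne_zero (pow_ne_zero 2 hc) h), h1]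
    ring

theorem eq_scale {F : Type} [Field F] {m n k : ℤ} {r s u v c e : F} (hc : c ≠ 0) (he : e ≠ 0)
    (h : ((c * r) ^ 2 - m * (c * s) ^ 2) * ((e * u) ^ 2 - n * (e * v) ^ 2) =
      k * (c * s) ^ 2 * (e * v) ^ 2) :
    (r ^ 2 - m * s ^ 2) * (u ^ 2 - n * v ^ 2) = k * s ^ 2 * v ^ 2 := by
  have h1 : c ^ 2 * e ^ 2 ≠ 0 := mul_ne_zero (pow_ne_zero 2 hc) (pow_ne_zero 2 he)
  apply mul_left_cancel₀ h1
  linear_combination h

/-- the values are not zero -/
theorem val_ne {F : Type} [Field F] [CharZero F] {m n k : ℤ} (hk : k ≠ 0) {r s u v : F}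
    (hrs : r ≠ 0 ∨ s ≠ 0) (huv : u ≠ 0 ∨ v ≠ 0)
    (heq : (r ^ 2 - m * s ^ 2) * (u ^ 2 - n * v ^ 2) = k * s ^ 2 * v ^ 2) : val m n k r s u v ≠ 0 := by
  have hk' : (k : F) ≠ 0 := Int.cast_ne_zero.2 hk
  by_cases h : r ^ 2 - m * s ^ 2 = 0
  · rw [val_neg h]
    rw [h, zero_mul] at heq
    have hs : s ≠ 0 := by
      rintro rfl
      rcases hrs with h1 | h1
      · apply h1
        have : r ^ 2 = 0 := by linear_combination h
        exact pow_eq_zero_iff two_ne_zero |>.1 this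
      · exact h1 rfl
    have hv : v = 0 := by
      by_contra hv
      exact mul_ne_zero (mul_ne_zero hk' (pow_ne_zero 2 hs)) (pow_ne_zero 2 hv) heq.symm
    subst hv
    have hu : u ≠ 0 := by
      rcases huv with h1 | h1
      · exact h1
      · exact absurd rfl h1
    refine mul_ne_zero hk' ?_
    have : u ^ 2 - n * 0 ^ 2 = u ^ 2 := by ring
    rw [this]
    exact pow_ne_zero 2 hu
  · rw [val_pos h]
    exact h

/-- the valuation of the value is even at the primes which do not divide `k` -/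
theorem val_even {m n k : ℤ} (hqk : ¬ (q : ℤ) ∣ k) {r s u v : ℚ_[q]} (hrs : r ≠ 0 ∨ s ≠ 0)
    (huv : u ≠ 0 ∨ v ≠ 0) (heq : (r ^ 2 - m * s ^ 2) * (u ^ 2 - n * v ^ 2) = k * s ^ 2 * v ^ 2) :
    ∃ c : ℚ_[q], c ≠ 0 ∧ ‖val m n k r s u v‖ = ‖c‖ ^ 2 := by
  obtain ⟨c, r', s', hc, rfl, rfl, h1⟩ := prim r s hrs
  obtain ⟨e, u', v', he, rfl, rfl, h2⟩ := prim u v huv
  obtain ⟨y, hy, hval⟩ := val_scale (m := m) (n := n) (k := k) (r := (r' : ℚ_[q])) (s := (s' : ℚ_[q]))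
    (u := (u' : ℚ_[q])) (v := (v' : ℚ_[q])) hc he
  have heq' := eq_scale hc he heq
  suffices h : ∃ c : ℚ_[q], c ≠ 0 ∧ ‖val m n k (r' : ℚ_[q]) s' u' v'‖ = ‖c‖ ^ 2 by
    obtain ⟨c', hc', h3⟩ := h
    refine ⟨c' * y, mul_ne_zero hc' hy, ?_⟩
    rw [hval, norm_mul, h3, norm_pow, norm_mul, mul_pow]
  have hkn : ‖(k : ℚ_[q])‖ = 1 := by
    refine le_antisymm (Padic.norm_int_le_one k) (not_lt.1 fun h => hqk ?_)
    refine (PadicInt.norm_int_lt_one_iff_dvd k).1 ?_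
    rw [PadicInt.norm_def]
    push_cast
    exact h
  -- integral version
  have heqZ : (r' ^ 2 - m * s' ^ 2) * (u' ^ 2 - n * v' ^ 2) = k * s' ^ 2 * v' ^ 2 := by
    apply Subtype.ext
    push_cast
    exact heq'
  have hcast : ((r' ^ 2 - m * s' ^ 2 : ℤ_[q]) : ℚ_[q]) = (r' : ℚ_[q]) ^ 2 - m * (s' : ℚ_[q]) ^ 2 := by
    push_cast; rfl
  have hcast2 : ((u' ^ 2 - n * v' ^ 2 : ℤ_[q]) : ℚ_[q]) = (u' : ℚ_[q]) ^ 2 - n * (v' : ℚ_[q]) ^ 2 := by
    push_cast; rfl
  by_cases hF : (r' : ℚ_[q]) ^ 2 - m * (s' : ℚ_[q]) ^ 2 = 0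
  · rw [val_neg hF]
    rw [hF, zero_mul] at heq'
    have hs0 : s' ≠ 0 := by
      rintro rfl
      rcases h1 with h | h
      · have h5 : (r' : ℚ_[q]) ^ 2 = 0 := by
          push_cast at hF
          linear_combination hF
        have h6 : (r' : ℚ_[q]) = 0 := pow_eq_zero_iff two_ne_zero |>.1 h5
        have h7 : r' = 0 := Subtype.ext h6
        rw [h7] at h
        exact h (map_zero _)
      · exact h (map_zero _)
    have hv0 : v' = 0 := by
      by_contra hv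
      have hk' : (k : ℚ_[q]) ≠ 0 := by
        rw [← norm_ne_zero_iff, hkn]
        exact one_ne_zero
      have hs' : (s' : ℚ_[q]) ≠ 0 := fun h => hs0 (Subtype.ext h)
      have hv' : (v' : ℚ_[q]) ≠ 0 := fun h => hv (Subtype.ext h)
      exact mul_ne_zero (mul_ne_zero hk' (pow_ne_zero 2 hs')) (pow_ne_zero 2 hv') heq'.symm
    subst hv0
    have hu : ‖u'‖ = 1 := by
      rcases h2 with h | h
      · exact (red_ne_zero _).1 h
      · exact absurd (map_zero _) h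
    refine ⟨1, one_ne_zero, ?_⟩
    rw [norm_mul, hkn, one_mul, ← hcast2]
    rw [show (u' ^ 2 - n * 0 ^ 2 : ℤ_[q]) = u' ^ 2 by ring]
    push_cast
    rw [norm_pow, norm_one]
    change ‖u'‖ ^ 2 = 1 ^ 2
    rw [hu]
  · rw [val_pos hF]
    by_cases hs : toZMod s' = 0
    · -- the first factor is a unit
      have hr : toZMod r' ≠ 0 := h1.resolve_right (not_not.2 hs)
      refine ⟨1, one_ne_zero, ?_⟩
      rw [← hcast]
      have h3 : toZMod (r' ^ 2 - (m : ℤ_[q]) * s' ^ 2) ≠ 0 := by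
        rw [map_sub, map_pow, map_mul, map_pow, hs]
        simp [hr]
      rw [norm_one, one_pow]
      exact (red_ne_zero _).1 h3
    · have hsn : ‖(s' : ℚ_[q])‖ = 1 := (red_ne_zero _).1 hs
      by_cases hv : toZMod v' = 0
      · have hu : toZMod u' ≠ 0 := h2.resolve_right (not_not.2 hv)
        have h3 : toZMod (u' ^ 2 - (n : ℤ_[q]) * v' ^ 2) ≠ 0 := by
          rw [map_sub, map_pow, map_mul, map_pow, hv]
          simp [hu]
        have h4 : ‖(u' : ℚ_[q]) ^ 2 - n * (v' : ℚ_[q]) ^ 2‖ = 1 := by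
          rw [← hcast2]
          exact (red_ne_zero _).1 h3
        have h5 := congrArg norm heq'
        rw [norm_mul, h4, mul_one, norm_mul, norm_mul, hkn, norm_pow, hsn, norm_pow] at h5
        refine ⟨v', ?_, by rw [h5]; ring⟩
        intro h0
        rw [h0] at h5
        apply hF
        rw [← norm_eq_zero, h5]
        simp
      · have hvn : ‖(v' : ℚ_[q])‖ = 1 := (red_ne_zero _).1 hv
        refine ⟨1, one_ne_zero, ?_⟩
        have h5 := congrArg norm heq'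
        rw [norm_mul, norm_mul, norm_mul, hkn, norm_pow, hsn, norm_pow, hvn] at h5
        have h6 : ‖(r' : ℚ_[q]) ^ 2 - m * (s' : ℚ_[q]) ^ 2‖ ≤ 1 := by
          rw [← hcast]; exact norm_le_one _
        have h7 : ‖(u' : ℚ_[q]) ^ 2 - n * (v' : ℚ_[q]) ^ 2‖ ≤ 1 := by
          rw [← hcast2]; exact norm_le_one _
        have h8 := norm_nonneg ((r' : ℚ_[q]) ^ 2 - m * (s' : ℚ_[q]) ^ 2)
        rw [norm_one, one_pow]
        have h9 : ‖(r' : ℚ_[q]) ^ 2 - m * (s' : ℚ_[q]) ^ 2‖ * ‖(u' : ℚ_[q]) ^ 2 - n * (v' : ℚ_[q]) ^ 2‖ = 1 := by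
          rw [h5]; ring
        nlinarith

/-- **the obstruction** at a prime dividing `m n - k` exactly once -/
theorem loc_q {m n k d : ℤ} (hqk : ¬ (q : ℤ) ∣ k) (h1 : (q : ℤ) ∣ m * n - k)
    (h3 : ¬ (q : ℤ) ^ 2 ∣ m * n - k) (hNR : NR q (d * n)) {r s u v : ℚ_[q]} (hrs : r ≠ 0 ∨ s ≠ 0)
    (huv : u ≠ 0 ∨ v ≠ 0) (heq : (r ^ 2 - m * s ^ 2) * (u ^ 2 - n * v ^ 2) = k * s ^ 2 * v ^ 2)
    (hsq : IsSquare (val m n k r s u v * d)) : False := by
  obtain ⟨c, r', s', hc, rfl, rfl, hp1⟩ := prim r s hrs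
  obtain ⟨e, u', v', he, rfl, rfl, hp2⟩ := prim u v huv
  obtain ⟨y, hy, hval⟩ := val_scale (m := m) (n := n) (k := k) (r := (r' : ℚ_[q])) (s := (s' : ℚ_[q]))
    (u := (u' : ℚ_[q])) (v := (v' : ℚ_[q])) hc he
  have heq' := eq_scale hc he heq
  obtain ⟨c0, hc0⟩ : ∃ c0 : ℚ_[q], val m n k (r' : ℚ_[q]) s' u' v' * y ^ 2 * d = c0 ^ 2 := by
    obtain ⟨c0, h⟩ := hsq
    rw [hval] at h
    exact ⟨c0, by rw [h]; ring⟩
  have hkz : ((k : ℤ) : ZMod q) ≠ 0 := by
    rw [ne_eq, ZMod.intCast_zmod_eq_zero_iff_dvd]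
    exact hqk
  have hmnk : (m : ZMod q) * n = k := by
    have := (ZMod.intCast_zmod_eq_zero_iff_dvd _ q).2 h1
    push_cast at this
    linear_combination this
  have hm0 : (m : ZMod q) ≠ 0 := by
    intro h
    rw [h, zero_mul] at hmnk
    exact hkz hmnk.symm
  have hn0 : (n : ZMod q) ≠ 0 := by
    intro h
    rw [h, mul_zero] at hmnk
    exact hkz hmnk.symm
  have hNR' : ¬ IsSquare ((d : ZMod q) * n) := by
    unfold NR at hNR
    push_cast at hNR
    exact hNR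
  -- reduction of the equation
  have heqZ : (r' ^ 2 - (m : ℤ_[q]) * s' ^ 2) * (u' ^ 2 - (n : ℤ_[q]) * v' ^ 2) = (k : ℤ_[q]) * s' ^ 2 * v' ^ 2 := by
    apply Subtype.ext
    push_cast
    exact heq'
  have hred := congrArg (toZMod (p := q)) heqZ
  simp only [map_mul, map_sub, map_pow, map_intCast] at hred
  have hcast : ((r' ^ 2 - (m : ℤ_[q]) * s' ^ 2 : ℤ_[q]) : ℚ_[q]) = (r' : ℚ_[q]) ^ 2 - m * (s' : ℚ_[q]) ^ 2 := by
    push_cast; rfl
  have hcast2 : ((u' ^ 2 - (n : ℤ_[q]) * v' ^ 2 : ℤ_[q]) : ℚ_[q]) = (u' : ℚ_[q]) ^ 2 - n * (v' : ℚ_[q]) ^ 2 := by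
    push_cast; rfl
  by_cases hs : toZMod s' = 0
  · have hr : toZMod r' ≠ 0 := hp1.resolve_right (not_not.2 hs)
    have hFz : toZMod (r' ^ 2 - (m : ℤ_[q]) * s' ^ 2) = toZMod r' ^ 2 := by
      rw [map_sub, map_pow, map_mul, map_pow, hs]
      simp
    have hF : (r' : ℚ_[q]) ^ 2 - m * (s' : ℚ_[q]) ^ 2 ≠ 0 := by
      rw [← hcast]
      intro h
      have h5 : (r' ^ 2 - (m : ℤ_[q]) * s' ^ 2 : ℤ_[q]) = 0 := Subtype.ext h
      rw [h5, map_zero] at hFz
      exact pow_ne_zero 2 hr hFz.symm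
    rw [val_pos hF, ← hcast] at hc0
    have h5 := sq_red hy hc0
    rw [hFz] at h5
    obtain ⟨z, hz⟩ := h5
    rw [hs] at hred
    have h6 : toZMod u' ^ 2 = (n : ZMod q) * toZMod v' ^ 2 := by
      have h7 : toZMod r' ^ 2 * (toZMod u' ^ 2 - (n : ZMod q) * toZMod v' ^ 2) = 0 := by
        linear_combination hred
      have h8 := (mul_eq_zero.1 h7).resolve_left (pow_ne_zero 2 hr)
      linear_combination h8
    have hv : toZMod v' ≠ 0 := by
      intro h
      rw [h] at h6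
      have h7 : toZMod u' = 0 := by
        have : toZMod u' ^ 2 = 0 := by rw [h6]; ring
        exact pow_eq_zero_iff two_ne_zero |>.1 this
      rcases hp2 with h8 | h8
      · exact h8 h7
      · exact h8 h
    apply hNR'
    refine ⟨z * toZMod u' / (toZMod r' * toZMod v'), ?_⟩
    field_simp
    linear_combination (toZMod u' ^ 2) * hz - (d : ZMod q) * toZMod r' ^ 2 * h6
  · by_cases hv : toZMod v' = 0
    · have hu : toZMod u' ≠ 0 := hp2.resolve_right (not_not.2 hv)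
      have hGz : toZMod (u' ^ 2 - (n : ℤ_[q]) * v' ^ 2) = toZMod u' ^ 2 := by
        rw [map_sub, map_pow, map_mul, map_pow, hv]
        simp
      have hG : (u' : ℚ_[q]) ^ 2 - n * (v' : ℚ_[q]) ^ 2 ≠ 0 := by
        rw [← hcast2]
        intro h
        have h5 : (u' ^ 2 - (n : ℤ_[q]) * v' ^ 2 : ℤ_[q]) = 0 := Subtype.ext h
        rw [h5, map_zero] at hGz
        exact pow_ne_zero 2 hu hGz.symm
      rw [hv] at hred
      have h6 : toZMod r' ^ 2 = (m : ZMod q) * toZMod s' ^ 2 := by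
        have h7 : (toZMod r' ^ 2 - (m : ZMod q) * toZMod s' ^ 2) * toZMod u' ^ 2 = 0 := by
          linear_combination hred
        have h8 := (mul_eq_zero.1 h7).resolve_right (pow_ne_zero 2 hu)
        linear_combination h8
      -- `k d G` is a square
      have h7 : ∃ (y2 c2 : ℚ_[q]), y2 ≠ 0 ∧
          ((u' ^ 2 - (n : ℤ_[q]) * v' ^ 2 : ℤ_[q]) : ℚ_[q]) * y2 ^ 2 * ((k * d : ℤ) : ℚ_[q]) = c2 ^ 2 := by
        rw [hcast2]
        by_cases hF : (r' : ℚ_[q]) ^ 2 - m * (s' : ℚ_[q]) ^ 2 = 0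
        · rw [val_neg hF] at hc0
          refine ⟨y, c0, hy, ?_⟩
          rw [← hc0]
          push_cast
          ring
        · rw [val_pos hF] at hc0
          refine ⟨y * ((r' : ℚ_[q]) ^ 2 - m * (s' : ℚ_[q]) ^ 2), c0 * k * s' * v', mul_ne_zero hy hF, ?_⟩
          push_cast
          calc ((u' : ℚ_[q]) ^ 2 - n * (v' : ℚ_[q]) ^ 2) *
                (y * ((r' : ℚ_[q]) ^ 2 - m * (s' : ℚ_[q]) ^ 2)) ^ 2 * (k * d)
              = (((r' : ℚ_[q]) ^ 2 - m * (s' : ℚ_[q]) ^ 2) * ((u' : ℚ_[q]) ^ 2 - n * (v' : ℚ_[q]) ^ 2)) *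
                (((r' : ℚ_[q]) ^ 2 - m * (s' : ℚ_[q]) ^ 2) * y ^ 2 * d) * k := by ring
            _ = (k * (s' : ℚ_[q]) ^ 2 * (v' : ℚ_[q]) ^ 2) * c0 ^ 2 * k := by rw [heq', hc0]
            _ = (c0 * k * s' * v') ^ 2 := by ring
      obtain ⟨y2, c2, hy2, h8⟩ := h7
      have h9 := sq_red hy2 h8
      rw [hGz] at h9
      push_cast at h9
      obtain ⟨z, hz⟩ := h9
      apply hNR'
      have hr0 : toZMod r' ≠ 0 := by
        intro h
        rw [h] at h6
        exact mul_ne_zero hm0 (pow_ne_zero 2 hs) (by rw [← h6]; ring)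
      refine ⟨z * toZMod s' / (toZMod u' * toZMod r'), ?_⟩
      field_simp
      rw [← hmnk] at hz
      linear_combination (toZMod s' ^ 2) * hz + (d : ZMod q) * n * toZMod u' ^ 2 * h6
    · have h6 : toZMod r' ^ 2 * toZMod u' ^ 2 =
          n * toZMod r' ^ 2 * toZMod v' ^ 2 + m * toZMod s' ^ 2 * toZMod u' ^ 2 := by
        linear_combination hred - (toZMod s' ^ 2) * (toZMod v' ^ 2) * hmnk
      have hboth : ¬ (toZMod r' = 0 ∧ toZMod u' = 0) := by
        rintro ⟨hr, hu⟩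
        have hdvd : ∀ x : ℤ_[q], toZMod x = 0 → ∃ y, x = q * y := by
          intro x hx
          have h7 : (q : ℤ_[q]) ∣ x := (norm_lt_one_iff_dvd x).1 ((red_eq_zero x).1 hx)
          exact h7
        obtain ⟨r1, hr1⟩ := hdvd _ hr
        obtain ⟨u1, hu1⟩ := hdvd _ hu
        have h7 : ((m * n - k : ℤ) : ℤ_[q]) * (s' * v') ^ 2 = (q : ℤ_[q]) ^ 2 *
            (n * r1 ^ 2 * v' ^ 2 + m * s' ^ 2 * u1 ^ 2 - (q : ℤ_[q]) ^ 2 * r1 ^ 2 * u1 ^ 2) := by
          rw [hr1, hu1] at heqZ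
          push_cast
          linear_combination heqZ
        have h8 : ‖((m * n - k : ℤ) : ℤ_[q])‖ ≤ (q : ℝ) ^ (-((2 : ℕ) : ℤ)) := by
          have h9 := congrArg norm h7
          rw [norm_mul, norm_pow, norm_mul, (red_ne_zero _).1 hs, (red_ne_zero _).1 hv, mul_one, one_pow,
            mul_one, norm_mul, PadicInt.norm_p_pow] at h9
          rw [h9]
          exact mul_le_of_le_one_right (by positivity) (norm_le_one _)
        rw [PadicInt.norm_int_le_pow_iff_dvd] at h8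
        exact h3 (by exact_mod_cast h8)
      have hr : toZMod r' ≠ 0 := by
        intro hr
        refine hboth ⟨hr, ?_⟩
        rw [hr] at h6
        by_contra hu
        refine mul_ne_zero (mul_ne_zero hm0 (pow_ne_zero 2 hs)) (pow_ne_zero 2 hu) ?_
        linear_combination -h6
      have hu : toZMod u' ≠ 0 := by
        intro hu
        refine hboth ⟨?_, hu⟩
        rw [hu] at h6
        by_contra hr
        refine mul_ne_zero (mul_ne_zero hn0 (pow_ne_zero 2 hr)) (pow_ne_zero 2 hv) ?_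
        linear_combination -h6
      have hFz : toZMod (r' ^ 2 - (m : ℤ_[q]) * s' ^ 2) = toZMod r' ^ 2 - (m : ZMod q) * toZMod s' ^ 2 := by
        simp only [map_mul, map_sub, map_pow, map_intCast]
      have h7 : (toZMod r' ^ 2 - (m : ZMod q) * toZMod s' ^ 2) * toZMod u' ^ 2 = n * toZMod r' ^ 2 * toZMod v' ^ 2 := by
        linear_combination h6
      have h8 : toZMod r' ^ 2 - (m : ZMod q) * toZMod s' ^ 2 ≠ 0 := by
        intro h8
        rw [h8, zero_mul] at h7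
        exact mul_ne_zero (mul_ne_zero hn0 (pow_ne_zero 2 hr)) (pow_ne_zero 2 hv) h7.symm
      have hF : (r' : ℚ_[q]) ^ 2 - m * (s' : ℚ_[q]) ^ 2 ≠ 0 := by
        rw [← hcast]
        intro h
        have h5 : (r' ^ 2 - (m : ℤ_[q]) * s' ^ 2 : ℤ_[q]) = 0 := Subtype.ext h
        rw [h5, map_zero] at hFz
        exact h8 hFz.symm
      rw [val_pos hF, ← hcast] at hc0
      have h9 := sq_red hy hc0
      rw [hFz] at h9
      obtain ⟨z, hz⟩ := h9
      apply hNR'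
      refine ⟨z * toZMod u' / (toZMod r' * toZMod v'), ?_⟩
      field_simp
      linear_combination (toZMod u' ^ 2) * hz - (d : ZMod q) * h7

end Pool.Agent.H82.ST
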