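import Pool.Agent.H82.ST.Up
import Pool.Agent.H82.ST.Loc
import Pool.Agent.W313.BMX.Final

/-!
# Orthogonal adelic points of `(r² - m s²)(u² - n v²) = k s² v²`
-/

set_option autoImplicit false

namespace Pool.Agent.H82.ST

open Pool.Agent.H14Q Pool.Agent.W313.BMX

/-- a point of the curve `(X² - m)(Y² - n) = k`, `X = r / s`, `Y = u / v` -/
structure Quad (m n k : ℤ) (F : Type) [Field F] where
  r : F
  s : F
  u : F
  v : F
  hrs : r ≠ 0 ∨ s ≠ 0
  huv : u ≠ 0 ∨ v ≠ 0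
  eq : (r ^ 2 - m * s ^ 2) * (u ^ 2 - n * v ^ 2) = k * s ^ 2 * v ^ 2

/-- the value -/
noncomputable def Quad.val {m n k : ℤ} {F : Type} [Field F] (P : Quad m n k F) : F :=
  Pool.Agent.H82.ST.val m n k P.r P.s P.u P.v

theorem norm_parity {p : ℕ} [hp : Fact p.Prime] {m : ℤ} (hm : ¬ (p : ℤ) ∣ m) {c c' : ℚ_[p]} (hc' : c' ≠ 0)
    (h : ‖((p : ℕ) : ℚ_[p]) * m * c ^ 2‖ = ‖c'‖ ^ 2) : False := by
  have hc : c ≠ 0 := by
    rintro rfl
    have h0 : ‖c'‖ ≠ 0 := norm_ne_zero_iff.2 hc'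
    apply pow_ne_zero 2 h0
    rw [← h]
    simp
  have hmn : ‖(m : ℚ_[p])‖ = 1 := by
    refine le_antisymm (Padic.norm_int_le_one m) (not_lt.1 fun h => hm ?_)
    refine (PadicInt.norm_int_lt_one_iff_dvd m).1 ?_
    rw [PadicInt.norm_def]
    push_cast
    exact h
  rw [norm_mul, norm_mul, hmn, mul_one, norm_pow, Padic.norm_p, Padic.norm_eq_zpow_neg_valuation hc,
    Padic.norm_eq_zpow_neg_valuation hc'] at h
  have hp1 : (1 : ℝ) < p := by exact_mod_cast hp.out.one_lt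
  have hp0 : (p : ℝ) ≠ 0 := by positivity
  have h2 : (p : ℝ) ^ (-1 + 2 * (-c.valuation)) = (p : ℝ) ^ (2 * (-c'.valuation)) := by
    rw [zpow_add₀ hp0, zpow_neg_one, mul_comm 2 (-c.valuation), zpow_mul, mul_comm 2 (-c'.valuation), zpow_mul]
    exact_mod_cast h
  have h3 := zpow_right_injective₀ (by linarith) hp1.ne' h2
  omega

theorem dvd_of_primes {d k : ℤ} (hd : Squarefree d) (hk : k ≠ 0)
    (h : ∀ p : ℕ, p.Prime → (p : ℤ) ∣ d → (p : ℤ) ∣ k) : d ∣ k := by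
  rw [← Int.natAbs_dvd_natAbs]
  have hd' : Squarefree d.natAbs := Int.squarefree_natAbs.2 hd
  rw [← Nat.prod_primeFactors_of_squarefree hd']
  refine dvd_trans ?_ (Nat.prod_primeFactors_dvd k.natAbs)
  refine Finset.prod_dvd_prod_of_subset _ _ _ ?_
  intro p hp
  rw [Nat.mem_primeFactors] at hp ⊢
  refine ⟨hp.1, ?_, Int.natAbs_ne_zero.2 hk⟩
  have h1 := h p hp.1 (Int.natCast_dvd.2 hp.2.1)
  exact Int.natCast_dvd.1 h1

/-- the value is a unit up to squares at the primes which do not divide `k` -/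
theorem val_rep {p : ℕ} [hp : Fact p.Prime] {m n k : ℤ} (hk0 : k ≠ 0) (hpk : ¬ (p : ℤ) ∣ k) (P : Quad m n k ℚ_[p]) :
    ∃ (a : ℤ) (c : ℚ_[p]), ¬ (p : ℤ) ∣ a ∧ c ≠ 0 ∧ P.val = a * c ^ 2 := by
  have h0 : P.val ≠ 0 := val_ne hk0 P.hrs P.huv P.eq
  obtain ⟨t, a, c, ht, ha, hc, h1⟩ := Pool.Agent.W310.BMX.odd4 p P.val h0
  obtain ⟨c', hc', h2⟩ := val_even hpk P.hrs P.huv P.eq
  rcases Nat.le_one_iff_eq_zero_or_eq_one.1 ht with rfl | rfl
  · refine ⟨a, c, ha, hc, ?_⟩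
    rw [h1]
    push_cast
    ring
  · exfalso
    refine norm_parity ha hc' (c := c) ?_
    rw [← h2]
    change _ = ‖P.val‖
    rw [h1]
    push_cast
    ring_nf

/-- **no adelic point is orthogonal** -/
theorem glob {m n k : ℤ} (hG : Good m n k) (R : Quad m n k ℝ) (P : ∀ p : Nat.Primes, Quad m n k ℚ_[(p : ℕ)])
    (ho : ∀ e : ℤ, e ≠ 0 → Even (ram ⟨R.val, fun p => (P p).val⟩ e).ncard) : False := by
  obtain ⟨hk, hg⟩ := hG
  obtain ⟨d, hd, hre, hpa⟩ := hexact ⟨R.val, fun p => (P p).val⟩ (val_ne hk R.hrs R.huv R.eq)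
    (fun p => val_ne hk (P p).hrs (P p).huv (P p).eq)
    (by
      have h1 : {p : Nat.Primes | (p : ℕ) ∣ k.natAbs}.Finite := by
        have h2 : {p : Nat.Primes | (p : ℕ) ≤ k.natAbs}.Finite := by
          have h3 : (Set.Iic k.natAbs).Finite := Set.finite_Iic _
          exact h3.preimage (Subtype.val_injective.injOn)
        exact h2.subset fun p hp => Nat.le_of_dvd (Int.natAbs_pos.2 hk) hp
      apply h1.subset
      intro p hp
      by_contra hpk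
      have hpk' : ¬ ((p : ℕ) : ℤ) ∣ k := fun h => hpk (Int.natCast_dvd.1 h)
      obtain ⟨a, c, ha, -, h⟩ := val_rep hk hpk' (P p)
      exact hp a c ha h)
    (by
      intro e he _
      apply ho e
      rcases he with rfl | rfl | ⟨h1, h2⟩
      · norm_num
      · norm_num
      · rintro rfl
        norm_num at h2)
  have hdk : d ∣ k := by
    refine dvd_of_primes hd hk fun p hp hpd => ?_
    by_contra hpk
    have : Fact p.Prime := ⟨hp⟩
    obtain ⟨a, c, ha, hc, h⟩ := val_rep hk hpk (P ⟨p, hp⟩)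
    obtain ⟨z, hz⟩ := hpa ⟨p, hp⟩
    change (P ⟨p, hp⟩).val * (d : ℚ_[p]) = z * z at hz
    rw [h] at hz
    obtain ⟨d', rfl⟩ := hpd
    have hd' : ¬ (p : ℤ) ∣ d' := by
      rintro ⟨d'', rfl⟩
      have h1 : (p : ℤ) * p ∣ p * (p * d'') := ⟨d'', by ring⟩
      have h2 := hd _ h1
      rw [Int.isUnit_iff] at h2
      have := hp.two_le
      omega
    have had : ¬ (p : ℤ) ∣ a * d' := by
      intro h1
      rcases (Nat.prime_iff_prime_int.1 hp).dvd_or_dvd h1 with h2 | h2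
      · exact ha h2
      · exact hd' h2
    have hz0 : z ≠ 0 := by
      rintro rfl
      have hd0 : ((p : ℤ) * d' : ℤ) ≠ 0 := hd.ne_zero
      have hd1 : (((p : ℤ) * d' : ℤ) : ℚ_[p]) ≠ 0 := Int.cast_ne_zero.2 hd0
      have ha0 : (a : ℚ_[p]) ≠ 0 := Int.cast_ne_zero.2 (by rintro rfl; exact ha (dvd_zero _))
      exact mul_ne_zero (mul_ne_zero ha0 (pow_ne_zero 2 hc)) hd1 (by rw [hz]; ring)
    refine norm_parity had hz0 (c := c) ?_
    rw [← norm_pow]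
    congr 1
    rw [pow_two z, ← hz]
    push_cast
    ring
  obtain ⟨q, hq, -, hqk, h1, h2, h3⟩ := hg d hdk
  have : Fact q.Prime := ⟨hq⟩
  exact loc_q hqk h1 h2 h3 (P ⟨q, hq⟩).hrs (P ⟨q, hq⟩).huv (P ⟨q, hq⟩).eq (hpa ⟨q, hq⟩)

end Pool.Agent.H82.ST
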