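import Pool.Agent.H82.ST.L2

/-!
# Orthogonal adelic points of `(A² - m B)(C² - n D) = k`
-/

set_option autoImplicit false

namespace Pool.Agent.H82.ST

open Polynomial Pool.Agent.H14Q Pool.Agent.W313.BMX

/-- there are the primes which are needed -/
def Good2 (N m n k : ℤ) : Prop := k ≠ 0 ∧ N ≠ 0 ∧
  (∀ g : ℤ, g ∣ k * N → ¬ IsSquare g → ∃ q : ℕ, q.Prime ∧ q ≠ 2 ∧ ¬ (q : ℤ) ∣ k * N ∧
    (q : ℤ) ∣ m ∧ ¬ (q : ℤ) ^ 2 ∣ m ∧ NR q g) ∧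
  ∃ q : ℕ, q.Prime ∧ q ≠ 2 ∧ ¬ (q : ℤ) ∣ k * N ∧ (q : ℤ) ∣ n ∧ ¬ (q : ℤ) ^ 2 ∣ n ∧ NR q k

/-- the polynomials are admissible -/
def Adm (N : ℤ) (A B C D : ℤ[X]) : Prop :=
  B.natDegree < 2 * A.natDegree ∧ D.natDegree < 2 * C.natDegree ∧
  ∀ (q : ℕ) [Fact q.Prime], ¬ (q : ℤ) ∣ N → ¬ (q : ℤ) ∣ A.leadingCoeff ∧ ¬ (q : ℤ) ∣ C.leadingCoeff ∧
    (∀ t : ZMod q, aeval t A = 0 → aeval t B ≠ 0) ∧ (∀ t : ZMod q, aeval t C = 0 → aeval t D ≠ 0)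

theorem rep_of_norm {p : ℕ} [hp : Fact p.Prime] {x c' : ℚ_[p]} (h0 : x ≠ 0) (hc' : c' ≠ 0) (h2 : ‖x‖ = ‖c'‖ ^ 2) :
    ∃ (a : ℤ) (c : ℚ_[p]), ¬ (p : ℤ) ∣ a ∧ c ≠ 0 ∧ x = a * c ^ 2 := by
  obtain ⟨t, a, c, ht, ha, hc, h1⟩ := Pool.Agent.W310.BMX.odd4 p x h0
  rcases Nat.le_one_iff_eq_zero_or_eq_one.1 ht with rfl | rfl
  · refine ⟨a, c, ha, hc, ?_⟩
    rw [h1]
    push_cast
    ring
  · exfalso
    refine norm_parity ha hc' (c := c) ?_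
    rw [← h2, h1]
    push_cast
    ring_nf

section loc

variable {p : ℕ} [hp : Fact p.Prime] {A B C D : ℤ[X]} {N m n k : ℤ}

theorem norm_le (x : ℤ_[p]) : ‖(x : ℚ_[p])‖ ≤ 1 := by
  rw [← PadicInt.norm_def]
  exact PadicInt.norm_le_one x

theorem Pt.rep (hk : k ≠ 0) (hA : Adm N A B C D) (hpk : ¬ (p : ℤ) ∣ k * N) (P : Pt A B C D m n k ℚ_[p]) :
    ∃ (a : ℤ) (c : ℚ_[p]), ¬ (p : ℤ) ∣ a ∧ c ≠ 0 ∧ P.val = a * c ^ 2 := by
  obtain ⟨hb, hd, hq⟩ := hA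
  have hpk' : ¬ (p : ℤ) ∣ k := fun h => hpk (h.mul_right _)
  have hpN : ¬ (p : ℤ) ∣ N := fun h => hpk (h.mul_left _)
  obtain ⟨hlA, hlC, -, -⟩ := hq p hpN
  obtain ⟨x, w, y, z, r, hxw, hyz, hr, he, hv⟩ := P.prim hb hd
  obtain ⟨c, hc, h⟩ := ab_even hpk' he (norm_le _) (norm_le _)
    (by
      rw [← PadicInt.norm_def, ← PadicInt.norm_def]
      exact factor_local hb m hlA hxw)
    (by
      rw [← PadicInt.norm_def, ← PadicInt.norm_def]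
      exact factor_local hd n hlC hyz)
  refine rep_of_norm (P.val_ne hk hb hd) (mul_ne_zero hr hc) ?_
  rw [hv, norm_mul, norm_pow, h, norm_mul, mul_pow]

theorem ram_coe {A B : ℤ[X]} {m : ℤ} {x w : ℤ_[p]}
    (h : (∃ e : ℤ_[p], ‖e‖ = 1 ∧ FF A B m x w = e ^ 2) ∨ (‖w ^ A.natDegree‖ = 1 ∧ ‖FF A B m x w‖ = (p : ℝ)⁻¹)) :
    (∃ e : ℚ_[p], ‖e‖ = 1 ∧ ((FF A B m x w : ℤ_[p]) : ℚ_[p]) = e ^ 2) ∨
      (‖((w ^ A.natDegree : ℤ_[p]) : ℚ_[p])‖ = 1 ∧ ‖((FF A B m x w : ℤ_[p]) : ℚ_[p])‖ = (p : ℝ)⁻¹) := by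
  rcases h with ⟨e, he, h⟩ | ⟨h1, h2⟩
  · left
    refine ⟨(e : ℚ_[p]), by rw [← PadicInt.norm_def]; exact he, ?_⟩
    rw [h]
    push_cast
    rfl
  · right
    rw [← PadicInt.norm_def, ← PadicInt.norm_def]
    exact ⟨h1, h2⟩

theorem Pt.first (hp2 : p ≠ 2) (hA : Adm N A B C D) (hpk : ¬ (p : ℤ) ∣ k * N) (hm : (p : ℤ) ∣ m)
    (hm2 : ¬ (p : ℤ) ^ 2 ∣ m) (P : Pt A B C D m n k ℚ_[p]) :
    ∃ c : ℚ_[p], c ≠ 0 ∧ P.val = c ^ 2 := by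
  obtain ⟨hb, hd, hq⟩ := hA
  have hpk' : ¬ (p : ℤ) ∣ k := fun h => hpk (h.mul_right _)
  have hpN : ¬ (p : ℤ) ∣ N := fun h => hpk (h.mul_left _)
  obtain ⟨hlA, hlC, hAB, -⟩ := hq p hpN
  obtain ⟨x, w, y, z, r, hxw, hyz, hr, he, hv⟩ := P.prim hb hd
  obtain ⟨c, hc, h⟩ := ab_first hpk' he (norm_le _) (ram_coe (factor_ram hp2 hb hlA hm hm2 hAB hxw))
    (by
      rw [← PadicInt.norm_def, ← PadicInt.norm_def]
      exact factor_local hd n hlC hyz)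
  refine ⟨r * c, mul_ne_zero hr hc, ?_⟩
  rw [hv, h]
  ring

theorem Pt.second (hp2 : p ≠ 2) (hA : Adm N A B C D) (hpk : ¬ (p : ℤ) ∣ k * N) (hn : (p : ℤ) ∣ n)
    (hn2 : ¬ (p : ℤ) ^ 2 ∣ n) (P : Pt A B C D m n k ℚ_[p]) :
    ∃ c : ℚ_[p], c ≠ 0 ∧ P.val = k * c ^ 2 := by
  obtain ⟨hb, hd, hq⟩ := hA
  have hpk' : ¬ (p : ℤ) ∣ k := fun h => hpk (h.mul_right _)
  have hpN : ¬ (p : ℤ) ∣ N := fun h => hpk (h.mul_left _)
  obtain ⟨hlA, hlC, -, hCD⟩ := hq p hpN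
  obtain ⟨x, w, y, z, r, hxw, hyz, hr, he, hv⟩ := P.prim hb hd
  obtain ⟨c, hc, h⟩ := ab_second hpk' he (norm_le _)
    (by
      rw [← PadicInt.norm_def, ← PadicInt.norm_def]
      exact factor_local hb m hlA hxw)
    (ram_coe (factor_ram hp2 hd hlC hn hn2 hCD hyz))
  refine ⟨r * c, mul_ne_zero hr hc, ?_⟩
  rw [hv, h]
  ring

/-- a square in `ℚ_p` is a square modulo `p` -/
theorem nr_false {g : ℤ} (hg : NR p g) {c z : ℚ_[p]} (hc : c ≠ 0) (h : (g : ℚ_[p]) * c ^ 2 = z * z) : False := by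
  apply hg
  have h1 : ((1 : ℤ_[p]) : ℚ_[p]) * c ^ 2 * g = z ^ 2 := by
    push_cast
    rw [one_mul, pow_two z, ← h]
    ring
  have h2 := sq_red hc h1
  rwa [map_one, one_mul] at h2

end loc

/-- **no adelic point is orthogonal** -/
theorem glob2 {A B C D : ℤ[X]} {N m n k : ℤ} (hG : Good2 N m n k) (hA : Adm N A B C D) (R : Pt A B C D m n k ℝ)
    (P : ∀ p : Nat.Primes, Pt A B C D m n k ℚ_[(p : ℕ)])
    (ho : ∀ e : ℤ, e ≠ 0 → Even (ram ⟨R.val, fun p => (P p).val⟩ e).ncard) : False := by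
  obtain ⟨hk, hN, hg, hn⟩ := hG
  have hkN : k * N ≠ 0 := mul_ne_zero hk hN
  obtain ⟨d, hd, hre, hpa⟩ := hexact ⟨R.val, fun p => (P p).val⟩ (R.val_ne hk hA.1 hA.2.1)
    (fun p => (P p).val_ne hk hA.1 hA.2.1)
    (by
      have h1 : {p : Nat.Primes | (p : ℕ) ∣ (k * N).natAbs}.Finite := by
        have h2 : {p : Nat.Primes | (p : ℕ) ≤ (k * N).natAbs}.Finite := by
          have h3 : (Set.Iic (k * N).natAbs).Finite := Set.finite_Iic _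
          exact h3.preimage (Subtype.val_injective.injOn)
        exact h2.subset fun p hp => Nat.le_of_dvd (Int.natAbs_pos.2 hkN) hp
      apply h1.subset
      intro p hp
      by_contra hpk
      have hpk' : ¬ ((p : ℕ) : ℤ) ∣ k * N := fun h => hpk (Int.natCast_dvd.1 h)
      obtain ⟨a, c, ha, -, h⟩ := (P p).rep hk hA hpk'
      exact hp a c ha h)
    (by
      intro e he _
      apply ho e
      rcases he with rfl | rfl | ⟨h1, h2⟩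
      · norm_num
      · norm_num
      · rintro rfl
        norm_num at h2)
  have hdk : d ∣ k * N := by
    refine dvd_of_primes hd hkN fun p hp hpd => ?_
    by_contra hpk
    have : Fact p.Prime := ⟨hp⟩
    obtain ⟨a, c, ha, hc, h⟩ := (P ⟨p, hp⟩).rep hk hA hpk
    obtain ⟨z, hz⟩ := hpa ⟨p, hp⟩
    change (P ⟨p, hp⟩).val * (d : ℚ_[p]) = z * z at hz
    rw [h] at hz
    obtain ⟨d', rfl⟩ := hpd
    have hd' : ¬ (p : ℤ) ∣ d' := by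
      rintro ⟨d'', rfl⟩
      have h1 : (p : ℤ) * p ∣ p * (p * d'') := ⟨d'', by ring⟩
      have h2 := hd _ h1
      rw [Int.isUnit_iff] at h2
      have := hp.two_le
      omega
    have had : ¬ (p : ℤ) ∣ a * d' := by
      intro h1
      rcases (Nat.prime_iff_prime_int.1 hp).dvd_or_dvd h1 with h2 | h2
      · exact ha h2
      · exact hd' h2
    have hz0 : z ≠ 0 := by
      rintro rfl
      have hd0 : ((p : ℤ) * d' : ℤ) ≠ 0 := hd.ne_zero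
      have hd1 : (((p : ℤ) * d' : ℤ) : ℚ_[p]) ≠ 0 := Int.cast_ne_zero.2 hd0
      have ha0 : (a : ℚ_[p]) ≠ 0 := Int.cast_ne_zero.2 (by rintro rfl; exact ha (dvd_zero _))
      exact mul_ne_zero (mul_ne_zero ha0 (pow_ne_zero 2 hc)) hd1 (by rw [hz]; ring)
    refine norm_parity had hz0 (c := c) ?_
    rw [← norm_pow]
    congr 1
    rw [pow_two z, ← hz]
    push_cast
    ring
  by_cases hsq : IsSquare d
  · -- `d = 1`
    have hd1 : d = 1 := by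
      obtain ⟨e, he⟩ := hsq
      have h1 : IsUnit e := hd e ⟨1, by rw [he]; ring⟩
      rw [he]
      rcases Int.isUnit_iff.1 h1 with h | h <;> rw [h] <;> norm_num
    obtain ⟨q, hq, hq2, hqk, h1, h2, h3⟩ := hn
    have : Fact q.Prime := ⟨hq⟩
    obtain ⟨c, hc, h⟩ := (P ⟨q, hq⟩).second hq2 hA hqk h1 h2
    obtain ⟨z, hz⟩ := hpa ⟨q, hq⟩
    change (P ⟨q, hq⟩).val * (d : ℚ_[q]) = z * z at hz
    rw [h, hd1] at hz
    push_cast at hz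
    rw [mul_one] at hz
    exact nr_false h3 hc hz
  · obtain ⟨q, hq, hq2, hqk, h1, h2, h3⟩ := hg d hdk hsq
    have : Fact q.Prime := ⟨hq⟩
    obtain ⟨c, hc, h⟩ := (P ⟨q, hq⟩).first hq2 hA hqk h1 h2
    obtain ⟨z, hz⟩ := hpa ⟨q, hq⟩
    change (P ⟨q, hq⟩).val * (d : ℚ_[q]) = z * z at hz
    rw [h, mul_comm] at hz
    exact nr_false h3 hc hz

end Pool.Agent.H82.ST
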