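import Pool.Agent.H82.ST.Fm
import Pool.Agent.H82.ST.Glob

/-!
# Local analysis of `f g = k s² v²`
-/

set_option autoImplicit false

namespace Pool.Agent.H82.ST

open Polynomial PadicInt Pool.Agent.H14Q

variable {q : ℕ} [hq : Fact q.Prime]

/-- the value -/
noncomputable def vl {F : Type} [Field F] (k : ℤ) (f g : F) : F := open Classical in if f ≠ 0 then f else k * g

theorem vl_pos {F : Type} [Field F] {k : ℤ} {f g : F} (h : f ≠ 0) : vl k f g = f := by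
  unfold vl
  exact if_pos h

theorem vl_neg {F : Type} [Field F] {k : ℤ} {f g : F} (h : f = 0) : vl k f g = k * g := by
  unfold vl
  exact if_neg (not_not.2 h)

theorem norm_int {z : ℤ} (hz : ¬ (q : ℤ) ∣ z) : ‖(z : ℚ_[q])‖ = 1 := by
  refine le_antisymm (Padic.norm_int_le_one z) (not_lt.1 fun h => hz ?_)
  refine (PadicInt.norm_int_lt_one_iff_dvd z).1 ?_
  rw [PadicInt.norm_def]
  push_cast
  exact h

theorem parity2 {c : ℚ_[q]} (h : ‖c‖ ^ 2 = (q : ℝ)⁻¹) : False := by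
  have hc : c ≠ 0 := by
    rintro rfl
    rw [norm_zero, zero_pow two_ne_zero] at h
    have : (0 : ℝ) < (q : ℝ)⁻¹ := inv_pos.2 (by exact_mod_cast hq.out.pos)
    linarith
  rw [Padic.norm_eq_zpow_neg_valuation hc] at h
  have hp1 : (1 : ℝ) < q := by exact_mod_cast hq.out.one_lt
  have hp0 : (q : ℝ) ≠ 0 := by positivity
  have h2 : (q : ℝ) ^ (2 * (-c.valuation)) = (q : ℝ) ^ (-1 : ℤ) := by
    rw [zpow_neg_one, mul_comm 2 (-c.valuation), zpow_mul]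
    exact_mod_cast h
  have h3 := zpow_right_injective₀ (by linarith) hp1.ne' h2
  omega

/-- even valuation -/
theorem ab_even {k : ℤ} (hqk : ¬ (q : ℤ) ∣ k) {f s g v : ℚ_[q]} (heq : f * g = k * s ^ 2 * v ^ 2)
    (hf : ‖f‖ ≤ 1) (hg : ‖g‖ ≤ 1) (h1 : ‖s‖ = 1 ∨ ‖f‖ = 1) (h2 : ‖v‖ = 1 ∨ ‖g‖ = 1) :
    ∃ c : ℚ_[q], c ≠ 0 ∧ ‖vl k f g‖ = ‖c‖ ^ 2 := by
  have hkn := norm_int (q := q) hqk
  have hn : ‖f‖ * ‖g‖ = ‖s‖ ^ 2 * ‖v‖ ^ 2 := by
    rw [← norm_mul, heq, norm_mul, norm_mul, hkn, norm_pow, norm_pow]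
    ring
  by_cases hf0 : f = 0
  · rw [vl_neg hf0]
    rw [hf0, norm_zero] at h1 hn
    have hs : ‖s‖ = 1 := by
      rcases h1 with h | h
      · exact h
      · exact absurd h zero_ne_one
    rw [hs, zero_mul, one_pow, one_mul] at hn
    have hv : ‖v‖ = 0 := by
      have := hn.symm
      exact pow_eq_zero_iff two_ne_zero |>.1 this
    rw [hv] at h2
    have hg1 : ‖g‖ = 1 := by
      rcases h2 with h | h
      · exact absurd h zero_ne_one
      · exact h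
    exact ⟨1, one_ne_zero, by rw [norm_mul, hkn, hg1, norm_one]; norm_num⟩
  · rw [vl_pos hf0]
    by_cases hf1 : ‖f‖ = 1
    · exact ⟨1, one_ne_zero, by rw [hf1, norm_one]; norm_num⟩
    · have hs : ‖s‖ = 1 := by
        rcases h1 with h | h
        · exact h
        · exact absurd h hf1
      rw [hs, one_pow, one_mul] at hn
      rcases h2 with h | h
      · exfalso
        rw [h, one_pow] at hn
        apply hf1
        have h3 := norm_nonneg f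
        nlinarith
      · rw [h, mul_one] at hn
        refine ⟨v, ?_, hn⟩
        rintro rfl
        rw [norm_zero, zero_pow two_ne_zero] at hn
        exact hf0 (norm_eq_zero.1 hn)

/-- the first factor is ramified -/
theorem ab_first {k : ℤ} (hqk : ¬ (q : ℤ) ∣ k) {f s g v : ℚ_[q]} (heq : f * g = k * s ^ 2 * v ^ 2)
    (hg : ‖g‖ ≤ 1) (h1 : (∃ e : ℚ_[q], ‖e‖ = 1 ∧ f = e ^ 2) ∨ (‖s‖ = 1 ∧ ‖f‖ = (q : ℝ)⁻¹))
    (h2 : ‖v‖ = 1 ∨ ‖g‖ = 1) :
    ∃ c : ℚ_[q], c ≠ 0 ∧ vl k f g = c ^ 2 := by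
  have hkn := norm_int (q := q) hqk
  have hn : ‖f‖ * ‖g‖ = ‖s‖ ^ 2 * ‖v‖ ^ 2 := by
    rw [← norm_mul, heq, norm_mul, norm_mul, hkn, norm_pow, norm_pow]
    ring
  rcases h1 with ⟨e, he, hfe⟩ | ⟨hs, hf⟩
  · have he0 : e ≠ 0 := norm_ne_zero_iff.1 (by rw [he]; exact one_ne_zero)
    have hf0 : f ≠ 0 := by rw [hfe]; exact pow_ne_zero 2 he0
    exact ⟨e, he0, by rw [vl_pos hf0, hfe]⟩
  · exfalso
    have hp1 : (1 : ℝ) < q := by exact_mod_cast hq.out.one_lt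
    have hqi : (q : ℝ)⁻¹ < 1 := inv_lt_one_of_one_lt₀ hp1
    have hqi0 : 0 < (q : ℝ)⁻¹ := by positivity
    rw [hs, hf, one_pow, one_mul] at hn
    rcases h2 with h | h
    · rw [h, one_pow] at hn
      nlinarith
    · rw [h, mul_one] at hn
      exact parity2 hn.symm

/-- the second factor is ramified -/
theorem ab_second {k : ℤ} (hqk : ¬ (q : ℤ) ∣ k) {f s g v : ℚ_[q]} (heq : f * g = k * s ^ 2 * v ^ 2)
    (hf : ‖f‖ ≤ 1) (h1 : ‖s‖ = 1 ∨ ‖f‖ = 1)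
    (h2 : (∃ e : ℚ_[q], ‖e‖ = 1 ∧ g = e ^ 2) ∨ (‖v‖ = 1 ∧ ‖g‖ = (q : ℝ)⁻¹)) :
    ∃ c : ℚ_[q], c ≠ 0 ∧ vl k f g = k * c ^ 2 := by
  have hkn := norm_int (q := q) hqk
  have hn : ‖f‖ * ‖g‖ = ‖s‖ ^ 2 * ‖v‖ ^ 2 := by
    rw [← norm_mul, heq, norm_mul, norm_mul, hkn, norm_pow, norm_pow]
    ring
  rcases h2 with ⟨e, he, hge⟩ | ⟨hv, hg⟩
  · have he0 : e ≠ 0 := norm_ne_zero_iff.1 (by rw [he]; exact one_ne_zero)
    by_cases hf0 : f = 0
    · exact ⟨e, he0, by rw [vl_neg hf0, hge]⟩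
    · rw [vl_pos hf0]
      refine ⟨s * v / e, ?_, ?_⟩
      · intro h0
        rw [div_eq_zero_iff] at h0
        rcases h0 with h0 | h0
        · apply hf0
          have h3 : f * e ^ 2 = k * (s * v) ^ 2 := by rw [← hge, heq]; ring
          rw [h0, zero_pow two_ne_zero, mul_zero] at h3
          exact (mul_eq_zero.1 h3).resolve_right (pow_ne_zero 2 he0)
        · exact he0 h0
      · rw [hge] at heq
        field_simp
        linear_combination heq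
  · exfalso
    have hp1 : (1 : ℝ) < q := by exact_mod_cast hq.out.one_lt
    have hqi : (q : ℝ)⁻¹ < 1 := inv_lt_one_of_one_lt₀ hp1
    have hqi0 : 0 < (q : ℝ)⁻¹ := by positivity
    rw [hv, hg, one_pow, mul_one] at hn
    rcases h1 with h | h
    · rw [h, one_pow] at hn
      nlinarith
    · rw [h, one_mul] at hn
      exact parity2 hn.symm

/-- a point of `(A² - m B)(C² - n D) = k` -/
structure Pt (A B C D : ℤ[X]) (m n k : ℤ) (F : Type) [Field F] where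
  x : F
  w : F
  y : F
  z : F
  hxw : x ≠ 0 ∨ w ≠ 0
  hyz : y ≠ 0 ∨ z ≠ 0
  eq : FF A B m x w * FF C D n y z = k * w ^ (2 * A.natDegree) * z ^ (2 * C.natDegree)

/-- the value at a point -/
noncomputable def Pt.val {A B C D : ℤ[X]} {m n k : ℤ} {F : Type} [Field F] (P : Pt A B C D m n k F) : F :=
  vl k (FF A B m P.x P.w) (FF C D n P.y P.z)

theorem FF_inf_ne {F : Type} [Field F] [CharZero F] {A B : ℤ[X]} (hb : B.natDegree < 2 * A.natDegree) (m : ℤ)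
    {x : F} (hx : x ≠ 0) : FF A B m x 0 ≠ 0 := by
  unfold FF
  rw [zero_pow (by omega), mul_zero, zero_mul, sub_zero, fm_zero]
  refine pow_ne_zero _ (mul_ne_zero (Int.cast_ne_zero.2 (leadingCoeff_ne_zero.2 ?_)) (pow_ne_zero _ hx))
  rintro rfl
  rw [natDegree_zero] at hb
  omega

theorem Pt.val_ne {A B C D : ℤ[X]} {m n k : ℤ} {F : Type} [Field F] [CharZero F] (hk : k ≠ 0)
    (hb : B.natDegree < 2 * A.natDegree) (hd : D.natDegree < 2 * C.natDegree) (P : Pt A B C D m n k F) :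
    P.val ≠ 0 := by
  unfold Pt.val
  by_cases hf : FF A B m P.x P.w = 0
  · rw [vl_neg hf]
    have hw : P.w ≠ 0 := by
      intro hw
      have hx : P.x ≠ 0 := by
        rcases P.hxw with h | h
        · exact h
        · exact absurd hw h
      rw [hw] at hf
      exact FF_inf_ne hb m hx hf
    have h1 := P.eq
    rw [hf, zero_mul] at h1
    have hkF : (k : F) ≠ 0 := Int.cast_ne_zero.2 hk
    have hz : P.z = 0 := by
      have h2 := (mul_eq_zero.1 h1.symm).resolve_left (mul_ne_zero hkF (pow_ne_zero _ hw))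
      exact (pow_eq_zero_iff (by omega)).1 h2
    have hy : P.y ≠ 0 := by
      rcases P.hyz with h | h
      · exact h
      · exact absurd hz h
    rw [hz]
    exact mul_ne_zero hkF (FF_inf_ne hd n hy)
  · rw [vl_pos hf]
    exact hf

theorem vl_scale {F : Type} [Field F] {k : ℤ} {f g c e : F} (hc : c ≠ 0) (he : e ≠ 0) (a b : ℕ) :
    ∃ r : F, r ≠ 0 ∧ vl k (c ^ (2 * a) * f) (e ^ (2 * b) * g) = r ^ 2 * vl k f g := by
  by_cases hf : f = 0
  · have h1 : c ^ (2 * a) * f = 0 := by rw [hf, mul_zero]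
    rw [vl_neg hf, vl_neg h1]
    refine ⟨e ^ b, pow_ne_zero _ he, ?_⟩
    rw [← pow_mul, mul_comm b 2]
    ring
  · have h1 : c ^ (2 * a) * f ≠ 0 := mul_ne_zero (pow_ne_zero _ hc) hf
    rw [vl_pos hf, vl_pos h1]
    refine ⟨c ^ a, pow_ne_zero _ hc, ?_⟩
    rw [← pow_mul, mul_comm a 2]

/-- integral coordinates -/
theorem Pt.prim {A B C D : ℤ[X]} {m n k : ℤ} (hb : B.natDegree < 2 * A.natDegree)
    (hd : D.natDegree < 2 * C.natDegree) (P : Pt A B C D m n k ℚ_[q]) :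
    ∃ (x w y z : ℤ_[q]) (r : ℚ_[q]), (toZMod x ≠ 0 ∨ toZMod w ≠ 0) ∧ (toZMod y ≠ 0 ∨ toZMod z ≠ 0) ∧ r ≠ 0 ∧
      ((FF A B m x w : ℤ_[q]) : ℚ_[q]) * ((FF C D n y z : ℤ_[q]) : ℚ_[q]) =
        k * ((w ^ A.natDegree : ℤ_[q]) : ℚ_[q]) ^ 2 * ((z ^ C.natDegree : ℤ_[q]) : ℚ_[q]) ^ 2 ∧
      P.val = r ^ 2 * vl k ((FF A B m x w : ℤ_[q]) : ℚ_[q]) ((FF C D n y z : ℤ_[q]) : ℚ_[q]) := by
  obtain ⟨c, x, w, hc, hx, hw, hxw⟩ := Pool.Agent.H82.ST.prim P.x P.w P.hxw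
  obtain ⟨e, y, z, he, hy, hz, hyz⟩ := Pool.Agent.H82.ST.prim P.y P.z P.hyz
  have hF : ((FF A B m x w : ℤ_[q]) : ℚ_[q]) = FF A B m (x : ℚ_[q]) (w : ℚ_[q]) :=
    FF_map (PadicInt.Coe.ringHom (p := q)) A B m x w
  have hG : ((FF C D n y z : ℤ_[q]) : ℚ_[q]) = FF C D n (y : ℚ_[q]) (z : ℚ_[q]) :=
    FF_map (PadicInt.Coe.ringHom (p := q)) C D n y z
  have h1 : FF A B m P.x P.w = c ^ (2 * A.natDegree) * FF A B m (x : ℚ_[q]) (w : ℚ_[q]) := by
    rw [hx, hw, FF_scale hb.le]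
  have h2 : FF C D n P.y P.z = e ^ (2 * C.natDegree) * FF C D n (y : ℚ_[q]) (z : ℚ_[q]) := by
    rw [hy, hz, FF_scale hd.le]
  obtain ⟨r, hr, hr2⟩ := vl_scale (k := k) (f := FF A B m (x : ℚ_[q]) (w : ℚ_[q]))
    (g := FF C D n (y : ℚ_[q]) (z : ℚ_[q])) hc he A.natDegree C.natDegree
  refine ⟨x, w, y, z, r, hxw, hyz, hr, ?_, ?_⟩
  · rw [hF, hG]
    have h3 := P.eq
    rw [h1, h2, hw, hz, mul_pow, mul_pow] at h3
    have hc' : c ^ (2 * A.natDegree) ≠ 0 := pow_ne_zero _ hc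
    have he' : e ^ (2 * C.natDegree) ≠ 0 := pow_ne_zero _ he
    have h4 : c ^ (2 * A.natDegree) * e ^ (2 * C.natDegree) *
        (FF A B m (x : ℚ_[q]) (w : ℚ_[q]) * FF C D n (y : ℚ_[q]) (z : ℚ_[q])) =
        c ^ (2 * A.natDegree) * e ^ (2 * C.natDegree) *
        (k * (w : ℚ_[q]) ^ (2 * A.natDegree) * (z : ℚ_[q]) ^ (2 * C.natDegree)) := by
      linear_combination h3
    have h5 := mul_left_cancel₀ (mul_ne_zero hc' he') h4
    rw [h5]
    push_cast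
    rw [← pow_mul, ← pow_mul, mul_comm A.natDegree 2, mul_comm C.natDegree 2]
  · unfold Pt.val
    rw [h1, h2, hr2, hF, hG]

end Pool.Agent.H82.ST
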