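import Pool.Agent.H82.ST.Local
import Pool.Agent.H14Q.Low1

/-!
# A positive proportion of the curves `(A(x)² - m)(y^{2b} - n) = k` has points everywhere locally
-/

set_option autoImplicit false

namespace Pool.Agent.H82.ST

open Finset Pool.Agent.H14Q

/-- everywhere locally soluble -/
def Els (A : Polynomial ℤ) (b : ℕ) (m n k : ℤ) : Prop :=
  Sol A b m n k ℝ ∧ ∀ (p : ℕ) [Fact p.Prime], Sol A b m n k ℚ_[p]

theorem els_prog2 {A : Polynomial ℤ} (hA : 1 ≤ A.natDegree) {b : ℕ} (hb : 1 ≤ b) {k : ℤ} (hk : k ≠ 0) :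
    ∃ M : ℕ, Even M ∧ 0 < M ∧ ∀ (H : ℕ) (p : ℕ × ℕ), p ∈ prog M 1 H → p.1.Coprime p.2 →
      Els A b (p.1 : ℤ) (p.2 : ℤ) k := by
  obtain ⟨P0, hP0⟩ := modp A hA hb hk
  set P := P0 + 2 * b with hP
  refine ⟨(2 * b) ^ 2 * P.factorial, ⟨2 * b ^ 2 * P.factorial, by ring⟩, ?_, ?_⟩
  · have := Nat.factorial_pos P
    positivity
  intro H p hp hc
  unfold prog at hp
  rw [mem_product, mem_filter, mem_Icc, mem_Icc] at hp
  obtain ⟨h1, h2, h3⟩ := hp
  refine ⟨sol_real hA hb (by exact_mod_cast h2.1), ?_⟩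
  intro q hq
  by_cases hqP : q ≤ P
  · refine sol_small hA hb ?_
    have h4 : ((2 * b) ^ 2 * q) ∣ (2 * b) ^ 2 * P.factorial :=
      mul_dvd_mul_left _ ((Nat.dvd_factorial hq.out.pos hqP))
    have h5 : (((2 * b) ^ 2 * P.factorial : ℕ) : ℤ) ∣ (p.2 : ℤ) - 1 := by
      have h6 : ((p.2 : ℕ) : ℤ) ≡ ((1 : ℕ) : ℤ) [ZMOD (((2 * b) ^ 2 * P.factorial : ℕ) : ℤ)] :=
        (Int.natCast_modEq_iff).2 h3
      have := h6.symm.dvd
      simpa using this
    refine dvd_trans ?_ h5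
    exact_mod_cast h4
  · push Not at hqP
    refine sol_large hb ?_ (hP0 q hq (by omega) (((p.1 : ℕ) : ℤ) : ZMod q) (((p.2 : ℕ) : ℤ) : ZMod q) ?_)
    · intro h4
      have := Nat.le_of_dvd (by omega) h4
      omega
    · by_contra h4
      push Not at h4
      obtain ⟨h5, h6⟩ := h4
      rw [ZMod.intCast_zmod_eq_zero_iff_dvd] at h5 h6
      have h7 : q ∣ Nat.gcd p.1 p.2 := Nat.dvd_gcd (by exact_mod_cast h5) (by exact_mod_cast h6)
      rw [hc] at h7
      exact hq.out.one_lt.ne' (Nat.dvd_one.1 h7)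

open Classical in
/-- **a positive proportion** -/
theorem low2 {A : Polynomial ℤ} (hA : 1 ≤ A.natDegree) {b : ℕ} (hb : 1 ≤ b) {k : ℤ} (hk : k ≠ 0) :
    ∃ c : ℝ, 0 < c ∧ ∃ H0 : ℕ, ∀ H : ℕ, H0 ≤ H → c * (H : ℝ) ^ 2 ≤
      (((box H).filter fun p => Els A b p.1 p.2 k ∧ p.1 * p.2 ≠ 0 ∧ p.1 * p.2 ≠ k).card : ℝ) := by
  obtain ⟨M, hM, hM0, hels⟩ := els_prog2 hA hb hk
  have hMr : (1 : ℝ) ≤ M := by exact_mod_cast hM0
  refine ⟨1 / (4 * M), by positivity, (20 * M) ^ 2, ?_⟩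
  intro H hH
  have hH1 : 1 ≤ H := le_trans (by nlinarith) hH
  have hHr : (1 : ℝ) ≤ H := by exact_mod_cast hH1
  have h1 := cop (M := M) (a := 1) (H := H) hM hM0 (Nat.coprime_one_left _) (by omega) hH1
  have hs : 20 * (M : ℝ) ≤ Real.sqrt H := by
    refine Real.le_sqrt_of_sq_le ?_
    exact_mod_cast hH
  have hs2 : Real.sqrt H * Real.sqrt H = H := Real.mul_self_sqrt (by linarith)
  have hs1 : 1 ≤ Real.sqrt H := by linarith
  have hlog := log_le_sqrt hH1
  have h2 : (H : ℝ) * (3 + Real.log H) ≤ (H : ℝ) ^ 2 / (4 * M) := by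
    rw [le_div_iff₀ (by positivity)]
    have h3 : (3 + Real.log H) * (4 * M) ≤ H := by
      have h4 : 3 + Real.log H ≤ 5 * Real.sqrt H := by linarith
      calc (3 + Real.log H) * (4 * M) ≤ (5 * Real.sqrt H) * (4 * M) :=
            mul_le_mul_of_nonneg_right h4 (by positivity)
        _ = (20 * M) * Real.sqrt H := by ring
        _ ≤ Real.sqrt H * Real.sqrt H := mul_le_mul_of_nonneg_right hs (by linarith)
        _ = H := hs2
    calc (H : ℝ) * (3 + Real.log H) * (4 * M) = H * ((3 + Real.log H) * (4 * M)) := by ring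
      _ ≤ H * H := mul_le_mul_of_nonneg_left h3 (by linarith)
      _ = (H : ℝ) ^ 2 := by ring
  set S := (prog M 1 H).filter fun p => p.1.Coprime p.2 with hS
  have hbad : (S.filter fun p => ((p.1 : ℤ) * p.2 = k)).card ≤ H := by
    have h3 : (S.filter fun p => ((p.1 : ℤ) * p.2 = k)).card ≤ (Icc 1 H).card := by
      refine Finset.card_le_card_of_injOn (fun p => p.1) ?_ ?_
      · intro p hp
        have := (mem_filter.1 (mem_filter.1 hp).1).1
        unfold prog at this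
        exact (mem_product.1 this).1
      · rintro ⟨m, n⟩ hp ⟨m', n'⟩ hp' h
        simp only at h
        subst h
        have e1 := (mem_filter.1 hp).2
        have e2 := (mem_filter.1 hp').2
        have e3 := (mem_filter.1 (mem_filter.1 hp).1).1
        unfold prog at e3
        have e4 := (mem_Icc.1 (mem_product.1 e3).1).1
        simp only at e1 e2 e4
        have e5 : (m : ℤ) ≠ 0 := by
          have : (0 : ℤ) < m := by exact_mod_cast e4
          exact this.ne'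
        have e6 : (n : ℤ) = n' := mul_left_cancel₀ e5 (e1.trans e2.symm)
        rw [Prod.mk.injEq]
        exact ⟨rfl, by exact_mod_cast e6⟩
    rwa [Nat.card_Icc, Nat.add_sub_cancel] at h3
  have hsplit : S.card = (S.filter fun p => ((p.1 : ℤ) * p.2 = k)).card +
      (S.filter fun p => ¬ ((p.1 : ℤ) * p.2 = k)).card :=
    (Finset.card_filter_add_card_filter_not _).symm
  have hinj : (S.filter fun p => ¬ ((p.1 : ℤ) * p.2 = k)).card ≤
      ((box H).filter fun p => Els A b p.1 p.2 k ∧ p.1 * p.2 ≠ 0 ∧ p.1 * p.2 ≠ k).card := by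
    refine Finset.card_le_card_of_injOn (fun p => ((p.1 : ℤ), (p.2 : ℤ))) ?_ ?_
    · intro p hp
      obtain ⟨h3, h4⟩ := mem_filter.1 (Finset.mem_coe.1 hp)
      obtain ⟨h5, h6⟩ := mem_filter.1 h3
      have h7 := hels H p h5 h6
      unfold prog at h5
      rw [mem_product, mem_filter, mem_Icc, mem_Icc] at h5
      rw [Finset.mem_coe, mem_filter, mem_box]
      refine ⟨⟨?_, ?_⟩, h7, ?_, h4⟩
      · rw [abs_of_nonneg (by positivity)]
        show ((p.1 : ℕ) : ℤ) ≤ H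
        exact_mod_cast h5.1.2
      · rw [abs_of_nonneg (by positivity)]
        show ((p.2 : ℕ) : ℤ) ≤ H
        exact_mod_cast h5.2.1.2
      · have e1 : (0 : ℤ) < p.1 := by exact_mod_cast h5.1.1
        have e2 : (0 : ℤ) < p.2 := by exact_mod_cast h5.2.1.1
        exact (mul_pos e1 e2).ne'
    · rintro ⟨m, n⟩ _ ⟨m', n'⟩ _ h
      rw [Prod.mk.injEq] at h ⊢
      exact ⟨by exact_mod_cast h.1, by exact_mod_cast h.2⟩
  have h3 : (S.card : ℝ) ≤ H + (((box H).filter fun p => Els A b p.1 p.2 k ∧ p.1 * p.2 ≠ 0 ∧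
      p.1 * p.2 ≠ k).card : ℝ) := by
    have : S.card ≤ H + ((box H).filter fun p => Els A b p.1 p.2 k ∧ p.1 * p.2 ≠ 0 ∧
      p.1 * p.2 ≠ k).card := by omega
    exact_mod_cast this
  have e : (H : ℝ) ^ 2 / (2 * M) = 2 * ((H : ℝ) ^ 2 / (4 * M)) := by
    field_simp
    norm_num
  rw [e] at h1
  have e2 : 1 / (4 * (M : ℝ)) * (H : ℝ) ^ 2 = (H : ℝ) ^ 2 / (4 * M) := by ring
  rw [e2]
  linarith

end Pool.Agent.H82.ST
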