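import Pool.Agent.H82.ST.ModP

/-!
# Points of `(A(x)² - m B(x))(y^{2b} - n) = k` modulo large primes
-/

set_option autoImplicit false

namespace Pool.Agent.H82.ST

open Polynomial

section fin

variable {F : Type} [Field F] [DecidableEq F]

omit [DecidableEq F] in
theorem sq_half (c : F) : c ^ 2 / 4 = (c / 2) ^ 2 := by
  rw [div_pow]
  norm_num

omit [DecidableEq F] in
theorem der_ne {A : F[X]} (ha : 1 ≤ A.natDegree) (hc : ((A.natDegree : ℕ) : F) ≠ 0) : derivative A ≠ 0 := by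
  intro h
  have h1 : (derivative A).coeff (A.natDegree - 1) = 0 := by rw [h, coeff_zero]
  rw [coeff_derivative, Nat.sub_add_cancel ha] at h1
  have h3 : ((A.natDegree - 1 : ℕ) : F) + 1 = ((A.natDegree : ℕ) : F) := by
    rw [← Nat.cast_succ, Nat.succ_eq_add_one, Nat.sub_add_cancel ha]
  rw [h3] at h1
  have h4 : A.coeff A.natDegree ≠ 0 := by
    have : A ≠ 0 := by
      rintro rfl
      rw [natDegree_zero] at ha
      omega
    exact leadingCoeff_ne_zero.2 this
  exact (mul_ne_zero h4 hc) h1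

/-- the Wronskian -/
noncomputable def wr (A B : F[X]) : F[X] := C 2 * derivative A * B - A * derivative B

omit [DecidableEq F] in
theorem wr_ne {A B : F[X]} (ha : 1 ≤ A.natDegree) (hc : ((A.natDegree : ℕ) : F) ≠ 0) (h2 : (2 : F) ≠ 0)
    (hcop : IsCoprime A B) : wr A B ≠ 0 := by
  intro h
  have h1 : A ∣ C 2 * derivative A * B := by
    unfold wr at h
    rw [sub_eq_zero.1 h]
    exact dvd_mul_right _ _
  have h3 : A ∣ C 2 * derivative A := hcop.dvd_of_dvd_mul_right h1
  have h4 : A ∣ derivative A := by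
    have h5 : C (2⁻¹ : F) * (C 2 * derivative A) = derivative A := by
      rw [← mul_assoc, ← C_mul, inv_mul_cancel₀ h2, C_1, one_mul]
    rw [← h5]
    exact h3.mul_left _
  have h5 := natDegree_le_of_dvd h4 (der_ne ha hc)
  have h6 : (derivative A).natDegree ≤ A.natDegree - 1 := natDegree_derivative_le A
  omega

omit [DecidableEq F] in
theorem wr_deg {A B : F[X]} : (wr A B).natDegree ≤ A.natDegree + B.natDegree := by
  unfold wr
  refine (natDegree_sub_le _ _).trans (max_le ?_ ?_)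
  · refine natDegree_mul_le.trans (Nat.add_le_add_right ?_ _)
    refine natDegree_mul_le.trans ?_
    rw [natDegree_C, zero_add]
    exact (natDegree_derivative_le A).trans (Nat.sub_le _ _)
  · refine natDegree_mul_le.trans (Nat.add_le_add_left ?_ _)
    exact (natDegree_derivative_le B).trans (Nat.sub_le _ _)

omit [DecidableEq F] in
/-- multiple factors divide the Wronskian -/
theorem mult_dvd {A B Q : F[X]} {m : F} (hm : m ≠ 0) (hcop : IsCoprime A B) (hQ : Irreducible Q)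
    (h : Q ^ 2 ∣ A ^ 2 - C m * B) : Q ∣ wr A B ∧ ¬ Q ∣ B := by
  have hf : Q ∣ A ^ 2 - C m * B := (dvd_pow_self Q two_ne_zero).trans h
  have hB : ¬ Q ∣ B := by
    intro hB
    have h1 : Q ∣ A ^ 2 := by
      have := dvd_add hf (hB.mul_left (C m))
      rwa [sub_add_cancel] at this
    have h3 : Q ∣ A := hQ.prime.dvd_of_dvd_pow h1
    exact hQ.not_isUnit (hcop.isUnit_of_dvd' h3 hB)
  refine ⟨?_, hB⟩
  have hA : ¬ Q ∣ A := by
    intro hA
    apply hB
    have h1 : Q ∣ C m * B := by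
      have := dvd_sub (hA.pow two_ne_zero) hf
      rwa [sub_sub_cancel] at this
    have h3 : C (m⁻¹ : F) * (C m * B) = B := by
      rw [← mul_assoc, ← C_mul, inv_mul_cancel₀ hm, C_1, one_mul]
    rw [← h3]
    exact h1.mul_left _
  have hd : Q ∣ derivative (A ^ 2 - C m * B) := by
    obtain ⟨g, hg⟩ := h
    rw [hg, derivative_mul, derivative_pow]
    refine dvd_add ?_ ?_
    · refine Dvd.dvd.mul_right ?_ _
      refine Dvd.dvd.mul_right ?_ _
      refine Dvd.dvd.mul_left ?_ _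
      simp
    · exact (dvd_pow_self Q two_ne_zero).mul_right _
  have h3 : A * wr A B = B * derivative (A ^ 2 - C m * B) - derivative B * (A ^ 2 - C m * B) := by
    unfold wr
    rw [derivative_sub, derivative_C_mul, derivative_pow]
    simp
    ring
  have h4 : Q ∣ A * wr A B := by
    rw [h3]
    exact dvd_sub (hd.mul_left _) (hf.mul_left _)
  exact (hQ.prime.dvd_or_dvd h4).resolve_left hA

omit [DecidableEq F] in
theorem fdeg {A B : F[X]} (hB : B.natDegree < 2 * A.natDegree) (m : F) :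
    (A ^ 2 - C m * B).natDegree = 2 * A.natDegree ∧ (A ^ 2 - C m * B).leadingCoeff = A.leadingCoeff ^ 2 := by
  have h1 : (A ^ 2).natDegree = 2 * A.natDegree := natDegree_pow _ _
  have h2 : (C m * B).natDegree < (A ^ 2).natDegree := by
    rw [h1]
    exact (natDegree_C_mul_le m B).trans_lt hB
  refine ⟨by rw [natDegree_sub_eq_left_of_natDegree_lt h2, h1], ?_⟩
  rw [leadingCoeff_sub_of_degree_lt, leadingCoeff_pow]
  exact degree_lt_degree h2

variable [Fintype F]

open Classical in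
/-- the residues to be avoided -/
noncomputable def badR (A B : F[X]) : Finset F :=
  Finset.univ.filter fun m => m = 0 ∨ ∀ Q : F[X], Irreducible Q → Q ∣ A ^ 2 - C m * B → Q ^ 2 ∣ A ^ 2 - C m * B

theorem badR_card {A B : F[X]} (ha : 1 ≤ A.natDegree) (hB : B.natDegree < 2 * A.natDegree)
    (hc : ((A.natDegree : ℕ) : F) ≠ 0) (h2 : (2 : F) ≠ 0) (hcop : IsCoprime A B) :
    (badR A B).card ≤ 3 * A.natDegree + 1 := by
  classical
  set R' := (badR A B).erase 0 with hR'
  have hm' : ∀ m ∈ R', ∃ Q : F[X], Irreducible Q ∧ Q ∣ A ^ 2 - C m * B ∧ Q ∣ wr A B ∧ ¬ Q ∣ B := by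
    intro m hm
    rw [hR', Finset.mem_erase] at hm
    obtain ⟨hm0, hm⟩ := hm
    unfold badR at hm
    rw [Finset.mem_filter] at hm
    have hm := hm.2.resolve_left hm0
    obtain ⟨Q, hQ, hQf⟩ := exists_irreducible_of_natDegree_pos (f := A ^ 2 - C m * B) (by
      rw [(fdeg hB m).1]
      omega)
    obtain ⟨h3, h4⟩ := mult_dvd hm0 hcop hQ (hm Q hQ hQf)
    exact ⟨Q, hQ, hQf, h3, h4⟩
  choose! Qm hQ hQf hQw hQB using hm'
  have hdvd : ∏ m ∈ R', Qm m ∣ wr A B := by
    refine Finset.prod_dvd_of_coprime ?_ hQw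
    intro m hm m' hm' hne
    refine ((hQ m hm).coprime_iff_not_dvd).2 fun h => ?_
    have h3 : Associated (Qm m) (Qm m') := (hQ m hm).associated_of_dvd (hQ m' hm') h
    have h4 : Qm m ∣ A ^ 2 - C m' * B := h3.dvd.trans (hQf m' hm')
    have h5 := dvd_sub (hQf m hm) h4
    have h6 : (A ^ 2 - C m * B) - (A ^ 2 - C m' * B) = C (m' - m) * B := by
      rw [C_sub]
      ring
    rw [h6] at h5
    apply hQB m hm
    have h7 : C ((m' - m)⁻¹ : F) * (C (m' - m) * B) = B := by
      rw [← mul_assoc, ← C_mul, inv_mul_cancel₀ (sub_ne_zero.2 hne.symm), C_1, one_mul]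
    rw [← h7]
    exact h5.mul_left _
  have h3 := natDegree_le_of_dvd hdvd (wr_ne ha hc h2 hcop)
  rw [natDegree_prod _ _ fun m hm => (hQ m hm).ne_zero] at h3
  have h4 : R'.card ≤ ∑ m ∈ R', (Qm m).natDegree := by
    rw [Finset.card_eq_sum_ones]
    exact Finset.sum_le_sum fun m hm => (hQ m hm).natDegree_pos
  have h5 : (badR A B).card ≤ R'.card + 1 := by
    rw [hR']
    have := Finset.pred_card_le_card_erase (s := badR A B) (a := (0 : F))
    omega
  have h6 := wr_deg (A := A) (B := B)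
  omega

/-- points over finite fields -/
theorem fin_point2 {A B : F[X]} {a b : ℕ} (hA : A.natDegree = a) (ha : 1 ≤ a) (hB : B.natDegree < 2 * a)
    (hb : 1 ≤ b) (hchar : ((a : ℕ) : F) ≠ 0)
    (h2 : (2 : F) ≠ 0) (hq : (16 * a * b ^ 2) ^ 2 < Fintype.card F) {m n k : F} (hk : k ≠ 0)
    (hmn : n ≠ 0 ∨ m ∉ badR A B) :
    ∃ x y : F, y ≠ 0 ∧ (A ^ 2 - C m * B).eval x ≠ 0 ∧ (A ^ 2 - C m * B).eval x * (y ^ (2 * b) - n) = k := by
  classical
  set t := Nat.gcd (2 * b) (Fintype.card F - 1) with htdef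
  have ht2b : t ≤ 2 * b := Nat.le_of_dvd (by omega) (Nat.gcd_dvd_left _ _)
  have htF : t ∣ Fintype.card F - 1 := Nat.gcd_dvd_right _ _
  have hodd : 2 ∣ Fintype.card F - 1 := by
    have h3 : ringChar F ≠ 2 := by
      intro h
      apply h2
      have h4 : ((2 : ℕ) : F) = 0 := (ringChar.spec F 2).2 (by rw [h])
      exact_mod_cast h4
    have h4 := FiniteField.odd_card_of_char_ne_two h3
    obtain ⟨j, hj⟩ : ∃ j, Fintype.card F = 2 * j + 1 := ⟨Fintype.card F / 2, by omega⟩
    exact ⟨j, by omega⟩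
  have ht2 : 2 ≤ t := by
    have h3 : 2 ∣ t := Nat.dvd_gcd ⟨b, rfl⟩ hodd
    have h4 : 0 < t := Nat.gcd_pos_of_pos_left _ (by omega)
    exact Nat.le_of_dvd h4 h3
  suffices h : ∃ x w : F, w ≠ 0 ∧ (A ^ 2 - C m * B).eval x ≠ 0 ∧ (A ^ 2 - C m * B).eval x * (w ^ t - n) = k by
    obtain ⟨x, w, hw, hx, he⟩ := h
    obtain ⟨y, hy, hyw⟩ := pow_gcd (N := 2 * b) hw
    exact ⟨x, y, hy, hx, by rw [hyw]; exact he⟩
  set f := A ^ 2 - C m * B with hf
  set l := A.leadingCoeff with hl
  have hl0 : l ≠ 0 := by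
    rw [hl]
    refine leadingCoeff_ne_zero.2 ?_
    rintro rfl
    rw [natDegree_zero] at hA
    omega
  have hl2 : l ^ 2 ≠ 0 := pow_ne_zero _ hl0
  have hfd : f.natDegree = 2 * a := by rw [hf, (fdeg (by rw [hA]; exact hB) m).1, hA]
  have hfl : f.leadingCoeff = l ^ 2 := by rw [hf, (fdeg (by rw [hA]; exact hB) m).2]
  set f1 : F[X] := C (l ^ 2)⁻¹ * f with hf1
  have hf1m : f1.Monic := by
    rw [Monic, hf1, leadingCoeff_mul, leadingCoeff_C, hfl, inv_mul_cancel₀ hl2]
  have hf1d : f1.natDegree = 2 * a := by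
    rw [hf1, natDegree_C_mul (inv_ne_zero hl2), hfd]
  have hff : f = C (l ^ 2) * f1 := by
    rw [hf1, ← mul_assoc, ← C_mul, mul_inv_cancel₀ hl2, C_1, one_mul]
  have hev : ∀ x, f.eval x = l ^ 2 * f1.eval x := by
    intro x
    rw [hff, eval_mul, eval_C]
  by_cases hn : n = 0
  · have hm := hmn.resolve_left (not_not.2 hn)
    unfold badR at hm
    rw [Finset.mem_filter] at hm
    push Not at hm
    obtain ⟨-, Q, hQ, hQf, hQ2⟩ := hm (Finset.mem_univ _)
    have h3 : Q ∣ f1 := by rw [hf1]; exact hQf.mul_left _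
    have h4 : ¬ Q ^ 2 ∣ f1 := by
      intro h
      apply hQ2
      rw [← hf, hff]
      exact h.mul_left _
    obtain ⟨x, v, hfx, hgx, hv, he⟩ := exists_pow_value ht2 htF hf1m (monic_one) hQ h3 h4
      (fun h => hQ.not_isUnit (isUnit_of_dvd_unit h isUnit_one)) hl2 hk
      (size_ok ha hb ht2b (by omega) hq hf1d.le (by rw [natDegree_one]; exact Nat.zero_le _))
    refine ⟨x, v⁻¹, inv_ne_zero hv, ?_, ?_⟩
    · rw [hev]
      exact mul_ne_zero hl2 hfx
    · rw [hev, ← he, hn, eval_one, mul_one, sub_zero, inv_pow]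
      have hvt : v ^ t ≠ 0 := pow_ne_zero _ hv
      field_simp
  · set c := k / (n * l ^ 2) with hc
    have hc0 : c ≠ 0 := div_ne_zero hk (mul_ne_zero hn hl2)
    have h4F : (4 : F) ≠ 0 := by
      have : (4 : F) = 2 * 2 := by norm_num
      rw [this]
      exact mul_ne_zero h2 h2
    set g1 : F[X] := f1 + C c with hg1
    have hg1m : g1.Monic := by
      refine hf1m.add_of_left ?_
      refine lt_of_le_of_lt degree_C_le ?_
      rw [degree_eq_natDegree hf1m.ne_zero, hf1d]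
      exact_mod_cast (by omega : 0 < 2 * a)
    have hg1d : g1.natDegree = 2 * a := by rw [hg1, natDegree_add_C, hf1d]
    have hh1m : (f1 + C (c / 2)).Monic := by
      refine hf1m.add_of_left ?_
      refine lt_of_le_of_lt degree_C_le ?_
      rw [degree_eq_natDegree hf1m.ne_zero, hf1d]
      exact_mod_cast (by omega : 0 < 2 * a)
    have hh1d : (f1 + C (c / 2)).natDegree = 2 * a := by rw [natDegree_add_C, hf1d]
    obtain ⟨Q, hQ, hQP, hQ2⟩ := simple_factor hh1m (by rw [hh1d]; omega) (by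
      rw [hh1d]
      push_cast
      exact mul_ne_zero h2 hchar) h2 (c := c ^ 2 / 4) (div_ne_zero (pow_ne_zero _ hc0) h4F)
    have hP : (f1 + C (c / 2)) ^ 2 - C (c ^ 2 / 4) = f1 * g1 := by
      have e1 : c ^ 2 / 4 = (c / 2) ^ 2 := sq_half c
      have e2 : C c = C (c / 2) + C (c / 2) := by
        rw [← C_add]
        congr 1
        field_simp
        norm_num
      rw [hg1, e1, C_pow, e2]
      ring
    rw [hP] at hQP hQ2
    have hkc : l ^ 2 * (n * c) = k := by
      rw [hc]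
      field_simp
    have hgev : ∀ x, g1.eval x = f1.eval x + c := by
      intro x
      rw [hg1, eval_add, eval_C]
    rcases hQ.prime.dvd_or_dvd hQP with h3 | h3
    · have h4 : ¬ Q ∣ g1 := fun h => hQ2 (by rw [pow_two]; exact mul_dvd_mul h3 h)
      have h5 : ¬ Q ^ 2 ∣ f1 := fun h => hQ2 (h.mul_right _)
      obtain ⟨x, v, hfx, hgx, hv, he⟩ := exists_pow_value ht2 htF hf1m hg1m hQ h3 h5 h4 (one_ne_zero) hn
        (size_ok ha hb ht2b (by omega) hq hf1d.le hg1d.le)
      refine ⟨x, v⁻¹, inv_ne_zero hv, ?_, ?_⟩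
      · rw [hev]
        exact mul_ne_zero hl2 hfx
      · have hvt : v ^ t ≠ 0 := pow_ne_zero _ hv
        rw [one_mul] at he
        rw [hev, inv_pow]
        have h7 : f1.eval x * (v ^ t)⁻¹ = n * g1.eval x := by
          rw [← he]
          field_simp
        calc l ^ 2 * f1.eval x * ((v ^ t)⁻¹ - n) = l ^ 2 * (f1.eval x * (v ^ t)⁻¹ - n * f1.eval x) := by ring
          _ = l ^ 2 * (n * g1.eval x - n * f1.eval x) := by rw [h7]
          _ = l ^ 2 * (n * c) := by rw [hgev]; ring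
          _ = k := hkc
    · have h4 : ¬ Q ∣ f1 := fun h => hQ2 (by rw [pow_two]; exact mul_dvd_mul h h3)
      have h5 : ¬ Q ^ 2 ∣ g1 := fun h => hQ2 (h.mul_left _)
      obtain ⟨x, v, hfx, hgx, hv, he⟩ := exists_pow_value ht2 htF hg1m hf1m hQ h3 h5 h4 hn (one_ne_zero)
        (size_ok ha hb ht2b (by omega) hq hg1d.le hf1d.le)
      refine ⟨x, v, hv, ?_, ?_⟩
      · rw [hev]
        exact mul_ne_zero hl2 hgx
      · rw [one_mul] at he
        rw [hev]
        calc l ^ 2 * f1.eval x * (v ^ t - n) = l ^ 2 * (v ^ t * f1.eval x - n * f1.eval x) := by ring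
          _ = l ^ 2 * (n * g1.eval x - n * f1.eval x) := by rw [he]
          _ = l ^ 2 * (n * c) := by rw [hgev]; ring
          _ = k := hkc

end fin

theorem clearD (q : ℚ[X]) : ∃ N : ℤ, N ≠ 0 ∧ ∃ p : ℤ[X],
    p.map (Int.castRingHom ℚ) = C (N : ℚ) * q := by
  obtain ⟨b, hbm, hb⟩ := IsLocalization.integerNormalization_spec (nonZeroDivisors ℤ) q
  refine ⟨b, nonZeroDivisors.ne_zero hbm,
    IsLocalization.integerNormalization (nonZeroDivisors ℤ) q, ?_⟩
  have h : (Int.castRingHom ℚ) = algebraMap ℤ ℚ := rfl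
  rw [h, hb]
  ext n
  simp [Algebra.smul_def]

/-- Bezout over the integers -/
theorem bezZ {A B : ℤ[X]} (h : IsCoprime (A.map (Int.castRingHom ℚ)) (B.map (Int.castRingHom ℚ))) :
    ∃ (R : ℤ) (U V : ℤ[X]), R ≠ 0 ∧ U * A + V * B = C R := by
  obtain ⟨u, v, huv⟩ := h
  obtain ⟨N, hN, U, hU⟩ := clearD u
  obtain ⟨N', hN', V, hV⟩ := clearD v
  refine ⟨N * N', C N' * U, C N * V, mul_ne_zero hN hN', ?_⟩
  apply Polynomial.map_injective (Int.castRingHom ℚ) Int.cast_injective
  rw [Polynomial.map_add, Polynomial.map_mul, Polynomial.map_mul, Polynomial.map_mul, Polynomial.map_mul,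
    hU, hV, map_C, map_C, map_C]
  simp only [eq_intCast]
  push_cast
  rw [C_mul]
  linear_combination (C (N : ℚ) * C (N' : ℚ)) * huv

/-- **points modulo large primes** -/
theorem modp2 {A B : ℤ[X]} (hA : 1 ≤ A.natDegree) (hB : B.natDegree < 2 * A.natDegree) {R : ℤ} {U V : ℤ[X]}
    (hR : R ≠ 0) (hUV : U * A + V * B = C R) {b : ℕ} (hb : 1 ≤ b) {k : ℤ} (hk : k ≠ 0) :
    ∃ P0 : ℕ, ∀ p : ℕ, ∀ _ : Fact p.Prime, P0 < p → ∃ S : Finset (ZMod p), S.card ≤ 3 * A.natDegree + 1 ∧
      ∀ m n : ℤ, ((n : ZMod p) ≠ 0 ∨ (m : ZMod p) ∉ S) →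
      ∃ x y : ZMod p, y ≠ 0 ∧ ((A ^ 2 - C m * B).map (Int.castRingHom (ZMod p))).eval x ≠ 0 ∧
        ((A ^ 2 - C m * B).map (Int.castRingHom (ZMod p))).eval x * (y ^ (2 * b) - n) = (k : ZMod p) := by
  refine ⟨(16 * A.natDegree * b ^ 2) ^ 2 + k.natAbs + A.leadingCoeff.natAbs + A.natDegree + 2 + R.natAbs, ?_⟩
  intro p hp hlt
  have hnz : ∀ z : ℤ, z ≠ 0 → z.natAbs < p → ((z : ℤ) : ZMod p) ≠ 0 := by
    intro z hz hzp h
    rw [ZMod.intCast_zmod_eq_zero_iff_dvd] at h
    have h1 := Int.natAbs_dvd_natAbs.2 h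
    rw [Int.natAbs_natCast] at h1
    have h2 := Nat.le_of_dvd (Int.natAbs_pos.2 hz) h1
    omega
  have hA0 : A ≠ 0 := by
    rintro rfl
    rw [natDegree_zero] at hA
    omega
  have hlead : (Int.castRingHom (ZMod p)) A.leadingCoeff ≠ 0 := by
    rw [eq_intCast]
    exact hnz _ (leadingCoeff_ne_zero.2 hA0) (by omega)
  set A' := A.map (Int.castRingHom (ZMod p)) with hA'
  set B' := B.map (Int.castRingHom (ZMod p)) with hB'
  have hAd : A'.natDegree = A.natDegree := natDegree_map_of_leadingCoeff_ne_zero _ hlead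
  have hBd : B'.natDegree < 2 * A.natDegree := lt_of_le_of_lt (natDegree_map_le) hB
  have hcop : IsCoprime A' B' := by
    have h1 := congrArg (Polynomial.map (Int.castRingHom (ZMod p))) hUV
    rw [Polynomial.map_add, Polynomial.map_mul, Polynomial.map_mul, map_C] at h1
    have hRp : (Int.castRingHom (ZMod p)) R ≠ 0 := by
      rw [eq_intCast]
      exact hnz _ hR (by omega)
    refine ⟨C ((Int.castRingHom (ZMod p)) R)⁻¹ * U.map (Int.castRingHom (ZMod p)),
      C ((Int.castRingHom (ZMod p)) R)⁻¹ * V.map (Int.castRingHom (ZMod p)), ?_⟩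
    have h3 : (C ((Int.castRingHom (ZMod p)) R)⁻¹ : (ZMod p)[X]) * C ((Int.castRingHom (ZMod p)) R) = 1 := by
      rw [← C_mul, inv_mul_cancel₀ hRp, C_1]
    rw [← h3, ← h1]
    ring
  have hchar : ((A.natDegree : ℕ) : ZMod p) ≠ 0 := by
    have := hnz (A.natDegree : ℤ) (by exact_mod_cast (by omega : A.natDegree ≠ 0)) (by rw [Int.natAbs_natCast]; omega)
    exact_mod_cast this
  have h2 : (2 : ZMod p) ≠ 0 := by
    have := hnz 2 (by norm_num) (by
      have : (2 : ℤ).natAbs = 2 := rfl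
      omega)
    exact_mod_cast this
  refine ⟨badR A' B', ?_, ?_⟩
  · have := badR_card (A := A') (B := B') (by rw [hAd]; exact hA) (by rw [hAd]; exact hBd) (by rw [hAd]; exact hchar)
      h2 hcop
    rwa [hAd] at this
  · intro m n hmn
    have hE : (A ^ 2 - C m * B).map (Int.castRingHom (ZMod p)) = A' ^ 2 - C (m : ZMod p) * B' := by
      rw [Polynomial.map_sub, Polynomial.map_pow, Polynomial.map_mul, map_C]
      rfl
    rw [hE]
    exact fin_point2 (a := A.natDegree) hAd hA hBd hb hchar h2 (by rw [ZMod.card]; omega)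
      (hnz k hk (by omega)) hmn

end Pool.Agent.H82.ST
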