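import Pool.Agent.H82.ST.Local2
import Pool.Agent.H82.ST.MP2
import Pool.Agent.H14Q.Low1

/-!
# A positive proportion of the curves `(A(x)² - m B(x))(y^{2b} - n) = k` has points everywhere locally
-/

set_option autoImplicit false

namespace Pool.Agent.H82.ST

open Finset Pool.Agent.H14Q

theorem prog_card {M H : ℕ} (hM0 : 0 < M) :
    (H : ℝ) * (H / M - 1) ≤ ((prog M 1 H).card : ℝ) := by
  have hMr : (0 : ℝ) < M := by exact_mod_cast hM0
  have h1 : (H : ℝ) / M - 1 ≤ (((Icc 1 H).filter fun n => n % M = 1 % M).card : ℝ) := by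
    have h2 : H / M ≤ ((Icc 1 H).filter fun n => n % M = 1 % M).card := by
      have h3 : ((Finset.range (H / M)).image fun j => 1 + M * j) ⊆
          (Icc 1 H).filter fun n => n % M = 1 % M := by
        intro n hn
        obtain ⟨j, hj, rfl⟩ := Finset.mem_image.1 hn
        rw [Finset.mem_range] at hj
        rw [mem_filter, mem_Icc]
        refine ⟨⟨by omega, ?_⟩, by rw [Nat.add_mul_mod_self_left]⟩
        calc 1 + M * j ≤ M + M * j := by omega
          _ = M * (j + 1) := by ring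
          _ ≤ M * (H / M) := Nat.mul_le_mul_left _ hj
          _ ≤ H := Nat.mul_div_le H M
      have h4 := Finset.card_le_card h3
      rwa [Finset.card_image_of_injective _ (fun i j h => Nat.eq_of_mul_eq_mul_left hM0
        (Nat.add_left_cancel h)), Finset.card_range] at h4
    have h3 : (H : ℝ) / M < ((H / M : ℕ) : ℝ) + 1 := by
      rw [div_lt_iff₀ hMr]
      have := Nat.lt_div_mul_add (a := H) (b := M) hM0
      have h5 : H < (H / M + 1) * M := by linarith [Nat.add_mul (H / M) 1 M]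
      exact_mod_cast h5
    have h4 : ((H / M : ℕ) : ℝ) ≤ (((Icc 1 H).filter fun n => n % M = 1 % M).card : ℝ) := by
      exact_mod_cast h2
    linarith
  have hcard : ((prog M 1 H).card : ℝ) = H * (((Icc 1 H).filter fun n => n % M = 1 % M).card : ℝ) := by
    unfold prog
    rw [Finset.card_product, Nat.card_Icc]
    push_cast
    norm_num
  rw [hcard]
  exact mul_le_mul_of_nonneg_left h1 (Nat.cast_nonneg _)

open Classical in
/-- the pairs for which a prime above `P` is bad -/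
theorem count_bad {D P M H : ℕ} (hD : 1 ≤ D) (hP : 8 * D ≤ P) (hM0 : 0 < M)
    (hcop : ∀ p : ℕ, p.Prime → P < p → p.Coprime M) (S : ∀ p : ℕ, Finset (ZMod p))
    (hS : ∀ p : ℕ, p.Prime → P < p → (S p).card ≤ D) :
    (((prog M 1 H).filter fun x => ∃ p : ℕ, p.Prime ∧ P < p ∧ p ∣ x.2 ∧ ((x.1 : ℕ) : ZMod p) ∈ S p).card : ℝ) ≤
      (H : ℝ) ^ 2 / (4 * M) + 2 * D * H * (1 + Real.log H) := by
  have hMr : (0 : ℝ) < M := by exact_mod_cast hM0
  have hP8 : 8 ≤ P := by omega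
  set Ps := (Icc 1 H).filter (fun p => p.Prime ∧ P < p) with hPs
  have hsub : ((prog M 1 H).filter fun x => ∃ p : ℕ, p.Prime ∧ P < p ∧ p ∣ x.2 ∧ ((x.1 : ℕ) : ZMod p) ∈ S p) ⊆
      Ps.biUnion fun p => (Icc 1 H).filter (fun m => ((m : ℕ) : ZMod p) ∈ S p) ×ˢ
        (Icc 1 H).filter (fun n => n % M = 1 % M ∧ p ∣ n) := by
    intro x hx
    rw [mem_filter] at hx
    obtain ⟨hx1, p, hp, hPp, hpn, hpm⟩ := hx
    unfold prog at hx1
    rw [mem_product, mem_filter] at hx1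
    rw [mem_biUnion]
    refine ⟨p, ?_, ?_⟩
    · rw [hPs, mem_filter, mem_Icc]
      have h2 := mem_Icc.1 hx1.2.1
      exact ⟨⟨hp.pos, (Nat.le_of_dvd (by omega) hpn).trans h2.2⟩, hp, hPp⟩
    · rw [mem_product, mem_filter, mem_filter]
      exact ⟨⟨hx1.1, hpm⟩, hx1.2.1, hx1.2.2, hpn⟩
  have hd : ∀ p ∈ Ps, ((((Icc 1 H).filter (fun m => ((m : ℕ) : ZMod p) ∈ S p) ×ˢ
        (Icc 1 H).filter (fun n => n % M = 1 % M ∧ p ∣ n)).card : ℕ) : ℝ) ≤
      2 * D * (H : ℝ) ^ 2 / M * (1 / (p : ℝ) ^ 2) + 2 * D * H * (1 / (p : ℝ)) := by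
    intro p hp
    rw [hPs, mem_filter, mem_Icc] at hp
    obtain ⟨⟨hp1, hpH⟩, hpp, hPp⟩ := hp
    have hp0 : (0 : ℝ) < p := by exact_mod_cast hpp.pos
    have hHp : (1 : ℝ) ≤ (H : ℝ) / p := by
      rw [le_div_iff₀ hp0, one_mul]
      exact_mod_cast hpH
    rw [Finset.card_product]
    have e1 : (((Icc 1 H).filter (fun m => ((m : ℕ) : ZMod p) ∈ S p)).card : ℝ) ≤ 2 * D * (H / p) := by
      have h1 : (Icc 1 H).filter (fun m => ((m : ℕ) : ZMod p) ∈ S p) ⊆
          (S p).biUnion fun s => (Icc 1 H).filter (fun m => ((m : ℕ) : ZMod p) = s) := by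
        intro m hm
        rw [mem_filter] at hm
        rw [mem_biUnion]
        exact ⟨_, hm.2, mem_filter.2 ⟨hm.1, rfl⟩⟩
      have h2 := (Finset.card_le_card h1).trans Finset.card_biUnion_le
      have h3 : ∀ s ∈ S p, (((Icc 1 H).filter (fun m => ((m : ℕ) : ZMod p) = s)).card : ℝ) ≤ 2 * (H / p) := by
        intro s _
        have h4 := card_classN (M := p) (H := H) hpp.pos ((Icc 1 H).filter (fun m => ((m : ℕ) : ZMod p) = s)) (by
            intro x hx
            rw [mem_filter, mem_Icc] at hx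
            exact hx.1.2) (by
            intro x hx y hy
            rw [mem_filter] at hx hy
            have h5 : ((x : ℕ) : ZMod p) = ((y : ℕ) : ZMod p) := hx.2.trans hy.2.symm
            rw [← ZMod.intCast_zmod_eq_zero_iff_dvd]
            push_cast
            rw [h5, sub_self])
        linarith
      have h4 : (((Icc 1 H).filter (fun m => ((m : ℕ) : ZMod p) ∈ S p)).card : ℝ) ≤
          ∑ s ∈ S p, (((Icc 1 H).filter (fun m => ((m : ℕ) : ZMod p) = s)).card : ℝ) := by exact_mod_cast h2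
      refine h4.trans ((Finset.sum_le_sum h3).trans ?_)
      rw [Finset.sum_const, nsmul_eq_mul]
      have h5 : ((S p).card : ℝ) ≤ D := by exact_mod_cast hS p hpp hPp
      have h6 : (0 : ℝ) ≤ 2 * (H / p) := by positivity
      calc ((S p).card : ℝ) * (2 * (H / p)) ≤ D * (2 * (H / p)) := mul_le_mul_of_nonneg_right h5 h6
        _ = 2 * D * (H / p) := by ring
    have e2 : (((Icc 1 H).filter (fun n => n % M = 1 % M ∧ p ∣ n)).card : ℝ) ≤ H / (p * M) + 1 := by
      have hc := hcop p hpp hPp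
      have h5 := card_classN (M := p * M) (H := H) (Nat.mul_pos hpp.pos hM0)
        ((Icc 1 H).filter (fun n => n % M = 1 % M ∧ p ∣ n)) (by
          intro x hx
          rw [mem_filter, mem_Icc] at hx
          exact hx.1.2) (by
          intro x hx y hy
          rw [mem_filter] at hx hy
          have h6 : (p : ℤ) ∣ (x : ℤ) - y :=
            dvd_sub (Int.natCast_dvd_natCast.2 hx.2.2) (Int.natCast_dvd_natCast.2 hy.2.2)
          have h7 : (M : ℤ) ∣ (x : ℤ) - y := by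
            have : (y : ℤ) ≡ x [ZMOD M] := by
              unfold Int.ModEq
              exact_mod_cast (hy.2.1.trans hx.2.1.symm)
            exact this.dvd
          push_cast
          exact (Nat.isCoprime_iff_coprime.2 hc).mul_dvd h6 h7)
      push_cast at h5
      exact h5
    push_cast
    calc (((Icc 1 H).filter (fun m => ((m : ℕ) : ZMod p) ∈ S p)).card : ℝ) *
          (((Icc 1 H).filter (fun n => n % M = 1 % M ∧ p ∣ n)).card : ℝ)
        ≤ (2 * D * (H / p)) * (H / (p * M) + 1) := mul_le_mul e1 e2 (Nat.cast_nonneg _) (by positivity)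
      _ = 2 * D * (H : ℝ) ^ 2 / M * (1 / (p : ℝ) ^ 2) + 2 * D * H * (1 / (p : ℝ)) := by
        field_simp
  have h5 := (Finset.card_le_card hsub).trans Finset.card_biUnion_le
  have h6 : (((prog M 1 H).filter fun x => ∃ p : ℕ, p.Prime ∧ P < p ∧ p ∣ x.2 ∧
      ((x.1 : ℕ) : ZMod p) ∈ S p).card : ℝ) ≤
      ∑ p ∈ Ps, ((((Icc 1 H).filter (fun m => ((m : ℕ) : ZMod p) ∈ S p) ×ˢ
        (Icc 1 H).filter (fun n => n % M = 1 % M ∧ p ∣ n)).card : ℕ) : ℝ) := by
    exact_mod_cast h5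
  refine h6.trans ((Finset.sum_le_sum hd).trans ?_)
  rw [Finset.sum_add_distrib, ← Finset.mul_sum, ← Finset.mul_sum]
  have hPr : (8 * D : ℝ) ≤ P := by exact_mod_cast hP
  have hDr : (1 : ℝ) ≤ D := by exact_mod_cast hD
  have hP0 : (0 : ℝ) < P := by linarith
  have h7 : ∑ p ∈ Ps, (1 : ℝ) / (p : ℝ) ^ 2 ≤ 1 / P := by
    refine le_trans ?_ (sum_sq_tail (y := P) (Q := H) (by omega))
    refine Finset.sum_le_sum_of_subset_of_nonneg ?_ fun t _ _ => by positivity
    intro t ht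
    rw [hPs, mem_filter] at ht
    rw [Finset.mem_filter]
    exact ⟨ht.1, ht.2.2⟩
  have h8 : ∑ p ∈ Ps, (1 : ℝ) / (p : ℝ) ≤ 1 + Real.log H := by
    refine le_trans ?_ (sum_inv H)
    refine Finset.sum_le_sum_of_subset_of_nonneg ?_ fun t _ _ => by positivity
    intro t ht
    rw [hPs, mem_filter, mem_Icc] at ht
    rw [mem_Icc]
    omega
  have h9 : 2 * D * (H : ℝ) ^ 2 / M * ∑ p ∈ Ps, (1 : ℝ) / (p : ℝ) ^ 2 ≤ (H : ℝ) ^ 2 / (4 * M) := by
    calc 2 * D * (H : ℝ) ^ 2 / M * ∑ p ∈ Ps, (1 : ℝ) / (p : ℝ) ^ 2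
        ≤ 2 * D * (H : ℝ) ^ 2 / M * (1 / P) := mul_le_mul_of_nonneg_left h7 (by positivity)
      _ = (H : ℝ) ^ 2 / M * (2 * D / P) := by ring
      _ ≤ (H : ℝ) ^ 2 / M * (1 / 4) := by
        refine mul_le_mul_of_nonneg_left ?_ (by positivity)
        rw [div_le_div_iff₀ hP0 (by norm_num)]
        linarith
      _ = (H : ℝ) ^ 2 / (4 * M) := by field_simp
  have h10 : 2 * D * (H : ℝ) * ∑ p ∈ Ps, (1 : ℝ) / (p : ℝ) ≤ 2 * D * H * (1 + Real.log H) :=
    mul_le_mul_of_nonneg_left h8 (by positivity)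
  linarith

/-- everywhere locally soluble -/
def Els2 (A B : Polynomial ℤ) (b : ℕ) (m n k : ℤ) : Prop :=
  Sol2 (A ^ 2 - Polynomial.C m * B) b n k ℝ ∧
    ∀ (p : ℕ) [Fact p.Prime], Sol2 (A ^ 2 - Polynomial.C m * B) b n k ℚ_[p]

theorem fdegZ {A B : Polynomial ℤ} (hB : B.natDegree < 2 * A.natDegree) (m : ℤ) :
    (A ^ 2 - Polynomial.C m * B).natDegree = 2 * A.natDegree := by
  have h1 : (A ^ 2).natDegree = 2 * A.natDegree := Polynomial.natDegree_pow _ _
  have h2 : (Polynomial.C m * B).natDegree < (A ^ 2).natDegree := by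
    rw [h1]
    exact (Polynomial.natDegree_C_mul_le m B).trans_lt hB
  rw [Polynomial.natDegree_sub_eq_left_of_natDegree_lt h2, h1]

open Classical in
/-- **a positive proportion** -/
theorem low3 {A B : Polynomial ℤ} (hA : 1 ≤ A.natDegree) (hB : B.natDegree < 2 * A.natDegree)
    (hcop : IsCoprime (A.map (Int.castRingHom ℚ)) (B.map (Int.castRingHom ℚ)))
    {b : ℕ} (hb : 1 ≤ b) {k : ℤ} (hk : k ≠ 0) :
    ∃ c : ℝ, 0 < c ∧ ∃ H0 : ℕ, ∀ H : ℕ, H0 ≤ H → c * (H : ℝ) ^ 2 ≤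
      (((Pool.Agent.H14Q.box H).filter fun p => Els2 A B b p.1 p.2 k ∧ p.1 * p.2 ≠ 0 ∧ p.1 * p.2 ≠ k).card : ℝ) := by
  obtain ⟨R, U, V, hR, hUV⟩ := bezZ hcop
  obtain ⟨P0, hP0⟩ := modp2 hA hB hR hUV hb hk
  obtain ⟨D, hD⟩ : ∃ D, D = 3 * A.natDegree + 1 := ⟨_, rfl⟩
  obtain ⟨P, hP⟩ : ∃ P, P = P0 + 2 * b + 8 * D := ⟨_, rfl⟩
  have hSex : ∀ p : ℕ, ∃ S : Finset (ZMod p), p.Prime → P < p → (S.card ≤ D ∧
      ∀ m n : ℤ, ((n : ZMod p) ≠ 0 ∨ (m : ZMod p) ∉ S) →
      ∃ x y : ZMod p, y ≠ 0 ∧ ((A ^ 2 - Polynomial.C m * B).map (Int.castRingHom (ZMod p))).eval x ≠ 0 ∧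
        ((A ^ 2 - Polynomial.C m * B).map (Int.castRingHom (ZMod p))).eval x * (y ^ (2 * b) - n) = (k : ZMod p)) := by
    intro p
    by_cases h : p.Prime ∧ P < p
    · obtain ⟨S, h1, h2⟩ := hP0 p ⟨h.1⟩ (by omega)
      exact ⟨S, fun _ _ => ⟨by rw [hD]; exact h1, h2⟩⟩
    · exact ⟨∅, fun h1 h2 => absurd ⟨h1, h2⟩ h⟩
  choose S hSp using hSex
  obtain ⟨M, hM⟩ : ∃ M, M = (2 * b) ^ 2 * P.factorial := ⟨_, rfl⟩
  have hM0 : 0 < M := by
    rw [hM]
    have := Nat.factorial_pos P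
    positivity
  have hMr : (1 : ℝ) ≤ M := by exact_mod_cast hM0
  have hMc : ∀ p : ℕ, p.Prime → P < p → p.Coprime M := by
    intro p hp hPp
    rw [hM]
    refine Nat.Coprime.mul_right ?_ ?_
    · refine Nat.Coprime.pow_right 2 ?_
      refine (Nat.Prime.coprime_iff_not_dvd hp).2 fun h => ?_
      have := Nat.le_of_dvd (by omega) h
      omega
    · refine (Nat.Prime.coprime_iff_not_dvd hp).2 fun h => ?_
      have := (Nat.Prime.dvd_factorial hp).1 h
      omega
  have hels : ∀ (H : ℕ) (x : ℕ × ℕ), x ∈ prog M 1 H →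
      (¬ ∃ p : ℕ, p.Prime ∧ P < p ∧ p ∣ x.2 ∧ ((x.1 : ℕ) : ZMod p) ∈ S p) →
      Els2 A B b (x.1 : ℤ) (x.2 : ℤ) k := by
    intro H x hx hno
    unfold prog at hx
    rw [mem_product, mem_filter, mem_Icc, mem_Icc] at hx
    obtain ⟨h1, h2, h3⟩ := hx
    have hE : 1 ≤ (A ^ 2 - Polynomial.C ((x.1 : ℕ) : ℤ) * B).natDegree := by
      rw [fdegZ hB]
      omega
    refine ⟨sol_real2 hE hb (by exact_mod_cast h2.1), ?_⟩
    intro q hq
    by_cases hqP : q ≤ P
    · refine sol_small2 hE hb ?_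
      have h4 : ((2 * b) ^ 2 * q) ∣ (2 * b) ^ 2 * P.factorial :=
        mul_dvd_mul_left _ ((Nat.dvd_factorial hq.out.pos hqP))
      have h5 : (((2 * b) ^ 2 * P.factorial : ℕ) : ℤ) ∣ (x.2 : ℤ) - 1 := by
        rw [← hM]
        have h6 : ((x.2 : ℕ) : ℤ) ≡ ((1 : ℕ) : ℤ) [ZMOD (M : ℤ)] :=
          (Int.natCast_modEq_iff).2 h3
        have := h6.symm.dvd
        simpa using this
      refine dvd_trans ?_ h5
      exact_mod_cast h4
    · push Not at hqP
      refine sol_large2 hb ?_ ((hSp q hq.out hqP).2 (x.1 : ℤ) (x.2 : ℤ) ?_)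
      · intro h4
        have := Nat.le_of_dvd (by omega) h4
        omega
      · by_contra h4
        push Not at h4
        obtain ⟨h5, h6⟩ := h4
        apply hno
        refine ⟨q, hq.out, hqP, ?_, ?_⟩
        · rw [ZMod.intCast_zmod_eq_zero_iff_dvd] at h5
          exact_mod_cast h5
        · push_cast at h6
          exact h6
  have hDr : (1 : ℝ) ≤ D := by
    have : 1 ≤ D := by omega
    exact_mod_cast this
  refine ⟨1 / (2 * M), by positivity, (32 * D * M) ^ 2, ?_⟩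
  intro H hH
  have hDM : 1 ≤ D * M := Nat.mul_pos (by omega) hM0
  have hH1 : 1 ≤ H := by
    refine le_trans ?_ hH
    have : 1 ≤ 32 * D * M := by nlinarith
    nlinarith
  have hHr : (1 : ℝ) ≤ H := by exact_mod_cast hH1
  have hs : 32 * (D : ℝ) * M ≤ Real.sqrt H := by
    refine Real.le_sqrt_of_sq_le ?_
    exact_mod_cast hH
  have hs2 : Real.sqrt H * Real.sqrt H = H := Real.mul_self_sqrt (by linarith)
  have hDM' : (1 : ℝ) ≤ D * M := by exact_mod_cast hDM
  have hs1 : 1 ≤ Real.sqrt H := by nlinarith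
  have hlog := log_le_sqrt hH1
  have h2 : (H : ℝ) * (2 + 2 * D * (1 + Real.log H)) ≤ (H : ℝ) ^ 2 / (4 * M) := by
    rw [le_div_iff₀ (by positivity)]
    have h3 : (2 + 2 * D * (1 + Real.log H)) * (4 * M) ≤ H := by
      have h4 : 2 + 2 * D * (1 + Real.log H) ≤ 8 * D * Real.sqrt H := by
        have a1 : D * (1 + Real.log H) ≤ D * (3 * Real.sqrt H) := mul_le_mul_of_nonneg_left (by linarith) (by linarith)
        have a2 : 1 ≤ D * Real.sqrt H := by nlinarith
        nlinarith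
      calc (2 + 2 * D * (1 + Real.log H)) * (4 * M) ≤ (8 * D * Real.sqrt H) * (4 * M) :=
            mul_le_mul_of_nonneg_right h4 (by positivity)
        _ = (32 * D * M) * Real.sqrt H := by ring
        _ ≤ Real.sqrt H * Real.sqrt H := mul_le_mul_of_nonneg_right hs (by linarith)
        _ = H := hs2
    calc (H : ℝ) * (2 + 2 * D * (1 + Real.log H)) * (4 * M) = H * ((2 + 2 * D * (1 + Real.log H)) * (4 * M)) := by ring
      _ ≤ H * H := mul_le_mul_of_nonneg_left h3 (by linarith)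
      _ = (H : ℝ) ^ 2 := by ring
  set T := (prog M 1 H).filter (fun x => ¬ ∃ p : ℕ, p.Prime ∧ P < p ∧ p ∣ x.2 ∧ ((x.1 : ℕ) : ZMod p) ∈ S p) with hT
  have hTc : (H : ℝ) ^ 2 / M - H - ((H : ℝ) ^ 2 / (4 * M) + 2 * D * H * (1 + Real.log H)) ≤ (T.card : ℝ) := by
    have h3 := count_bad (D := D) (P := P) (M := M) (H := H) (by omega) (by omega) hM0 hMc S
      (fun p hp hPp => (hSp p hp hPp).1)
    have h4 := prog_card (M := M) (H := H) hM0
    have h5 : (prog M 1 H).card =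
      ((prog M 1 H).filter fun x => ∃ p : ℕ, p.Prime ∧ P < p ∧ p ∣ x.2 ∧ ((x.1 : ℕ) : ZMod p) ∈ S p).card +
      T.card := (Finset.card_filter_add_card_filter_not _).symm
    have h6 : ((prog M 1 H).card : ℝ) =
      (((prog M 1 H).filter fun x => ∃ p : ℕ, p.Prime ∧ P < p ∧ p ∣ x.2 ∧ ((x.1 : ℕ) : ZMod p) ∈ S p).card : ℝ) +
      (T.card : ℝ) := by exact_mod_cast h5
    have h7 : (H : ℝ) * (H / M - 1) = (H : ℝ) ^ 2 / M - H := by ring
    rw [h7] at h4
    linarith
  have hbad : (T.filter fun p => ((p.1 : ℤ) * p.2 = k)).card ≤ H := by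
    have h3 : (T.filter fun p => ((p.1 : ℤ) * p.2 = k)).card ≤ (Icc 1 H).card := by
      refine Finset.card_le_card_of_injOn (fun p => p.1) ?_ ?_
      · intro p hp
        have := (mem_filter.1 (mem_filter.1 hp).1).1
        unfold prog at this
        exact (mem_product.1 this).1
      · rintro ⟨m, n⟩ hp ⟨m', n'⟩ hp' h
        simp only at h
        subst h
        have e1 := (mem_filter.1 hp).2
        have e2 := (mem_filter.1 hp').2
        have e3 := (mem_filter.1 (mem_filter.1 hp).1).1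
        unfold prog at e3
        have e4 := (mem_Icc.1 (mem_product.1 e3).1).1
        simp only at e1 e2 e4
        have e5 : (m : ℤ) ≠ 0 := by
          have : (0 : ℤ) < m := by exact_mod_cast e4
          exact this.ne'
        have e6 : (n : ℤ) = n' := mul_left_cancel₀ e5 (e1.trans e2.symm)
        rw [Prod.mk.injEq]
        exact ⟨rfl, by exact_mod_cast e6⟩
    rwa [Nat.card_Icc, Nat.add_sub_cancel] at h3
  have hsplit : T.card = (T.filter fun p => ((p.1 : ℤ) * p.2 = k)).card +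
      (T.filter fun p => ¬ ((p.1 : ℤ) * p.2 = k)).card :=
    (Finset.card_filter_add_card_filter_not _).symm
  have hinj : (T.filter fun p => ¬ ((p.1 : ℤ) * p.2 = k)).card ≤
      ((Pool.Agent.H14Q.box H).filter fun p => Els2 A B b p.1 p.2 k ∧ p.1 * p.2 ≠ 0 ∧ p.1 * p.2 ≠ k).card := by
    refine Finset.card_le_card_of_injOn (fun p => ((p.1 : ℤ), (p.2 : ℤ))) ?_ ?_
    · intro p hp
      obtain ⟨h3, h4⟩ := mem_filter.1 (Finset.mem_coe.1 hp)
      obtain ⟨h5, h6⟩ := mem_filter.1 h3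
      have h7 := hels H p h5 h6
      unfold prog at h5
      rw [mem_product, mem_filter, mem_Icc, mem_Icc] at h5
      rw [Finset.mem_coe, mem_filter, mem_box]
      refine ⟨⟨?_, ?_⟩, h7, ?_, h4⟩
      · rw [abs_of_nonneg (by positivity)]
        show ((p.1 : ℕ) : ℤ) ≤ H
        exact_mod_cast h5.1.2
      · rw [abs_of_nonneg (by positivity)]
        show ((p.2 : ℕ) : ℤ) ≤ H
        exact_mod_cast h5.2.1.2
      · have e1 : (0 : ℤ) < p.1 := by exact_mod_cast h5.1.1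
        have e2 : (0 : ℤ) < p.2 := by exact_mod_cast h5.2.1.1
        exact (mul_pos e1 e2).ne'
    · rintro ⟨m, n⟩ _ ⟨m', n'⟩ _ h
      rw [Prod.mk.injEq] at h ⊢
      exact ⟨by exact_mod_cast h.1, by exact_mod_cast h.2⟩
  have h3 : (T.card : ℝ) ≤ H + (((Pool.Agent.H14Q.box H).filter fun p => Els2 A B b p.1 p.2 k ∧ p.1 * p.2 ≠ 0 ∧
      p.1 * p.2 ≠ k).card : ℝ) := by
    have : T.card ≤ H + ((Pool.Agent.H14Q.box H).filter fun p => Els2 A B b p.1 p.2 k ∧ p.1 * p.2 ≠ 0 ∧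
      p.1 * p.2 ≠ k).card := by omega
    exact_mod_cast this
  have e1 : (H : ℝ) ^ 2 / M = 4 * ((H : ℝ) ^ 2 / (4 * M)) := by
    field_simp
  have e2 : 1 / (2 * (M : ℝ)) * (H : ℝ) ^ 2 = 2 * ((H : ℝ) ^ 2 / (4 * M)) := by
    field_simp
    norm_num
  rw [e2]
  rw [e1] at hTc
  linarith

end Pool.Agent.H82.ST
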