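import Pool.Agent.H82.ST.W

/-!
# Points of `(A(x)² - m)(y^{2b} - n) = k` modulo large primes
-/

set_option autoImplicit false

namespace Pool.Agent.H82.ST

open Polynomial

section fin

variable {F : Type} [Field F] [Fintype F] [DecidableEq F]

omit [DecidableEq F] in
/-- a `gcd(N, q - 1)`-th power is an `N`-th power -/
theorem pow_gcd {N : ℕ} {w : F} (hw : w ≠ 0) :
    ∃ y : F, y ≠ 0 ∧ y ^ N = w ^ (Nat.gcd N (Fintype.card F - 1)) := by
  refine ⟨w ^ (Nat.gcdA N (Fintype.card F - 1)), zpow_ne_zero _ hw, ?_⟩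
  have h1 := Nat.gcd_eq_gcd_ab N (Fintype.card F - 1)
  rw [← zpow_natCast w (Nat.gcd N (Fintype.card F - 1)), h1, zpow_add₀ hw, zpow_mul w ((Fintype.card F - 1 : ℕ) : ℤ),
    zpow_natCast, FiniteField.pow_card_sub_one_eq_one w hw, one_zpow, mul_one, mul_comm (N : ℤ), zpow_mul,
    zpow_natCast]

/-- the size condition -/
theorem size_ok {a b t d e : ℕ} (ha : 1 ≤ a) (hb : 1 ≤ b) (ht : t ≤ 2 * b) (ht1 : 1 ≤ t) {q : ℕ}
    (hq : (16 * a * b ^ 2) ^ 2 < q) (hd : d ≤ 2 * a) (he : e ≤ 2 * a) :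
    (t : ℝ) * (((d + (t - 1) * e : ℕ) : ℝ) * Real.sqrt q) + (d + e : ℕ) < q := by
  have hs0 : (0 : ℝ) ≤ Real.sqrt q := Real.sqrt_nonneg _
  have hs : (16 * a * b ^ 2 : ℝ) < Real.sqrt q := by
    refine Real.lt_sqrt_of_sq_lt ?_
    exact_mod_cast hq
  have hqq : Real.sqrt q * Real.sqrt q = q := Real.mul_self_sqrt (Nat.cast_nonneg q)
  have h1 : d + (t - 1) * e ≤ 2 * a * t := by
    have h2 : (t - 1) * e ≤ (t - 1) * (2 * a) := Nat.mul_le_mul_left _ he
    calc d + (t - 1) * e ≤ 2 * a + (t - 1) * (2 * a) := by omega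
      _ = (t - 1 + 1) * (2 * a) := by ring
      _ = 2 * a * t := by rw [Nat.sub_add_cancel ht1]; ring
  have h1' : ((d + (t - 1) * e : ℕ) : ℝ) ≤ 2 * a * t := by exact_mod_cast h1
  have h2 : ((d + e : ℕ) : ℝ) ≤ 4 * a := by
    have : d + e ≤ 4 * a := by omega
    exact_mod_cast this
  have ha' : (1 : ℝ) ≤ a := by exact_mod_cast ha
  have hb' : (1 : ℝ) ≤ b := by exact_mod_cast hb
  have ht' : (t : ℝ) ≤ 2 * b := by exact_mod_cast ht
  have ht0 : (0 : ℝ) ≤ t := Nat.cast_nonneg t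
  have hb2 : (1 : ℝ) ≤ (b : ℝ) ^ 2 := one_le_pow₀ hb'
  have htt : (t : ℝ) * t ≤ 4 * (b : ℝ) ^ 2 := by nlinarith
  have hab : (1 : ℝ) ≤ a * (b : ℝ) ^ 2 := by nlinarith
  have hs1 : (1 : ℝ) ≤ Real.sqrt q := by nlinarith
  calc (t : ℝ) * (((d + (t - 1) * e : ℕ) : ℝ) * Real.sqrt q) + (d + e : ℕ)
      ≤ (t : ℝ) * ((2 * a * t) * Real.sqrt q) + 4 * a := by
        refine add_le_add (mul_le_mul_of_nonneg_left (mul_le_mul_of_nonneg_right h1' hs0) ht0) h2
    _ = (2 * a) * ((t : ℝ) * t) * Real.sqrt q + 4 * a := by ring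
    _ ≤ (2 * a) * (4 * (b : ℝ) ^ 2) * Real.sqrt q + 4 * a := by
        have : (2 * (a : ℝ)) * ((t : ℝ) * t) ≤ (2 * a) * (4 * (b : ℝ) ^ 2) :=
          mul_le_mul_of_nonneg_left htt (by linarith)
        have := mul_le_mul_of_nonneg_right this hs0
        linarith
    _ ≤ (8 * (a * (b : ℝ) ^ 2)) * Real.sqrt q + (8 * (a * (b : ℝ) ^ 2)) * Real.sqrt q := by
        have h5 : 4 * (a : ℝ) ≤ (8 * (a * (b : ℝ) ^ 2)) * Real.sqrt q := by
          have h6 : (a : ℝ) ≤ a * (b : ℝ) ^ 2 := by nlinarith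
          nlinarith
        nlinarith
    _ = (16 * a * (b : ℝ) ^ 2) * Real.sqrt q := by ring
    _ < Real.sqrt q * Real.sqrt q := mul_lt_mul_of_pos_right hs (by linarith)
    _ = q := hqq

/-- points over finite fields -/
theorem fin_point {A : F[X]} {a b : ℕ} (hA : A.natDegree = a) (ha : 1 ≤ a) (hb : 1 ≤ b) (hchar : ((a : ℕ) : F) ≠ 0)
    (h2 : (2 : F) ≠ 0) (hq : (16 * a * b ^ 2) ^ 2 < Fintype.card F) {m n k : F} (hk : k ≠ 0) (hmn : m ≠ 0 ∨ n ≠ 0) :
    ∃ x y : F, y ≠ 0 ∧ A.eval x ^ 2 - m ≠ 0 ∧ (A.eval x ^ 2 - m) * (y ^ (2 * b) - n) = k := by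
  -- reduction to `t`-th powers
  set t := Nat.gcd (2 * b) (Fintype.card F - 1) with htdef
  have ht2b : t ≤ 2 * b := Nat.le_of_dvd (by omega) (Nat.gcd_dvd_left _ _)
  have htF : t ∣ Fintype.card F - 1 := Nat.gcd_dvd_right _ _
  have hodd : 2 ∣ Fintype.card F - 1 := by
    have h3 : ringChar F ≠ 2 := by
      intro h
      apply h2
      have h4 : ((2 : ℕ) : F) = 0 := (ringChar.spec F 2).2 (by rw [h])
      exact_mod_cast h4
    have h4 := FiniteField.odd_card_of_char_ne_two h3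
    obtain ⟨j, hj⟩ : ∃ j, Fintype.card F = 2 * j + 1 := ⟨Fintype.card F / 2, by omega⟩
    exact ⟨j, by omega⟩
  have ht2 : 2 ≤ t := by
    have h3 : 2 ∣ t := Nat.dvd_gcd ⟨b, rfl⟩ hodd
    have h4 : 0 < t := Nat.gcd_pos_of_pos_left _ (by omega)
    exact Nat.le_of_dvd h4 h3
  suffices h : ∃ x w : F, w ≠ 0 ∧ A.eval x ^ 2 - m ≠ 0 ∧ (A.eval x ^ 2 - m) * (w ^ t - n) = k by
    obtain ⟨x, w, hw, hx, he⟩ := h
    obtain ⟨y, hy, hyw⟩ := pow_gcd (N := 2 * b) hw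
    exact ⟨x, y, hy, hx, by rw [hyw]; exact he⟩
  set l := A.leadingCoeff with hl
  have hl0 : l ≠ 0 := by
    rw [hl]
    refine leadingCoeff_ne_zero.2 ?_
    rintro rfl
    rw [natDegree_zero] at hA
    omega
  have hl2 : l ^ 2 ≠ 0 := pow_ne_zero _ hl0
  set A1 : F[X] := C l⁻¹ * A with hA1
  have hA1m : A1.Monic := by
    rw [Monic, hA1, leadingCoeff_mul, leadingCoeff_C, ← hl, inv_mul_cancel₀ hl0]
  have hA1d : A1.natDegree = a := by
    rw [hA1, natDegree_C_mul (inv_ne_zero hl0), hA]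
  have hev : ∀ x, A.eval x = l * A1.eval x := by
    intro x
    rw [hA1, eval_mul, eval_C, ← mul_assoc, mul_inv_cancel₀ hl0, one_mul]
  have hsq : ∀ c : F, (A1 ^ 2 - C c).Monic ∧ (A1 ^ 2 - C c).natDegree = 2 * a := by
    intro c
    have h3 : (A1 ^ 2).natDegree = 2 * a := by rw [natDegree_pow, hA1d]
    refine ⟨?_, by rw [natDegree_sub_C, h3]⟩
    refine (hA1m.pow 2).sub_of_left ?_
    refine lt_of_le_of_lt degree_C_le ?_
    rw [degree_eq_natDegree (hA1m.pow 2).ne_zero, h3]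
    exact_mod_cast (by omega : 0 < 2 * a)
  have hsimple : ∀ c : F, c ≠ 0 → ∃ Q : F[X], Irreducible Q ∧ Q ∣ A1 ^ 2 - C c ∧ ¬ Q ^ 2 ∣ A1 ^ 2 - C c := by
    intro c hc
    exact simple_factor hA1m (by rw [hA1d]; exact ha) (by rw [hA1d]; exact hchar) h2 hc
  have hcop : ∀ (Q : F[X]) (c d : F), Irreducible Q → c ≠ d → Q ∣ A1 ^ 2 - C c → ¬ Q ∣ A1 ^ 2 - C d := by
    intro Q c d hQ hcd h3 h4
    have h5 : Q ∣ C (d - c) := by
      have := dvd_sub h3 h4
      have h6 : (A1 ^ 2 - C c) - (A1 ^ 2 - C d) = C (d - c) := by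
        rw [C_sub]
        ring
      rwa [h6] at this
    have h6 : IsUnit (C (d - c) : F[X]) := isUnit_C.2 (isUnit_iff_ne_zero.2 (sub_ne_zero.2 hcd.symm))
    exact hQ.not_isUnit (isUnit_of_dvd_unit h5 h6)
  by_cases hn : n = 0
  · have hm : m ≠ 0 := by
      rcases hmn with h | h
      · exact h
      · exact absurd hn h
    have hm' : m / l ^ 2 ≠ 0 := div_ne_zero hm hl2
    obtain ⟨Q, hQ, hQf, hQ2⟩ := hsimple _ hm'
    obtain ⟨x, v, hfx, hgx, hv, he⟩ := exists_pow_value ht2 htF (hsq (m / l ^ 2)).1 (monic_one) hQ hQf hQ2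
      (fun h => hQ.not_isUnit (isUnit_of_dvd_unit h isUnit_one)) hl2 hk
      (size_ok ha hb ht2b (by omega) hq (hsq _).2.le (by rw [natDegree_one]; exact Nat.zero_le _))
    have h3 : A.eval x ^ 2 - m = l ^ 2 * (A1 ^ 2 - C (m / l ^ 2)).eval x := by
      rw [hev, eval_sub, eval_pow, eval_C]
      field_simp
    refine ⟨x, v⁻¹, inv_ne_zero hv, ?_, ?_⟩
    · rw [h3]
      exact mul_ne_zero hl2 hfx
    · rw [h3, ← he, hn, eval_one, mul_one, sub_zero, inv_pow]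
      have hvt : v ^ t ≠ 0 := pow_ne_zero _ hv
      field_simp
  · set c := m - k / n with hc
    by_cases hc0 : c = 0
    · have hmk : m = k / n := by
        rw [hc] at hc0
        exact sub_eq_zero.1 hc0
      have hm : m ≠ 0 := by
        rw [hmk]
        exact div_ne_zero hk hn
      have hm' : m / l ^ 2 ≠ 0 := div_ne_zero hm hl2
      obtain ⟨Q, hQ, hQf, hQ2⟩ := hsimple _ hm'
      have hQA : ¬ Q ∣ A1 ^ 2 := by
        have := hcop Q _ 0 hQ hm' hQf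
        rwa [C_0, sub_zero] at this
      obtain ⟨x, v, hfx, hgx, hv, he⟩ := exists_pow_value ht2 htF (hsq (m / l ^ 2)).1 (hA1m.pow 2) hQ hQf hQ2
        hQA (one_ne_zero) hn
        (size_ok ha hb ht2b (by omega) hq (hsq _).2.le (by rw [natDegree_pow, hA1d]))
      have h3 : A.eval x ^ 2 - m = l ^ 2 * (A1 ^ 2 - C (m / l ^ 2)).eval x := by
        rw [hev, eval_sub, eval_pow, eval_C]
        field_simp
      refine ⟨x, v⁻¹, inv_ne_zero hv, ?_, ?_⟩
      · rw [h3]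
        exact mul_ne_zero hl2 hfx
      · have hvt : v ^ t ≠ 0 := pow_ne_zero _ hv
        rw [one_mul] at he
        have h5 : (A1 ^ 2 - C (m / l ^ 2)).eval x = A1.eval x ^ 2 - m / l ^ 2 := by
          rw [eval_sub, eval_pow, eval_C]
        have h6 : v ^ t * (n * A1.eval x ^ 2) = (A1 ^ 2 - C (m / l ^ 2)).eval x := by
          rw [← he, eval_pow]
        rw [h3, inv_pow]
        have h7 : (A1 ^ 2 - C (m / l ^ 2)).eval x * (v ^ t)⁻¹ = n * A1.eval x ^ 2 := by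
          rw [← h6]
          field_simp
        calc l ^ 2 * (A1 ^ 2 - C (m / l ^ 2)).eval x * ((v ^ t)⁻¹ - n)
            = l ^ 2 * ((A1 ^ 2 - C (m / l ^ 2)).eval x * (v ^ t)⁻¹ - n * (A1 ^ 2 - C (m / l ^ 2)).eval x) := by ring
          _ = l ^ 2 * (n * A1.eval x ^ 2 - n * (A1.eval x ^ 2 - m / l ^ 2)) := by rw [h7, h5]
          _ = n * m := by field_simp; ring
          _ = k := by rw [hmk]; field_simp
    · have hc' : c / l ^ 2 ≠ 0 := div_ne_zero hc0 hl2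
      obtain ⟨Q, hQ, hQf, hQ2⟩ := hsimple _ hc'
      have hne : c / l ^ 2 ≠ m / l ^ 2 := by
        intro h
        rw [div_left_inj' hl2, hc, sub_eq_self] at h
        exact (div_ne_zero hk hn) h
      obtain ⟨x, v, hfx, hgx, hv, he⟩ := exists_pow_value ht2 htF (hsq (c / l ^ 2)).1 (hsq (m / l ^ 2)).1 hQ hQf hQ2
        (hcop Q _ _ hQ hne hQf) hn (one_ne_zero)
        (size_ok ha hb ht2b (by omega) hq (hsq _).2.le (hsq _).2.le)
      have h3 : A.eval x ^ 2 - m = l ^ 2 * (A1 ^ 2 - C (m / l ^ 2)).eval x := by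
        rw [hev, eval_sub, eval_pow, eval_C]
        field_simp
      refine ⟨x, v, hv, ?_, ?_⟩
      · rw [h3]
        exact mul_ne_zero hl2 hgx
      · rw [one_mul] at he
        have h5 : ∀ d : F, (A1 ^ 2 - C d).eval x = A1.eval x ^ 2 - d := by
          intro d
          rw [eval_sub, eval_pow, eval_C]
        rw [h5, h5] at he
        rw [h3, h5]
        calc l ^ 2 * (A1.eval x ^ 2 - m / l ^ 2) * (v ^ t - n)
            = l ^ 2 * (v ^ t * (A1.eval x ^ 2 - m / l ^ 2) - n * (A1.eval x ^ 2 - m / l ^ 2)) := by ring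
          _ = l ^ 2 * (n * (A1.eval x ^ 2 - c / l ^ 2) - n * (A1.eval x ^ 2 - m / l ^ 2)) := by rw [he]
          _ = n * (m - c) := by field_simp; ring
          _ = k := by rw [hc]; field_simp; ring

end fin

/-- **points modulo large primes** -/
theorem modp (A : ℤ[X]) (hA : 1 ≤ A.natDegree) {b : ℕ} (hb : 1 ≤ b) {k : ℤ} (hk : k ≠ 0) :
    ∃ P0 : ℕ, ∀ p : ℕ, ∀ _ : Fact p.Prime, P0 < p → ∀ m n : ZMod p, (m ≠ 0 ∨ n ≠ 0) →
      ∃ x y : ZMod p, y ≠ 0 ∧ (A.map (Int.castRingHom (ZMod p))).eval x ^ 2 - m ≠ 0 ∧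
        ((A.map (Int.castRingHom (ZMod p))).eval x ^ 2 - m) * (y ^ (2 * b) - n) = (k : ZMod p) := by
  refine ⟨(16 * A.natDegree * b ^ 2) ^ 2 + k.natAbs + A.leadingCoeff.natAbs + A.natDegree + 2, ?_⟩
  intro p hp hlt m n hmn
  have hnz : ∀ z : ℤ, z ≠ 0 → z.natAbs < p → ((z : ℤ) : ZMod p) ≠ 0 := by
    intro z hz hzp h
    rw [ZMod.intCast_zmod_eq_zero_iff_dvd] at h
    have h1 := Int.natAbs_dvd_natAbs.2 h
    rw [Int.natAbs_natCast] at h1
    have h2 := Nat.le_of_dvd (Int.natAbs_pos.2 hz) h1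
    omega
  have hA0 : A ≠ 0 := by
    rintro rfl
    rw [natDegree_zero] at hA
    omega
  have hlead : (Int.castRingHom (ZMod p)) A.leadingCoeff ≠ 0 := by
    rw [eq_intCast]
    exact hnz _ (leadingCoeff_ne_zero.2 hA0) (by omega)
  refine fin_point (a := A.natDegree) (natDegree_map_of_leadingCoeff_ne_zero _ hlead) hA hb ?_ ?_ ?_
    (hnz k hk (by omega)) hmn
  · have := hnz (A.natDegree : ℤ) (by exact_mod_cast (by omega : A.natDegree ≠ 0)) (by rw [Int.natAbs_natCast]; omega)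
    exact_mod_cast this
  · have := hnz 2 (by norm_num) (by
      have : (2 : ℤ).natAbs = 2 := rfl
      omega)
    exact_mod_cast this
  · rw [ZMod.card]
    omega

end Pool.Agent.H82.ST
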