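import Pool.Agent.H474R2.GE.FA

/-!
# Mertens' theorem for quadratic characters (copied from `Pool.Agent.N92.PO.Mert`, with fewer imports)
-/

set_option autoImplicit false
set_option linter.unusedSectionVars false

namespace Pool.Agent.H82.ST.QM

open Finset Filter Polynomial
open Pool.Agent.H474R2.PG (rho Sg PR mertens_lower rho_le)
open Pool.Agent.H474R2.GE (mertens_rho)
open scoped NumberTheorySymbols

theorem mem_PR {w : ℝ} {p : ℕ} : p ∈ PR w ↔ p.Prime ∧ p ≤ ⌊w⌋₊ := by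
  unfold PR
  rw [Finset.mem_filter, Finset.mem_Icc]
  exact ⟨fun h => ⟨h.2, h.1.2⟩, fun h => ⟨⟨h.1.one_lt.le, h.2⟩, h.1⟩⟩

/-- Mertens' theorem for primes -/
theorem mert_one : ∃ C : ℝ, 0 ≤ C ∧ ∀ w : ℝ, 3 ≤ w →
    |∑ p ∈ PR w, (1 : ℝ) / p - Real.log (Real.log w)| ≤ C := by
  obtain ⟨C, hC, h⟩ := mertens_rho X (by exact Polynomial.irreducible_X)
    (by rw [natDegree_X]; norm_num)
  refine ⟨C, hC, fun w hw => ?_⟩
  have h1 : Sg (rho X) w = ∑ p ∈ PR w, (1 : ℝ) / p := by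
    unfold Sg
    refine Finset.sum_congr rfl fun p hp => ?_
    have hp' := (mem_PR.1 hp).1
    have : rho X p = 1 := by
      unfold rho
      rw [Finset.card_eq_one]
      refine ⟨0, ?_⟩
      ext a
      rw [Finset.mem_filter, Finset.mem_range, Finset.mem_singleton, eval_X]
      constructor
      · rintro ⟨h1, h2⟩
        have h3 : p ∣ a := by exact_mod_cast h2
        exact Nat.eq_zero_of_dvd_of_lt h3 h1
      · rintro rfl
        exact ⟨hp'.pos, by simp⟩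
    rw [this, Nat.cast_one]
  rw [← h1]
  exact h w hw

/-- the roots of `X ^ 2 - D` modulo an odd prime -/
theorem rho_quad (D : ℤ) {p : ℕ} (hp : p.Prime) (h2 : p ≠ 2) :
    (rho (X ^ 2 - C D) p : ℤ) = 1 + J(D | p) := by
  classical
  have hF : Fact p.Prime := ⟨hp⟩
  have h1 := legendreSym.card_sqrts p h2 D
  rw [← jacobiSym.legendreSym.to_jacobiSym, add_comm, ← h1]
  unfold rho
  congr 1
  refine Finset.card_bij (fun a _ => (a : ZMod p)) ?_ ?_ ?_
  · intro a ha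
    rw [Finset.mem_filter, Finset.mem_range] at ha
    rw [Set.mem_toFinset, Set.mem_ofPred_eq]
    have h3 := ha.2
    rw [eval_sub, eval_pow, eval_X, eval_C, ← ZMod.intCast_zmod_eq_zero_iff_dvd] at h3
    push_cast at h3
    exact sub_eq_zero.1 h3
  · intro a ha b hb hab
    rw [Finset.mem_filter, Finset.mem_range] at ha hb
    rw [ZMod.natCast_eq_natCast_iff'] at hab
    rwa [Nat.mod_eq_of_lt ha.1, Nat.mod_eq_of_lt hb.1] at hab
  · intro z hz
    rw [Set.mem_toFinset, Set.mem_ofPred_eq] at hz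
    refine ⟨z.val, ?_, by simp⟩
    rw [Finset.mem_filter, Finset.mem_range]
    refine ⟨ZMod.val_lt z, ?_⟩
    rw [eval_sub, eval_pow, eval_X, eval_C, ← ZMod.intCast_zmod_eq_zero_iff_dvd]
    push_cast
    rw [ZMod.natCast_val, ZMod.cast_id', id, hz, sub_self]

theorem irr_quad {D : ℤ} (hD : ¬ IsSquare D) : Irreducible (X ^ 2 - C D : ℤ[X]) := by
  have hm : (X ^ 2 - C D : ℤ[X]).Monic := monic_X_pow_sub_C D (by norm_num)
  have hn : (X ^ 2 - C D : ℤ[X]).natDegree = 2 := natDegree_X_pow_sub_C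
  rw [hm.irreducible_iff_roots_eq_zero_of_degree_le_three (by rw [hn]) (by rw [hn]; norm_num)]
  rw [Multiset.eq_zero_iff_forall_notMem]
  intro a ha
  rw [mem_roots hm.ne_zero, IsRoot.def, eval_sub, eval_pow, eval_X, eval_C] at ha
  exact hD ⟨a, by rw [← pow_two]; linarith⟩

/-- The sum of `(D / p) / p` is bounded, if `D` is not a square. -/
theorem mert_char {D : ℤ} (hD : ¬ IsSquare D) : ∃ C : ℝ, 0 ≤ C ∧ ∀ w : ℝ, 3 ≤ w →
    |∑ p ∈ (PR w).filter (fun p => p ≠ 2), (J(D | p) : ℝ) / p| ≤ C := by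
  obtain ⟨C₁, hC₁, h1⟩ := mertens_rho _ (irr_quad hD) (by
    rw [natDegree_X_pow_sub_C]; norm_num)
  obtain ⟨C₂, hC₂, h2⟩ := mert_one
  refine ⟨C₁ + C₂ + 1 + 1, by positivity, fun w hw => ?_⟩
  have a1 := h1 w hw
  have a2 := h2 w hw
  have e1 : Sg (rho (X ^ 2 - C D)) w =
      ∑ p ∈ (PR w).filter (fun p => p ≠ 2), (rho (X ^ 2 - C D) p : ℝ) / p +
      ∑ p ∈ (PR w).filter (fun p => ¬ p ≠ 2), (rho (X ^ 2 - C D) p : ℝ) / p := by
    unfold Sg
    rw [Finset.sum_filter_add_sum_filter_not]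
  have e2 : ∑ p ∈ PR w, (1 : ℝ) / p =
      ∑ p ∈ (PR w).filter (fun p => p ≠ 2), (1 : ℝ) / p +
      ∑ p ∈ (PR w).filter (fun p => ¬ p ≠ 2), (1 : ℝ) / p := by
    rw [Finset.sum_filter_add_sum_filter_not]
  have hsub : (PR w).filter (fun p => ¬ p ≠ 2) ⊆ {2} := by
    intro p hp
    rw [Finset.mem_filter, not_not] at hp
    rw [Finset.mem_singleton]
    exact hp.2
  have b1 : |∑ p ∈ (PR w).filter (fun p => ¬ p ≠ 2), (rho (X ^ 2 - C D) p : ℝ) / p| ≤ 1 := by
    rw [abs_of_nonneg (Finset.sum_nonneg fun p _ => by positivity)]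
    refine (Finset.sum_le_sum_of_subset_of_nonneg hsub fun p _ _ => by positivity).trans ?_
    rw [Finset.sum_singleton, div_le_one (by norm_num)]
    have := Pool.Agent.H474R2.PG.rho_le_self (X ^ 2 - C D) 2
    exact_mod_cast this
  have b2 : |∑ p ∈ (PR w).filter (fun p => ¬ p ≠ 2), (1 : ℝ) / p| ≤ 1 := by
    rw [abs_of_nonneg (Finset.sum_nonneg fun p _ => by positivity)]
    refine (Finset.sum_le_sum_of_subset_of_nonneg hsub fun p _ _ => by positivity).trans ?_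
    rw [Finset.sum_singleton]
    norm_num
  have e3 : ∑ p ∈ (PR w).filter (fun p => p ≠ 2), (J(D | p) : ℝ) / p =
      ∑ p ∈ (PR w).filter (fun p => p ≠ 2), (rho (X ^ 2 - C D) p : ℝ) / p -
      ∑ p ∈ (PR w).filter (fun p => p ≠ 2), (1 : ℝ) / p := by
    rw [← Finset.sum_sub_distrib]
    refine Finset.sum_congr rfl fun p hp => ?_
    rw [Finset.mem_filter] at hp
    have h3 := rho_quad D (mem_PR.1 hp.1).1 hp.2
    have h4 : (rho (X ^ 2 - C D) p : ℝ) = 1 + (J(D | p) : ℝ) := by exact_mod_cast h3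
    rw [h4]
    ring
  have e4 : ∑ p ∈ (PR w).filter (fun p => p ≠ 2), (J(D | p) : ℝ) / p =
      (Sg (rho (X ^ 2 - C D)) w - Real.log (Real.log w)) -
      (∑ p ∈ PR w, (1 : ℝ) / p - Real.log (Real.log w)) -
      ∑ p ∈ (PR w).filter (fun p => ¬ p ≠ 2), (rho (X ^ 2 - C D) p : ℝ) / p +
      ∑ p ∈ (PR w).filter (fun p => ¬ p ≠ 2), (1 : ℝ) / p := by
    rw [e3, e1, e2]
    ring
  rw [e4]
  rw [abs_le] at a1 a2 b1 b2 ⊢
  constructor <;> linarith [a1.1, a1.2, a2.1, a2.2, b1.1, b1.2, b2.1, b2.2]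

end Pool.Agent.H82.ST.QM
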