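import Pool.Agent.H82.ST.Up
import Pool.Agent.H82.ST.QM

/-!
# The integers without a prime factor at which a given integer is a nonresidue
-/

set_option autoImplicit false

namespace Pool.Agent.H82.ST

open Finset Pool.Agent.H14Q
open Pool.Agent.H474R2.PG (PR)
open scoped NumberTheorySymbols

open Classical in
/-- Mertens for the nonresidues -/
theorem nr_sum {g : ℤ} (hg : ¬ IsSquare g) : ∃ C : ℝ, 0 ≤ C ∧ ∀ w : ℝ, 3 ≤ w →
    |2 * ∑ p ∈ (PR w).filter (fun p => p ≠ 2 ∧ NR p g), (1 : ℝ) / p - Real.log (Real.log w)| ≤ C := by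
  obtain ⟨C1, hC1, h1⟩ := Pool.Agent.H82.ST.QM.mert_one
  obtain ⟨C2, hC2, h2⟩ := Pool.Agent.H82.ST.QM.mert_char hg
  set Sg := ∑ p ∈ g.natAbs.primeFactors, (1 : ℝ) / p with hSg
  have hSg0 : 0 ≤ Sg := Finset.sum_nonneg fun _ _ => by positivity
  refine ⟨C1 + C2 + Sg + 1, by positivity, fun w hw => ?_⟩
  have hpr : ∀ p ∈ PR w, p.Prime := fun p hp => (Pool.Agent.H82.ST.QM.mem_PR.1 hp).1
  have e1 : 2 * ∑ p ∈ (PR w).filter (fun p => p ≠ 2 ∧ NR p g), (1 : ℝ) / p =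
      ∑ p ∈ (PR w).filter (fun p => p ≠ 2), (1 : ℝ) / p -
      ∑ p ∈ (PR w).filter (fun p => p ≠ 2), (J(g | p) : ℝ) / p -
      ∑ p ∈ (PR w).filter (fun p => p ≠ 2), (if (p : ℤ) ∣ g then (1 : ℝ) / p else 0) := by
    have : (PR w).filter (fun p => p ≠ 2 ∧ NR p g) = ((PR w).filter (fun p => p ≠ 2)).filter (fun p => NR p g) := by
      rw [Finset.filter_filter]
    rw [this, Finset.sum_filter, Finset.mul_sum, ← Finset.sum_sub_distrib, ← Finset.sum_sub_distrib]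
    refine Finset.sum_congr rfl fun p hp => ?_
    rw [Finset.mem_filter] at hp
    have hpp := hpr p hp.1
    have : Fact p.Prime := ⟨hpp⟩
    have hp0 : (0 : ℝ) < p := by exact_mod_cast hpp.pos
    rw [← jacobiSym.legendreSym.to_jacobiSym]
    by_cases hd : (p : ℤ) ∣ g
    · have h3 : ((g : ℤ) : ZMod p) = 0 := (ZMod.intCast_zmod_eq_zero_iff_dvd g p).2 hd
      have h4 : ¬ NR p g := by
        intro h
        apply h
        rw [h3]
        exact IsSquare.zero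
      rw [if_neg h4, if_pos hd, (legendreSym.eq_zero_iff p g).2 h3]
      simp
    · have h3 : ((g : ℤ) : ZMod p) ≠ 0 := by
        rw [ne_eq, ZMod.intCast_zmod_eq_zero_iff_dvd]
        exact hd
      rw [if_neg hd]
      by_cases h4 : NR p g
      · have h5 : legendreSym p g = -1 := (legendreSym.eq_neg_one_iff p).2 h4
        rw [if_pos h4, h5]
        push_cast
        ring
      · have h5 : legendreSym p g = 1 := (legendreSym.eq_one_iff p h3).2 (not_not.1 h4)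
        rw [if_neg h4, h5]
        simp
  have e2 : ∑ p ∈ PR w, (1 : ℝ) / p - 1 ≤ ∑ p ∈ (PR w).filter (fun p => p ≠ 2), (1 : ℝ) / p ∧
      ∑ p ∈ (PR w).filter (fun p => p ≠ 2), (1 : ℝ) / p ≤ ∑ p ∈ PR w, (1 : ℝ) / p := by
    refine ⟨?_, Finset.sum_le_sum_of_subset_of_nonneg (Finset.filter_subset _ _) fun _ _ _ => by positivity⟩
    have h3 : ∑ p ∈ PR w, (1 : ℝ) / p ≤ ∑ p ∈ (PR w).filter (fun p => p ≠ 2), (1 : ℝ) / p +
        ∑ p ∈ ({2} : Finset ℕ), (1 : ℝ) / p := by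
      rw [← Finset.sum_union]
      · refine Finset.sum_le_sum_of_subset_of_nonneg ?_ fun _ _ _ => by positivity
        intro p hp
        rw [Finset.mem_union, Finset.mem_filter, Finset.mem_singleton]
        by_cases h : p = 2
        · exact Or.inr h
        · exact Or.inl ⟨hp, h⟩
      · rw [Finset.disjoint_singleton_right, Finset.mem_filter]
        rintro ⟨-, h⟩
        exact h rfl
    rw [Finset.sum_singleton] at h3
    norm_num at h3
    norm_num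
    linarith
  have e3 : 0 ≤ ∑ p ∈ (PR w).filter (fun p => p ≠ 2), (if (p : ℤ) ∣ g then (1 : ℝ) / p else 0) ∧
      ∑ p ∈ (PR w).filter (fun p => p ≠ 2), (if (p : ℤ) ∣ g then (1 : ℝ) / p else 0) ≤ Sg := by
    refine ⟨Finset.sum_nonneg fun p _ => by split_ifs <;> positivity, ?_⟩
    rw [← Finset.sum_filter, hSg]
    refine Finset.sum_le_sum_of_subset_of_nonneg ?_ fun _ _ _ => by positivity
    intro p hp
    rw [Finset.mem_filter, Finset.mem_filter] at hp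
    rw [Nat.mem_primeFactors]
    refine ⟨hpr p hp.1.1, Int.natCast_dvd.1 hp.2, Int.natAbs_ne_zero.2 ?_⟩
    rintro rfl
    exact hg IsSquare.zero
  have a1 := abs_le.1 (h1 w hw)
  have a2 := abs_le.1 (h2 w hw)
  rw [e1, abs_le]
  constructor
  · linarith [a1.1, a2.2, e2.1, e3.2]
  · linarith [a1.2, a2.1, e2.2, e3.1]

theorem card_mult {H s : ℕ} (hs : 1 ≤ s) (hsH : s ≤ H) :
    (((Icc (-(H : ℤ)) H).filter fun m => (s : ℤ) ∣ m).card : ℝ) ≤ 3 * H * (1 / s) := by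
  have h1 : ((Icc (-(H : ℤ)) H).filter fun m => (s : ℤ) ∣ m).card ≤ (Icc (-((H / s : ℕ) : ℤ)) ((H / s : ℕ) : ℤ)).card := by
    refine Finset.card_le_card_of_injOn (fun m => m / s) ?_ ?_
    · intro m hm
      rw [Finset.mem_coe, mem_filter, mem_Icc] at hm
      obtain ⟨⟨h1, h2⟩, c, rfl⟩ := hm
      have hs0 : (0 : ℤ) < s := by exact_mod_cast hs
      rw [Finset.mem_coe, mem_Icc]
      simp only
      rw [Int.mul_ediv_cancel_left _ hs0.ne']
      push_cast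
      constructor
      · have : -c ≤ (H : ℤ) / s := by
          rw [Int.le_ediv_iff_mul_le hs0]
          nlinarith
        linarith
      · rw [Int.le_ediv_iff_mul_le hs0]
        nlinarith
    · intro a ha b hb hab
      rw [Finset.mem_coe, mem_filter] at ha hb
      simp only at hab
      rw [← Int.ediv_mul_cancel ha.2, ← Int.ediv_mul_cancel hb.2, hab]
  rw [Int.card_Icc] at h1
  have h2 : ((((H / s : ℕ) : ℤ) + 1 - -((H / s : ℕ) : ℤ)).toNat : ℝ) = 2 * ((H / s : ℕ) : ℝ) + 1 := by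
    have : (((H / s : ℕ) : ℤ) + 1 - -((H / s : ℕ) : ℤ)).toNat = 2 * (H / s) + 1 := by omega
    rw [this]
    push_cast
    ring
  have h3 : (((Icc (-(H : ℤ)) H).filter fun m => (s : ℤ) ∣ m).card : ℝ) ≤ 2 * ((H / s : ℕ) : ℝ) + 1 := by
    rw [← h2]
    exact_mod_cast h1
  have hs0 : (0 : ℝ) < s := by exact_mod_cast hs
  have h4 : ((H / s : ℕ) : ℝ) ≤ (H : ℝ) / s := Nat.cast_div_le
  have h5 : (1 : ℝ) ≤ (H : ℝ) / s := by
    rw [le_div_iff₀ hs0, one_mul]
    exact_mod_cast hsH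
  calc (((Icc (-(H : ℤ)) H).filter fun m => (s : ℤ) ∣ m).card : ℝ) ≤ 2 * ((H / s : ℕ) : ℝ) + 1 := h3
    _ ≤ 3 * ((H : ℝ) / s) := by linarith
    _ = 3 * H * (1 / s) := by ring

open Classical in
/-- **the integers without a suitable prime** -/
theorem badset {g K : ℤ} (hg : ¬ IsSquare g) (hK : K ≠ 0) : ∃ C : ℝ, 0 < C ∧ ∀ H : ℕ, 16 ≤ H →
    (((Icc (-(H : ℤ)) H).filter fun m => ¬ ∃ q : ℕ, q.Prime ∧ q ≠ 2 ∧ ¬ (q : ℤ) ∣ K ∧ (q : ℤ) ∣ m ∧
      ¬ (q : ℤ) ^ 2 ∣ m ∧ NR q g).card : ℝ) ≤ C * H * rho H := by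
  obtain ⟨C1, hC1, hs⟩ := sieve 1 1 one_pos
  obtain ⟨C2, hC2, hM⟩ := nr_sum hg
  set Sk := ∑ t ∈ K.natAbs.primeFactors, (1 : ℝ) / t with hSk
  have hSk0 : 0 ≤ Sk := Finset.sum_nonneg fun t _ => by positivity
  refine ⟨6 + 3 * C1 * Real.exp (C2 + Sk + Real.log 8 / 2), by positivity, ?_⟩
  intro H hH
  obtain ⟨hL, hLL⟩ := logs hH
  have hHr : (16 : ℝ) ≤ H := by exact_mod_cast hH
  set L := Real.log H with hLdef
  set y := ⌊L⌋₊ with hy
  set Q := Nat.sqrt H with hQ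
  have hy2 : 2 ≤ y := Nat.le_floor (by push_cast; linarith)
  have hyL : (y : ℝ) ≤ L := Nat.floor_le (by linarith)
  have hyL' : L < y + 1 := Nat.lt_floor_add_one L
  have hQ4 : 4 ≤ Q := by
    rw [hQ, Nat.le_sqrt]
    omega
  have hQH : Q * Q ≤ H := Nat.sqrt_le H
  have hQlog : L ≤ 4 * Real.log Q := by
    have h1 : H < (Q + 1) * (Q + 1) := Nat.lt_succ_sqrt H
    have h2 : (H : ℝ) ≤ (Q : ℝ) ^ 4 := by
      have h3 : H ≤ Q ^ 4 := by
        have h4 : Q + 1 ≤ Q * Q := by nlinarith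
        calc H ≤ (Q + 1) * (Q + 1) := h1.le
          _ ≤ (Q * Q) * (Q * Q) := Nat.mul_le_mul h4 h4
          _ = Q ^ 4 := by ring
      exact_mod_cast h3
    rw [hLdef]
    calc Real.log H ≤ Real.log ((Q : ℝ) ^ 4) := Real.log_le_log (by linarith) h2
      _ = 4 * Real.log Q := by rw [Real.log_pow]; norm_num
  have hlQ : 0 < Real.log Q := by linarith
  -- log log
  have h1 : Real.log L - Real.log 4 ≤ Real.log (Real.log Q) := by
    rw [← Real.log_div (by linarith) (by norm_num)]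
    exact Real.log_le_log (by linarith) (by linarith)
  have h2 : Real.log (Real.log ((y + 1 : ℕ) : ℝ)) ≤ Real.log 2 + Real.log (Real.log L) := by
    rw [← Real.log_mul (by norm_num) (by linarith)]
    have h3 : (0 : ℝ) < Real.log ((y + 1 : ℕ) : ℝ) := by
      refine Real.log_pos ?_
      push_cast
      have : (2 : ℝ) ≤ y := by exact_mod_cast hy2
      linarith
    refine Real.log_le_log h3 ?_
    have h4 : ((y + 1 : ℕ) : ℝ) ≤ L ^ 2 := by
      push_cast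
      nlinarith
    calc Real.log ((y + 1 : ℕ) : ℝ) ≤ Real.log (L ^ 2) := Real.log_le_log (by positivity) h4
      _ = 2 * Real.log L := by rw [Real.log_pow]; norm_num
  set P2 := (prs y Q K.natAbs).filter (fun t => NR t g) with hP2
  have hP2m : ∀ t ∈ P2, t ≤ Q ∧ t.Prime ∧ y < t ∧ ¬ t ∣ K.natAbs ∧ NR t g := by
    intro t ht
    rw [hP2, mem_filter, mem_prs] at ht
    exact ⟨ht.1.1, ht.1.2.1, ht.1.2.2.1, ht.1.2.2.2, ht.2⟩
  have h3 : ∑ p ∈ (PR (Q : ℝ)).filter (fun p => p ≠ 2 ∧ NR p g), (1 : ℝ) / p ≤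
      ∑ t ∈ P2, (1 : ℝ) / t + ∑ p ∈ (PR ((y + 1 : ℕ) : ℝ)).filter (fun p => p ≠ 2 ∧ NR p g), (1 : ℝ) / p + Sk := by
    have hsub : (PR (Q : ℝ)).filter (fun p => p ≠ 2 ∧ NR p g) ⊆
        (P2 ∪ (PR ((y + 1 : ℕ) : ℝ)).filter (fun p => p ≠ 2 ∧ NR p g)) ∪ K.natAbs.primeFactors := by
      intro t ht
      rw [mem_filter, Pool.Agent.H82.ST.QM.mem_PR, Nat.floor_natCast] at ht
      rw [mem_union, mem_union, hP2, mem_filter, mem_prs, mem_filter, Pool.Agent.H82.ST.QM.mem_PR,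
        Nat.floor_natCast, Nat.mem_primeFactors]
      by_cases h4 : t ∣ K.natAbs
      · exact Or.inr ⟨ht.1.1, h4, Int.natAbs_ne_zero.2 hK⟩
      · by_cases h5 : y < t
        · exact Or.inl (Or.inl ⟨⟨ht.1.2, ht.1.1, h5, h4⟩, ht.2.2⟩)
        · exact Or.inl (Or.inr ⟨⟨ht.1.1, by omega⟩, ht.2⟩)
    have hn : ∀ t : ℕ, 0 ≤ (1 : ℝ) / t := fun t => by positivity
    refine (Finset.sum_le_sum_of_subset_of_nonneg hsub fun t _ _ => hn t).trans ?_
    have e1 := Finset.sum_union_inter (f := fun t : ℕ => (1 : ℝ) / t)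
      (s₁ := P2 ∪ (PR ((y + 1 : ℕ) : ℝ)).filter (fun p => p ≠ 2 ∧ NR p g)) (s₂ := K.natAbs.primeFactors)
    have e2 := Finset.sum_union_inter (f := fun t : ℕ => (1 : ℝ) / t)
      (s₁ := P2) (s₂ := (PR ((y + 1 : ℕ) : ℝ)).filter (fun p => p ≠ 2 ∧ NR p g))
    have n1 := Finset.sum_nonneg fun t (_ : t ∈ (P2 ∪ (PR ((y + 1 : ℕ) : ℝ)).filter
      (fun p => p ≠ 2 ∧ NR p g)) ∩ K.natAbs.primeFactors) => hn t
    have n2 := Finset.sum_nonneg fun t (_ : t ∈ P2 ∩ (PR ((y + 1 : ℕ) : ℝ)).filter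
      (fun p => p ≠ 2 ∧ NR p g)) => hn t
    linarith
  have hQ3 : (3 : ℝ) ≤ (Q : ℝ) := by
    have : (4 : ℝ) ≤ (Q : ℝ) := by exact_mod_cast hQ4
    linarith
  have hy3 : (3 : ℝ) ≤ ((y + 1 : ℕ) : ℝ) := by
    have : 3 ≤ y + 1 := by omega
    exact_mod_cast this
  have h4 := (abs_le.1 (hM Q hQ3)).1
  have h5 := (abs_le.1 (hM ((y + 1 : ℕ) : ℝ) hy3)).2
  have hlog8 : Real.log 8 = Real.log 4 + Real.log 2 := by
    rw [← Real.log_mul (by norm_num) (by norm_num)]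
    norm_num
  have h6 : -∑ t ∈ P2, (1 : ℝ) / t ≤ (C2 + Sk + Real.log 8 / 2) + 1 / 2 * (Real.log (Real.log L) - Real.log L) := by
    rw [hlog8]
    linarith
  have hexp : Real.exp (-∑ t ∈ P2, (1 : ℝ) / t) ≤ Real.exp (C2 + Sk + Real.log 8 / 2) * rho H := by
    have h7 : Real.exp (1 / 2 * (Real.log (Real.log L) - Real.log L)) = rho H := by
      unfold rho
      rw [← hLdef, Real.sqrt_eq_rpow, Real.rpow_def_of_pos (div_pos (by linarith) (by linarith)),
        Real.log_div (by linarith) (by linarith)]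
      congr 1
      ring
    refine (Real.exp_le_exp.2 h6).trans ?_
    rw [Real.exp_add, h7]
  -- the sieve
  set Z := (Icc (-(H : ℤ)) H).filter (fun m => ∀ t ∈ P2, ¬ (t : ℤ) ∣ m) with hZ
  have hinj : Function.Injective (fun (m : ℤ) => (fun _ : Fin 1 => m)) := fun a b h => congrFun h 0
  have hZc := hs (2 * H + 1) 1 Q ∅ P2 (fun _ => -(H : ℤ) - 1) (Z.image fun (m : ℤ) => (fun _ : Fin 1 => m))
    (fun t => 1 / t) (by omega) (by omega) (by nlinarith) (Finset.disjoint_empty_left _) (by simp)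
    (by
      intro t ht
      rw [Finset.empty_union] at ht
      exact (hP2m t ht).2.1)
    (fun t ht => (hP2m t ht).1) (by simp)
    (fun t ht => ⟨by
      have : (0 : ℝ) < t := by exact_mod_cast (hP2m t ht).2.1.pos
      positivity, le_rfl⟩)
    (by
      intro z hz i
      obtain ⟨m, hm, rfl⟩ := Finset.mem_image.1 hz
      rw [hZ, mem_filter, mem_Icc] at hm
      push_cast
      show -(H : ℤ) - 1 < m ∧ m ≤ -(H : ℤ) - 1 + (2 * H + 1)
      omega)
    (by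
      intro t ht
      rw [Finset.empty_union] at ht
      have htp := (hP2m t ht).2.1
      have ht0 : (0 : ℝ) < t := by exact_mod_cast htp.pos
      refine ⟨{fun _ => 0}, ?_, ?_⟩
      · rw [Finset.card_singleton, pow_one, one_div, inv_mul_cancel₀ ht0.ne']
        norm_num
      · intro z hz hmem
        obtain ⟨m, hm, rfl⟩ := Finset.mem_image.1 hz
        rw [Finset.mem_singleton] at hmem
        have h7 := congrFun hmem 0
        simp only at h7
        rw [ZMod.intCast_zmod_eq_zero_iff_dvd] at h7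
        rw [hZ, mem_filter] at hm
        exact hm.2 t ht h7)
  rw [Finset.card_image_of_injective _ hinj, Finset.prod_empty, mul_one, pow_one] at hZc
  have hrho0 : 0 ≤ rho H := Real.sqrt_nonneg _
  have hZ2 : (Z.card : ℝ) ≤ 3 * C1 * Real.exp (C2 + Sk + Real.log 8 / 2) * H * rho H := by
    refine hZc.trans ?_
    have h7 : ((2 * H + 1 : ℕ) : ℝ) ≤ 3 * H := by
      push_cast
      linarith
    calc C1 * ((2 * H + 1 : ℕ) : ℝ) * Real.exp (-∑ t ∈ P2, (1 : ℝ) / t)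
        ≤ C1 * (3 * H) * (Real.exp (C2 + Sk + Real.log 8 / 2) * rho H) := by
          refine mul_le_mul (mul_le_mul_of_nonneg_left h7 hC1.le) hexp (Real.exp_pos _).le (by positivity)
      _ = _ := by ring
  -- the squares
  have hrho : 1 / (y : ℝ) ≤ 2 * rho H := by
    have hy0 : (0 : ℝ) < y := by
      have : (2 : ℝ) ≤ y := by exact_mod_cast hy2
      linarith
    have h7 : 1 / (y : ℝ) ≤ 2 * (1 / L) := by
      rw [← mul_div_assoc, mul_one, div_le_div_iff₀ hy0 (by linarith)]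
      linarith
    refine h7.trans ?_
    refine mul_le_mul_of_nonneg_left ?_ (by norm_num)
    unfold rho
    rw [← hLdef]
    refine Real.le_sqrt_of_sq_le ?_
    rw [div_pow, one_pow, div_le_div_iff₀ (by positivity) (by linarith)]
    nlinarith
  have hsub : ((Icc (-(H : ℤ)) H).filter fun m => ¬ ∃ q : ℕ, q.Prime ∧ q ≠ 2 ∧ ¬ (q : ℤ) ∣ K ∧ (q : ℤ) ∣ m ∧
      ¬ (q : ℤ) ^ 2 ∣ m ∧ NR q g) ⊆
      (P2.biUnion fun t => (Icc (-(H : ℤ)) H).filter fun m => ((t ^ 2 : ℕ) : ℤ) ∣ m) ∪ Z := by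
    intro m hm
    rw [mem_filter] at hm
    rw [mem_union, mem_biUnion]
    by_cases h7 : ∀ t ∈ P2, ¬ (t : ℤ) ∣ m
    · right
      rw [hZ, mem_filter]
      exact ⟨hm.1, h7⟩
    · left
      push Not at h7
      obtain ⟨t, ht, htm⟩ := h7
      refine ⟨t, ht, mem_filter.2 ⟨hm.1, ?_⟩⟩
      by_contra h8
      obtain ⟨-, htp, hyt, htK, hnr⟩ := hP2m t ht
      refine hm.2 ⟨t, htp, by omega, ?_, htm, ?_, hnr⟩
      · rwa [← Int.natCast_dvd] at htK
      · push_cast at h8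
        exact h8
  have hc1 : (((Icc (-(H : ℤ)) H).filter fun m => ¬ ∃ q : ℕ, q.Prime ∧ q ≠ 2 ∧ ¬ (q : ℤ) ∣ K ∧ (q : ℤ) ∣ m ∧
      ¬ (q : ℤ) ^ 2 ∣ m ∧ NR q g).card : ℝ) ≤
      ∑ t ∈ P2, (((Icc (-(H : ℤ)) H).filter fun m => ((t ^ 2 : ℕ) : ℤ) ∣ m).card : ℝ) + (Z.card : ℝ) := by
    have h7 := (Finset.card_le_card hsub).trans (Finset.card_union_le _ _)
    have h8 := h7.trans (Nat.add_le_add_right Finset.card_biUnion_le _)
    exact_mod_cast h8
  have hc2 : ∑ t ∈ P2, (((Icc (-(H : ℤ)) H).filter fun m => ((t ^ 2 : ℕ) : ℤ) ∣ m).card : ℝ) ≤ 6 * H * rho H := by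
    have h7 : ∀ t ∈ P2, (((Icc (-(H : ℤ)) H).filter fun m => ((t ^ 2 : ℕ) : ℤ) ∣ m).card : ℝ) ≤
        3 * H * (1 / (t : ℝ) ^ 2) := by
      intro t ht
      obtain ⟨htQ, htp, -, -, -⟩ := hP2m t ht
      have h8 := card_mult (H := H) (s := t ^ 2) (Nat.one_le_pow _ _ htp.pos) (by nlinarith)
      push_cast at h8
      push_cast
      exact h8
    refine (Finset.sum_le_sum h7).trans ?_
    rw [← Finset.mul_sum]
    have h8 : ∑ t ∈ P2, (1 : ℝ) / (t : ℝ) ^ 2 ≤ 1 / y := by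
      refine le_trans ?_ (sum_sq_tail (y := y) (Q := Q) (by omega))
      refine Finset.sum_le_sum_of_subset_of_nonneg ?_ fun t _ _ => by positivity
      intro t ht
      obtain ⟨htQ, htp, hyt, -, -⟩ := hP2m t ht
      rw [Finset.mem_filter, Finset.mem_Icc]
      exact ⟨⟨htp.pos, htQ⟩, hyt⟩
    calc 3 * (H : ℝ) * ∑ t ∈ P2, (1 : ℝ) / (t : ℝ) ^ 2 ≤ 3 * (H : ℝ) * (2 * rho H) :=
          mul_le_mul_of_nonneg_left (h8.trans hrho) (by positivity)
      _ = 6 * H * rho H := by ring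
  linarith

end Pool.Agent.H82.ST
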