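import Pool.Agent.H82.ST.SB
import Pool.Agent.H82.ST.Glob2

/-!
# The number of the exceptional pairs
-/

set_option autoImplicit false

namespace Pool.Agent.H82.ST

open Finset Pool.Agent.H14Q

/-- the integer has a suitable prime factor -/
def Has (K g m : ℤ) : Prop := ∃ q : ℕ, q.Prime ∧ q ≠ 2 ∧ ¬ (q : ℤ) ∣ K ∧ (q : ℤ) ∣ m ∧
      ¬ (q : ℤ) ^ 2 ∣ m ∧ NR q g

open Classical in
theorem up3 {N k : ℤ} (hN : N ≠ 0) (hk : ¬ IsSquare k) : ∃ C : ℝ, 0 < C ∧ ∀ H : ℕ, 16 ≤ H →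
    (((Pool.Agent.H14Q.box H).filter fun p => ¬ Good2 N p.1 p.2 k).card : ℝ) ≤ C * (H : ℝ) ^ 2 * rho H := by
  have hk0 : k ≠ 0 := by
    rintro rfl
    exact hk IsSquare.zero
  have hK : k * N ≠ 0 := mul_ne_zero hk0 hN
  set G := (Finset.Icc (-((k * N).natAbs : ℤ)) (k * N).natAbs).filter (fun g => g ∣ k * N ∧ ¬ IsSquare g) with hG
  have hC : ∀ g : ℤ, ∃ C : ℝ, 0 < C ∧ (¬ IsSquare g → ∀ H : ℕ, 16 ≤ H →
      (((Icc (-(H : ℤ)) H).filter fun m => ¬ Has (k * N) g m).card : ℝ) ≤ C * H * rho H) := by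
    intro g
    by_cases hg : IsSquare g
    · exact ⟨1, one_pos, fun h => absurd hg h⟩
    · obtain ⟨C, hC, h⟩ := badset hg hK
      exact ⟨C, hC, fun _ H hH => (h H hH)⟩
  choose Cg hCg hb using hC
  refine ⟨3 * (∑ g ∈ G, Cg g + Cg k), ?_, ?_⟩
  · have h1 : 0 ≤ ∑ g ∈ G, Cg g := Finset.sum_nonneg fun g _ => (hCg g).le
    have h2 := hCg k
    positivity
  intro H hH
  have hHr : (16 : ℝ) ≤ H := by exact_mod_cast hH
  set I := Icc (-(H : ℤ)) H with hI
  have hIc : (I.card : ℝ) ≤ 3 * H := by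
    rw [hI, Int.card_Icc]
    have : ((H : ℤ) + 1 - -(H : ℤ)).toNat = 2 * H + 1 := by omega
    rw [this]
    push_cast
    linarith
  have hsub : (box H).filter (fun p => ¬ Good2 N p.1 p.2 k) ⊆
      (G.biUnion fun g => (I.filter fun m => ¬ Has (k * N) g m) ×ˢ I) ∪
        I ×ˢ (I.filter fun n => ¬ Has (k * N) k n) := by
    intro p hp
    rw [mem_filter] at hp
    have hpb := hp.1
    unfold Pool.Agent.H14Q.box at hpb
    rw [mem_product] at hpb
    rw [mem_union, mem_biUnion]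
    by_contra hcon
    push Not at hcon
    obtain ⟨h1, h2⟩ := hcon
    apply hp.2
    refine ⟨hk0, hN, ?_, ?_⟩
    · intro g hg hsq
      have hgG : g ∈ G := by
        rw [hG, mem_filter, mem_Icc, ← abs_le]
        refine ⟨?_, hg, hsq⟩
        rw [Int.natCast_natAbs]
        exact Int.le_of_dvd (abs_pos.2 hK) ((abs_dvd_abs _ _).2 hg)
      have h3 := h1 g hgG
      rw [mem_product, mem_filter] at h3
      by_contra h4
      exact h3 ⟨⟨hpb.1, h4⟩, hpb.2⟩
    · rw [mem_product, mem_filter] at h2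
      by_contra h4
      exact h2 ⟨hpb.1, hpb.2, h4⟩
  have h1 := (Finset.card_le_card hsub).trans (Finset.card_union_le _ _)
  have h2 := h1.trans (Nat.add_le_add_right Finset.card_biUnion_le _)
  have h3 : (((Pool.Agent.H14Q.box H).filter fun p => ¬ Good2 N p.1 p.2 k).card : ℝ) ≤
      ∑ g ∈ G, (((I.filter fun m => ¬ Has (k * N) g m).card : ℝ) * I.card) +
        (I.card : ℝ) * ((I.filter fun n => ¬ Has (k * N) k n).card : ℝ) := by
    have h4 : ((Pool.Agent.H14Q.box H).filter fun p => ¬ Good2 N p.1 p.2 k).card ≤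
        ∑ g ∈ G, ((I.filter fun m => ¬ Has (k * N) g m).card * I.card) +
          I.card * (I.filter fun n => ¬ Has (k * N) k n).card := by
      refine h2.trans (le_of_eq ?_)
      rw [card_product]
      congr 1
      exact Finset.sum_congr rfl fun g _ => card_product _ _
    exact_mod_cast h4
  have hrho0 : 0 ≤ rho H := Real.sqrt_nonneg _
  have hI0 : (0 : ℝ) ≤ I.card := Nat.cast_nonneg _
  have h4 : ∀ g ∈ G, (((I.filter fun m => ¬ Has (k * N) g m).card : ℝ) * I.card) ≤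
      3 * Cg g * (H : ℝ) ^ 2 * rho H := by
    intro g hg
    have h5 := hb g (mem_filter.1 hg).2.2 H hH
    calc ((I.filter fun m => ¬ Has (k * N) g m).card : ℝ) * I.card
        ≤ (Cg g * H * rho H) * (3 * H) := mul_le_mul h5 hIc hI0
          (mul_nonneg (mul_nonneg (hCg g).le (by positivity)) hrho0)
      _ = 3 * Cg g * (H : ℝ) ^ 2 * rho H := by ring
  have h5 : (I.card : ℝ) * ((I.filter fun n => ¬ Has (k * N) k n).card : ℝ) ≤ 3 * Cg k * (H : ℝ) ^ 2 * rho H := by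
    have h6 := hb k hk H hH
    calc (I.card : ℝ) * ((I.filter fun n => ¬ Has (k * N) k n).card : ℝ)
        ≤ (3 * H) * (Cg k * H * rho H) := mul_le_mul hIc h6 (Nat.cast_nonneg _) (by positivity)
      _ = 3 * Cg k * (H : ℝ) ^ 2 * rho H := by ring
  refine h3.trans ((add_le_add (Finset.sum_le_sum h4) h5).trans (le_of_eq ?_))
  rw [mul_add, add_mul, add_mul, Finset.mul_sum, Finset.sum_mul, Finset.sum_mul]

end Pool.Agent.H82.ST
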