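import Pool.Agent.R318.PR.Weil2

/-!
# Values of `α f / (β g)` which are `t`-th powers, over finite fields
-/

set_option autoImplicit false

namespace Pool.Agent.H82.ST

open Polynomial UniqueFactorizationMonoid EuclideanDomain Pool.Agent.H435R3.Weil

section simple

variable {F : Type} [Field F] [DecidableEq F]

/-- `A ^ 2 - c` has an irreducible factor of multiplicity one -/
theorem simple_factor {A : F[X]} (hA : A.Monic) (ha : 1 ≤ A.natDegree) (hchar : ((A.natDegree : ℕ) : F) ≠ 0)
    (h2 : (2 : F) ≠ 0) {c : F} (hc : c ≠ 0) :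
    ∃ Q : F[X], Irreducible Q ∧ Q ∣ A ^ 2 - C c ∧ ¬ Q ^ 2 ∣ A ^ 2 - C c := by
  by_contra hcon
  push Not at hcon
  set f : F[X] := A ^ 2 - C c with hf
  have hA2 : (A ^ 2).Monic := hA.pow 2
  have hdA2 : (A ^ 2).natDegree = 2 * A.natDegree := natDegree_pow _ _
  have hfd : f.natDegree = 2 * A.natDegree := by
    rw [hf, natDegree_sub_C, hdA2]
  have hf0 : f ≠ 0 := by
    intro h
    rw [h, natDegree_zero] at hfd
    omega
  have hrad : radical f * radical f ∣ f := by
    have h1 : radical f * radical f = ∏ p ∈ primeFactors f, p ^ 2 := by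
      unfold radical
      rw [← Finset.prod_mul_distrib]
      exact Finset.prod_congr rfl fun p _ => (pow_two _).symm
    rw [h1]
    refine Finset.prod_dvd_of_coprime ?_ ?_
    · intro p hp q hq hpq
      have h3 := (pairwise_primeFactors_isRelPrime (a := f)) hp hq hpq
      exact (IsCoprime.pow h3.isCoprime)
    · intro p hp
      have hp' := mem_primeFactors.1 hp
      exact hcon p (irreducible_of_normalized_factor p hp') (dvd_of_mem_normalizedFactors hp')
  have hrd : 2 * (radical f).natDegree ≤ 2 * A.natDegree := by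
    have h1 := natDegree_le_of_dvd hrad hf0
    rw [natDegree_mul radical_ne_zero radical_ne_zero, hfd] at h1
    omega
  have hmul : (divRadical f).natDegree + (radical f).natDegree = 2 * A.natDegree := by
    rw [← natDegree_mul (divRadical_ne_zero hf0) radical_ne_zero, divRadical_mul_radical, hfd]
  have hcop : IsCoprime (divRadical f) A := by
    have h1 : IsCoprime f A := by
      refine ⟨-C c⁻¹, C c⁻¹ * A, ?_⟩
      rw [hf]
      have h3 : (C c⁻¹ : F[X]) * C c = 1 := by
        rw [← C_mul, inv_mul_cancel₀ hc, C_1]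
      linear_combination h3
    exact h1.of_isCoprime_of_dvd_left (divRadical_dvd_self f)
  have hder : divRadical f ∣ derivative A := by
    have h1 : divRadical f ∣ derivative f := divRadical_dvd_derivative f
    have h3 : derivative f = A * (C 2 * derivative A) := by
      rw [hf, derivative_sub, derivative_C, sub_zero, derivative_pow]
      simp
      ring
    rw [h3] at h1
    have h4 := hcop.dvd_of_dvd_mul_left h1
    have h5 : C (2⁻¹ : F) * (C 2 * derivative A) = derivative A := by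
      rw [← mul_assoc, ← C_mul, inv_mul_cancel₀ h2, C_1, one_mul]
    rw [← h5]
    exact h4.mul_left _
  have hA' : derivative A ≠ 0 := by
    intro h
    have h1 : (derivative A).coeff (A.natDegree - 1) = 0 := by rw [h, coeff_zero]
    rw [coeff_derivative, Nat.sub_add_cancel ha, hA.coeff_natDegree, one_mul] at h1
    apply hchar
    have h3 : ((A.natDegree : ℕ) : F) = ((A.natDegree - 1 : ℕ) : F) + 1 := by
      rw [← Nat.cast_succ, Nat.succ_eq_add_one, Nat.sub_add_cancel ha]
    rw [h3]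
    exact h1
  have h6 := natDegree_le_of_dvd hder hA'
  have h7 : (derivative A).natDegree ≤ A.natDegree - 1 := natDegree_derivative_le A
  omega

end simple

section char

variable {F : Type} [Field F] [Fintype F] [DecidableEq F]

omit [DecidableEq F] in
theorem norm_le_one' (χ : MulChar F ℂ) (x : F) : ‖χ x‖ ≤ 1 := by
  by_cases hx : x = 0
  · have h0 : χ x = 0 := by rw [hx]; exact MulChar.map_zero χ
    rw [h0, norm_zero]
    exact zero_le_one
  · have h1 : χ x ^ (Fintype.card F - 1) = 1 := by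
      rw [← map_pow, FiniteField.pow_card_sub_one_eq_one x hx, map_one]
    have h2 : 1 < Fintype.card F := Fintype.one_lt_card
    exact (Complex.norm_eq_one_of_pow_eq_one h1 (by omega)).le

omit [DecidableEq F] in
theorem pow_of_chi {t : ℕ} {χ : MulChar F ℂ} (hχ : orderOf χ = t) {u : F}
    (hu : χ u = 1) : ∃ v : F, v ≠ 0 ∧ v ^ t = u := by
  have hu0 : u ≠ 0 := by
    rintro rfl
    rw [MulChar.map_zero] at hu
    exact zero_ne_one hu
  obtain ⟨g, hg⟩ := IsCyclic.exists_generator (α := Fˣ)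
  obtain ⟨k, hk⟩ := (mem_powers_iff_mem_zpowers.2 (hg (Units.mk0 u hu0)))
  have hk' : g ^ k = Units.mk0 u hu0 := hk
  have h1 : χ ^ k = 1 := by
    ext x
    obtain ⟨i, hi⟩ := (mem_powers_iff_mem_zpowers.2 (hg x))
    have hi' : g ^ i = x := hi
    rw [MulChar.one_apply_coe, MulChar.pow_apply_coe, ← hi', Units.val_pow_eq_pow_val, map_pow, ← pow_mul,
      mul_comm, pow_mul, ← map_pow, ← Units.val_pow_eq_pow_val, hk', Units.val_mk0, hu, one_pow]
  have h2 : t ∣ k := by
    rw [← hχ]
    exact orderOf_dvd_of_pow_eq_one h1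
  obtain ⟨j, rfl⟩ := h2
  refine ⟨((g ^ j : Fˣ) : F), Units.ne_zero _, ?_⟩
  rw [← Units.val_pow_eq_pow_val, ← pow_mul, mul_comm j t, hk', Units.val_mk0]

/-- the character sums -/
theorem char_sum {t : ℕ} (ht : 2 ≤ t) (htF : t ∣ Fintype.card F - 1) {ψ : MulChar F ℂ} (h1 : ψ ≠ 1) (hψ : ψ ^ t = 1)
    {f g Q : F[X]} (hf : f.Monic) (hg : g.Monic) (hQ : Irreducible Q) (hQf : Q ∣ f) (hQ2 : ¬ Q ^ 2 ∣ f)
    (hQg : ¬ Q ∣ g) (α β : F) :
    ‖∑ x : F, ψ (α * f.eval x) * (starRingEnd ℂ) (ψ (β * g.eval x))‖ ≤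
      ((f.natDegree + (t - 1) * g.natDegree : ℕ) : ℝ) * Real.sqrt (Fintype.card F) := by
  have hP : (f * g ^ (t - 1)).Monic := hf.mul (hg.pow _)
  have hQP : ¬ Q ^ 2 ∣ f * g ^ (t - 1) := by
    intro h
    have hcop : IsCoprime (Q ^ 2) (g ^ (t - 1)) := by
      have h3 : IsCoprime Q g := (hQ.coprime_iff_not_dvd).2 hQg
      exact h3.pow
    exact hQ2 (hcop.dvd_of_dvd_mul_right h)
  have h3 := Pool.Agent.R318.PR.weil2 t ht htF ψ h1 hψ (f * g ^ (t - 1)) Q hP hQ (hQf.mul_right _) hQP
  have hd : (f * g ^ (t - 1)).natDegree = f.natDegree + (t - 1) * g.natDegree := by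
    rw [hf.natDegree_mul (hg.pow _), hg.natDegree_pow]
  rw [hd] at h3
  have h4 : ∑ x : F, ψ (α * f.eval x) * (starRingEnd ℂ) (ψ (β * g.eval x)) =
      (ψ α * (starRingEnd ℂ) (ψ β)) * ∑ x : F, ψ ((f * g ^ (t - 1)).eval x) := by
    rw [Finset.mul_sum]
    refine Finset.sum_congr rfl fun x _ => ?_
    rw [map_mul, map_mul, map_mul, conj_eq ht ψ hψ (g.eval x), eval_mul, eval_pow, map_mul, map_pow]
    ring
  rw [h4, norm_mul]
  have h5 : ‖ψ α * (starRingEnd ℂ) (ψ β)‖ ≤ 1 := by
    rw [norm_mul, Complex.norm_conj]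
    exact mul_le_one₀ (norm_le_one' ψ α) (norm_nonneg _) (norm_le_one' ψ β)
  calc ‖ψ α * (starRingEnd ℂ) (ψ β)‖ * ‖∑ x : F, ψ ((f * g ^ (t - 1)).eval x)‖
      ≤ 1 * ‖∑ x : F, ψ ((f * g ^ (t - 1)).eval x)‖ := mul_le_mul_of_nonneg_right h5 (norm_nonneg _)
    _ ≤ _ := by rw [one_mul]; exact h3

/-- **values which are powers** -/
theorem exists_pow_value {t : ℕ} (ht : 2 ≤ t) (htF : t ∣ Fintype.card F - 1)
    {f g Q : F[X]} (hf : f.Monic) (hg : g.Monic) (hQ : Irreducible Q) (hQf : Q ∣ f) (hQ2 : ¬ Q ^ 2 ∣ f)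
    (hQg : ¬ Q ∣ g) {α β : F} (hα : α ≠ 0) (hβ : β ≠ 0)
    (hsize : (t : ℝ) * (((f.natDegree + (t - 1) * g.natDegree : ℕ) : ℝ) * Real.sqrt (Fintype.card F)) +
      (f.natDegree + g.natDegree : ℕ) < Fintype.card F) :
    ∃ x v : F, f.eval x ≠ 0 ∧ g.eval x ≠ 0 ∧ v ≠ 0 ∧ v ^ t * (β * g.eval x) = α * f.eval x := by
  by_contra hcon
  push Not at hcon
  obtain ⟨χ, hχ⟩ := MulChar.exists_mulChar_orderOf F htF (Complex.isPrimitiveRoot_exp t (by omega))
  have hχt : χ ^ t = 1 := by
    rw [← hχ]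
    exact pow_orderOf_eq_one χ
  have hx : ∀ x : F, ∑ j ∈ Finset.range t, (χ ^ j) (α * f.eval x) * (starRingEnd ℂ) ((χ ^ j) (β * g.eval x)) = 0 := by
    intro x
    by_cases hfx : f.eval x = 0
    · refine Finset.sum_eq_zero fun j _ => ?_
      rw [hfx, mul_zero, MulChar.map_zero, zero_mul]
    by_cases hgx : g.eval x = 0
    · refine Finset.sum_eq_zero fun j _ => ?_
      rw [hgx, mul_zero, MulChar.map_zero, map_zero, mul_zero]
    have hY : β * g.eval x ≠ 0 := mul_ne_zero hβ hgx
    have hX : α * f.eval x ≠ 0 := mul_ne_zero hα hfx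
    set z : ℂ := χ (α * f.eval x / (β * g.eval x)) with hz
    have hz1 : z ≠ 1 := by
      intro h
      obtain ⟨v, hv, hvt⟩ := pow_of_chi hχ h
      refine hcon x v hfx hgx hv ?_
      rw [hvt, div_mul_cancel₀ _ hY]
    have hU : IsUnit (α * f.eval x / (β * g.eval x)) := isUnit_iff_ne_zero.2 (div_ne_zero hX hY)
    have hzt : z ^ t = 1 := by
      rw [hz, ← MulChar.pow_apply' χ (by omega), hχt, MulChar.one_apply hU]
    have hterm : ∀ j ∈ Finset.range t, (χ ^ j) (α * f.eval x) * (starRingEnd ℂ) ((χ ^ j) (β * g.eval x)) = z ^ j := by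
      intro j _
      have hYu : IsUnit (β * g.eval x) := isUnit_iff_ne_zero.2 hY
      have h1 : ‖(χ ^ j) (β * g.eval x)‖ = 1 := by
        have h2 : (χ ^ j) (β * g.eval x) ^ t = 1 := by
          have h3 : (χ ^ j) ^ t = 1 := by rw [← pow_mul, mul_comm, pow_mul, hχt, one_pow]
          rw [← MulChar.pow_apply' _ (by omega), h3, MulChar.one_apply hYu]
        exact Complex.norm_eq_one_of_pow_eq_one h2 (by omega)
      rw [← Complex.inv_eq_conj h1]
      have h2 : (χ ^ j) (α * f.eval x) = (χ ^ j) (α * f.eval x / (β * g.eval x)) * (χ ^ j) (β * g.eval x) := by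
        rw [← map_mul, div_mul_cancel₀ _ hY]
      have h3 : (χ ^ j) (β * g.eval x) ≠ 0 := by
        rw [← norm_ne_zero_iff, h1]
        exact one_ne_zero
      rw [h2, mul_assoc, mul_inv_cancel₀ h3, mul_one, hz]
      rcases Nat.eq_zero_or_pos j with rfl | hj
      · rw [pow_zero, pow_zero, MulChar.one_apply hU]
      · rw [MulChar.pow_apply' χ (by omega)]
    rw [Finset.sum_congr rfl hterm]
    have h2 := geom_sum_mul z t
    rw [hzt, sub_self] at h2
    exact (mul_eq_zero.1 h2).resolve_right (sub_ne_zero.2 hz1)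
  set S : ℕ → ℂ := fun j => ∑ x : F, (χ ^ j) (α * f.eval x) * (starRingEnd ℂ) ((χ ^ j) (β * g.eval x)) with hS
  have hsum : ∑ j ∈ Finset.range t, S j = 0 := by
    rw [hS]
    simp only
    rw [Finset.sum_comm]
    exact Finset.sum_eq_zero fun x _ => hx x
  have hSj : ∀ j ∈ Finset.range t, j ≠ 0 → ‖S j‖ ≤
      ((f.natDegree + (t - 1) * g.natDegree : ℕ) : ℝ) * Real.sqrt (Fintype.card F) := by
    intro j hj hj0
    rw [Finset.mem_range] at hj
    refine char_sum ht htF ?_ ?_ hf hg hQ hQf hQ2 hQg α β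
    · intro h
      have h1 := orderOf_dvd_of_pow_eq_one h
      rw [hχ] at h1
      exact absurd (Nat.le_of_dvd (Nat.pos_of_ne_zero hj0) h1) (by omega)
    · rw [← pow_mul, mul_comm, pow_mul, hχt, one_pow]
  have hS0 : ((Fintype.card F : ℝ) - (f.natDegree + g.natDegree : ℕ)) ≤ ‖S 0‖ := by
    have h1 : S 0 = ((Finset.univ.filter fun x : F => f.eval x ≠ 0 ∧ g.eval x ≠ 0).card : ℂ) := by
      rw [hS]
      simp only [pow_zero]
      rw [Finset.card_filter]
      push_cast
      refine Finset.sum_congr rfl fun x _ => ?_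
      by_cases hfx : f.eval x = 0
      · rw [hfx, mul_zero, MulChar.map_zero, zero_mul]
        simp
      by_cases hgx : g.eval x = 0
      · rw [hgx, mul_zero, MulChar.map_zero, map_zero, mul_zero]
        simp
      rw [MulChar.one_apply (isUnit_iff_ne_zero.2 (mul_ne_zero hα hfx)),
        MulChar.one_apply (isUnit_iff_ne_zero.2 (mul_ne_zero hβ hgx)), map_one, one_mul]
      simp [hfx, hgx]
    rw [h1, Complex.norm_natCast]
    have h2 : Fintype.card F ≤ (Finset.univ.filter fun x : F => f.eval x ≠ 0 ∧ g.eval x ≠ 0).card +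
        (f.natDegree + g.natDegree) := by
      have h3 : (Finset.univ.filter fun x : F => ¬ (f.eval x ≠ 0 ∧ g.eval x ≠ 0)).card ≤
          f.natDegree + g.natDegree := by
        have h4 : (Finset.univ.filter fun x : F => ¬ (f.eval x ≠ 0 ∧ g.eval x ≠ 0)) ⊆
            (f * g).roots.toFinset := by
          intro x hx
          rw [Finset.mem_filter] at hx
          rw [Multiset.mem_toFinset, mem_roots (mul_ne_zero hf.ne_zero hg.ne_zero), IsRoot.def, eval_mul]
          by_contra h5
          exact hx.2 ⟨left_ne_zero_of_mul h5, right_ne_zero_of_mul h5⟩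
        calc _ ≤ (f * g).roots.toFinset.card := Finset.card_le_card h4
          _ ≤ Multiset.card (f * g).roots := Multiset.toFinset_card_le _
          _ ≤ (f * g).natDegree := card_roots' _
          _ = _ := hf.natDegree_mul hg
      have h4 := Finset.card_filter_add_card_filter_not (s := (Finset.univ : Finset F))
        (fun x : F => f.eval x ≠ 0 ∧ g.eval x ≠ 0)
      rw [Finset.card_univ] at h4
      omega
    have h5 : (Fintype.card F : ℝ) ≤ (Finset.univ.filter fun x : F => f.eval x ≠ 0 ∧ g.eval x ≠ 0).card +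
        ((f.natDegree + g.natDegree : ℕ) : ℝ) := by exact_mod_cast h2
    linarith
  have h1 : S 0 = -∑ j ∈ (Finset.range t).erase 0, S j := by
    have h2 := Finset.add_sum_erase (Finset.range t) S (Finset.mem_range.2 (by omega : 0 < t))
    rw [hsum] at h2
    exact eq_neg_of_add_eq_zero_left h2
  have h2 : ‖S 0‖ ≤ t * (((f.natDegree + (t - 1) * g.natDegree : ℕ) : ℝ) * Real.sqrt (Fintype.card F)) := by
    rw [h1, norm_neg]
    refine (norm_sum_le _ _).trans ?_
    have h6 : ∀ j ∈ (Finset.range t).erase 0, ‖S j‖ ≤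
        ((f.natDegree + (t - 1) * g.natDegree : ℕ) : ℝ) * Real.sqrt (Fintype.card F) := by
      intro j hj
      rw [Finset.mem_erase] at hj
      exact hSj j hj.2 hj.1
    refine (Finset.sum_le_card_nsmul _ _ _ h6).trans ?_
    rw [nsmul_eq_mul]
    refine mul_le_mul_of_nonneg_right ?_ (by positivity)
    have h3 : ((Finset.range t).erase 0).card ≤ t := by
      refine (Finset.card_le_card (Finset.erase_subset _ _)).trans ?_
      rw [Finset.card_range]
    exact_mod_cast h3
  linarith

end char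

end Pool.Agent.H82.ST
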